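import Pool.Agent.R982.KS.Defs2

/-!
# KT-7: counting clauses of a batch
-/

open Finset

namespace Pool.Agent.R982.KS.BCount

open Pool.Agent.R982.KS

variable {n : ℕ}

theorem signs (k : ℕ) (VV : Finset (Finset (Fin n))) (hV : ∀ V ∈ VV, #V ≤ k) :
    #((univ : Finset (Finset (Lit n))).filter (fun c => (∀ x ∈ c, ∀ y ∈ c, x.1 = y.1 → x = y) ∧
      c.image Prod.fst ∈ VV)) ≤ 2 ^ k * #VV := by
  classical
  have h1 : (univ : Finset (Finset (Lit n))).filter (fun c =>
      (∀ x ∈ c, ∀ y ∈ c, x.1 = y.1 → x = y) ∧ c.image Prod.fst ∈ VV) ⊆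
      (VV.sigma (fun V => V.powerset)).image
        (fun p => p.1.image (fun i => ((i, decide (i ∈ p.2)) : Lit n))) := by
    intro c hc
    rw [mem_filter] at hc
    obtain ⟨-, hcons, hcV⟩ := hc
    rw [mem_image]
    refine ⟨⟨c.image Prod.fst, (c.filter (fun x => x.2 = true)).image Prod.fst⟩, ?_, ?_⟩
    · rw [mem_sigma, mem_powerset]
      exact ⟨hcV, image_subset_image (filter_subset _ _)⟩
    · have key : ∀ x ∈ c,
          ((x.1, decide (x.1 ∈ (c.filter (fun x => x.2 = true)).image Prod.fst)) : Lit n) = x := by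
        intro x hx
        by_cases hb : x.2 = true
        · have : x.1 ∈ (c.filter (fun x => x.2 = true)).image Prod.fst :=
            mem_image_of_mem _ (mem_filter.2 ⟨hx, hb⟩)
          rw [decide_eq_true this, ← hb]
        · have : x.1 ∉ (c.filter (fun x => x.2 = true)).image Prod.fst := by
            intro h
            rw [mem_image] at h
            obtain ⟨y, hy, hyx⟩ := h
            rw [mem_filter] at hy
            have := hcons y hy.1 x hx hyx
            rw [this] at hy
            exact hb hy.2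
          rw [decide_eq_false this]
          have hb' : x.2 = false := by simpa using hb
          rw [← hb']
      ext z
      rw [mem_image]
      constructor
      · rintro ⟨i, hi, rfl⟩
        rw [mem_image] at hi
        obtain ⟨x, hx, rfl⟩ := hi
        rw [key x hx]
        exact hx
      · intro hz
        exact ⟨z.1, mem_image_of_mem _ hz, key z hz⟩
  refine (card_le_card h1).trans (card_image_le.trans ?_)
  rw [card_sigma]
  calc ∑ V ∈ VV, #V.powerset ≤ ∑ _V ∈ VV, 2 ^ k := by
        apply sum_le_sum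
        intro V hVm
        rw [card_powerset]
        exact Nat.pow_le_pow_right (by norm_num) (hV V hVm)
    _ = 2 ^ k * #VV := by rw [sum_const, smul_eq_mul, mul_comm]

theorem falc (a : Fin n → Bool) (VV : Finset (Finset (Fin n))) :
    #((Fal a).filter (fun c => c.image Prod.fst ∈ VV)) ≤ #VV := by
  classical
  have key : ∀ c ∈ Fal a, (c.image Prod.fst).image (fun i => ((i, !a i) : Lit n)) = c := by
    intro c hc
    unfold Fal at hc
    rw [mem_filter] at hc
    have h0 : ∀ x ∈ c, ((x.1, !a x.1) : Lit n) = x := by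
      intro x hx
      have h1 : a x.1 ≠ x.2 := fun h => hc.2 ⟨x, hx, h⟩
      have h2 : (!a x.1) = x.2 := by
        cases h3 : a x.1 <;> cases h4 : x.2 <;> simp_all
      rw [h2]
    ext z
    simp only [mem_image]
    constructor
    · rintro ⟨i, ⟨x, hx, rfl⟩, rfl⟩
      rw [h0 x hx]
      exact hx
    · intro hz
      exact ⟨z.1, ⟨z, hz, rfl⟩, h0 z hz⟩
  apply card_le_card_of_injOn (fun c => c.image Prod.fst)
  · intro c hc
    rw [mem_coe, mem_filter] at hc
    exact hc.2
  · intro c hc d hd hcd
    rw [mem_coe, mem_filter] at hc hd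
    rw [← key c hc.1, ← key d hd.1]
    show (c.image Prod.fst).image _ = (d.image Prod.fst).image _
    have : c.image Prod.fst = d.image Prod.fst := hcd
    rw [this]

/-- the batch -/
def Bt (n m g : ℕ) : Finset (Fin n) := univ.filter (fun i => m ≤ (i : ℕ) ∧ (i : ℕ) < m + g)

def Mt (n m : ℕ) : Finset (Fin n) := univ.filter (fun i => (i : ℕ) < m)

theorem card_Bt (m g : ℕ) : #(Bt n m g) ≤ g := by
  have h : #(Bt n m g) ≤ #(Finset.Ico m (m + g)) := by
    apply card_le_card_of_injOn (fun i : Fin n => (i : ℕ))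
    · intro i hi
      rw [mem_coe, Bt, mem_filter] at hi
      rw [mem_coe, Finset.mem_Ico]
      exact hi.2
    · intro i _ j _ hij
      exact Fin.ext hij
  rwa [Nat.card_Ico, Nat.add_sub_cancel_left] at h

theorem card_Mt (m : ℕ) : #(Mt n m) ≤ m := by
  have h : #(Mt n m) ≤ #(Finset.range m) := by
    apply card_le_card_of_injOn (fun i : Fin n => (i : ℕ))
    · intro i hi
      rw [mem_coe, Mt, mem_filter] at hi
      rw [mem_coe, Finset.mem_range]
      exact hi.2
    · intro i _ j _ hij
      exact Fin.ext hij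
  rwa [card_range] at h

/-- structure of the elements of `one` -/
theorem one_str (k m g : ℕ) (c : Finset (Lit n)) (hc : c ∈ one n k m g) :
    (∀ x ∈ c, ∀ y ∈ c, x.1 = y.1 → x = y) ∧
    ∃ x0 : Lit n, x0.1 ∈ Bt n m g ∧ c = insert x0 (c.filter (fun x => (x.1 : ℕ) < m)) ∧
      #(c.filter (fun x => (x.1 : ℕ) < m)) = k - 1 := by
  unfold one below board at hc
  rw [mem_filter, mem_filter, mem_filter, mem_powersetCard] at hc
  obtain ⟨⟨⟨⟨-, hcard⟩, hcons⟩, hlt⟩, hone⟩ := hc
  refine ⟨hcons, ?_⟩
  obtain ⟨x0, hx0⟩ := card_eq_one.1 hone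
  have hx0c : x0 ∈ c.filter (fun x => m ≤ (x.1 : ℕ)) := by
    rw [hx0]
    exact mem_singleton_self _
  rw [mem_filter] at hx0c
  refine ⟨x0, ?_, ?_, ?_⟩
  · rw [Bt, mem_filter]
    exact ⟨mem_univ _, hx0c.2, hlt x0 hx0c.1⟩
  · ext z
    rw [mem_insert, mem_filter]
    constructor
    · intro hz
      by_cases h : (z.1 : ℕ) < m
      · exact Or.inr ⟨hz, h⟩
      · left
        have : z ∈ c.filter (fun x => m ≤ (x.1 : ℕ)) := mem_filter.2 ⟨hz, by omega⟩
        rw [hx0, mem_singleton] at this
        exact this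
    · rintro (rfl | h)
      · exact hx0c.1
      · exact h.1
  · have h1 := card_filter_add_card_filter_not (s := c) (fun x : Lit n => (x.1 : ℕ) < m)
    have h2 : c.filter (fun x : Lit n => ¬ (x.1 : ℕ) < m) = c.filter (fun x => m ≤ (x.1 : ℕ)) := by
      apply filter_congr
      intro x _
      exact not_lt
    rw [h2, hone, hcard] at h1
    omega

theorem one_vars (k m g : ℕ) (c : Finset (Lit n)) (hc : c ∈ one n k m g) :
    c.image Prod.fst ∈ (Bt n m g ×ˢ powersetCard (k - 1) (Mt n m)).image
      (fun p => insert p.1 p.2) := by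
  obtain ⟨hcons, x0, hx0, hce, hcard⟩ := one_str k m g c hc
  rw [mem_image]
  refine ⟨(x0.1, (c.filter (fun x => (x.1 : ℕ) < m)).image Prod.fst), ?_, ?_⟩
  · rw [mem_product]
    refine ⟨hx0, ?_⟩
    rw [mem_powersetCard]
    constructor
    · intro i hi
      rw [mem_image] at hi
      obtain ⟨x, hx, rfl⟩ := hi
      rw [mem_filter] at hx
      rw [Mt, mem_filter]
      exact ⟨mem_univ _, hx.2⟩
    · rw [card_image_of_injOn, hcard]
      intro x hx y hy hxy
      rw [mem_coe, mem_filter] at hx hy
      exact hcons x hx.1 y hy.1 hxy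
  · show insert x0.1 _ = _
    conv_rhs => rw [hce]
    rw [image_insert]

theorem two_vars (k m g : ℕ) (c : Finset (Lit n)) (hc : c ∈ two n k m g) :
    (∀ x ∈ c, ∀ y ∈ c, x.1 = y.1 → x = y) ∧
    c.image Prod.fst ∈ (Bt n m g ×ˢ (Bt n m g ×ˢ powersetCard (k - 2) (Mt n (m + g)))).image
      (fun p => insert p.1 (insert p.2.1 p.2.2)) := by
  unfold two below board at hc
  rw [mem_filter, mem_filter, mem_filter, mem_powersetCard] at hc
  obtain ⟨⟨⟨⟨-, hcard⟩, hcons⟩, hlt⟩, htwo⟩ := hc
  refine ⟨hcons, ?_⟩
  obtain ⟨x, y, hx, hy, hxy⟩ := one_lt_card_iff.1 (show 1 < #(c.filter fun x => m ≤ (x.1 : ℕ)) by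
    omega)
  rw [mem_filter] at hx hy
  rw [mem_image]
  refine ⟨(x.1, (y.1, ((c.erase x).erase y).image Prod.fst)), ?_, ?_⟩
  · rw [mem_product, mem_product]
    refine ⟨?_, ?_, ?_⟩
    · show x.1 ∈ Bt n m g
      rw [Bt, mem_filter]
      exact ⟨mem_univ _, hx.2, hlt x hx.1⟩
    · show y.1 ∈ Bt n m g
      rw [Bt, mem_filter]
      exact ⟨mem_univ _, hy.2, hlt y hy.1⟩
    · show ((c.erase x).erase y).image Prod.fst ∈ _
      rw [mem_powersetCard]
      constructor
      · intro i hi
        rw [mem_image] at hi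
        obtain ⟨z, hz, rfl⟩ := hi
        rw [Mt, mem_filter]
        exact ⟨mem_univ _, hlt z (mem_of_mem_erase (mem_of_mem_erase hz))⟩
      · rw [card_image_of_injOn, card_erase_of_mem, card_erase_of_mem hx.1, hcard]
        · omega
        · exact mem_erase.2 ⟨hxy.symm, hy.1⟩
        · intro u hu v hv huv
          exact hcons u (mem_of_mem_erase (mem_of_mem_erase hu)) v
            (mem_of_mem_erase (mem_of_mem_erase hv)) huv
  · show insert x.1 (insert y.1 (((c.erase x).erase y).image Prod.fst)) = c.image Prod.fst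
    rw [← image_insert, ← image_insert, insert_erase (mem_erase.2 ⟨hxy.symm, hy.1⟩),
      insert_erase hx.1]

theorem card_V1 (k m g : ℕ) :
    #((Bt n m g ×ˢ powersetCard (k - 1) (Mt n m)).image (fun p => insert p.1 p.2)) ≤
      g * m.choose (k - 1) := by
  refine card_image_le.trans ?_
  rw [card_product, card_powersetCard]
  exact Nat.mul_le_mul (card_Bt m g) (Nat.choose_le_choose _ (card_Mt m))

theorem bcount_ok : St_BCount := by
  intro n k m g hk _
  refine ⟨?_, ?_, ?_, ?_⟩
  · have h1 := signs k ((Bt n m g ×ˢ powersetCard (k - 1) (Mt n m)).image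
      (fun p => insert p.1 p.2)) (by
        intro V hV
        rw [mem_image] at hV
        obtain ⟨p, hp, rfl⟩ := hV
        rw [mem_product, mem_powersetCard] at hp
        refine (card_insert_le _ _).trans ?_
        rw [hp.2.2]
        omega)
    refine le_trans (card_le_card ?_) (h1.trans (Nat.mul_le_mul_left _ (card_V1 k m g)))
    intro c hc
    rw [mem_filter]
    exact ⟨mem_univ _, (one_str k m g c hc).1, one_vars k m g c hc⟩
  · intro a
    refine le_trans (card_le_card ?_) ((falc a ((Bt n m g ×ˢ powersetCard (k - 1)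
      (Mt n m)).image (fun p => insert p.1 p.2))).trans (card_V1 k m g))
    intro c hc
    rw [mem_inter] at hc
    rw [mem_filter]
    exact ⟨hc.1, one_vars k m g c hc.2⟩
  · have h1 := signs k ((Bt n m g ×ˢ (Bt n m g ×ˢ powersetCard (k - 2)
      (Mt n (m + g)))).image (fun p => insert p.1 (insert p.2.1 p.2.2))) (by
        intro V hV
        rw [mem_image] at hV
        obtain ⟨p, hp, rfl⟩ := hV
        rw [mem_product, mem_product, mem_powersetCard] at hp
        refine (card_insert_le _ _).trans ?_
        have := card_insert_le p.2.1 p.2.2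
        rw [hp.2.2.2] at this
        omega)
    have h2 : #((Bt n m g ×ˢ (Bt n m g ×ˢ powersetCard (k - 2)
        (Mt n (m + g)))).image (fun p => insert p.1 (insert p.2.1 p.2.2))) ≤
        g ^ 2 * (m + g).choose (k - 2) := by
      refine card_image_le.trans ?_
      rw [card_product, card_product, card_powersetCard, pow_two, mul_assoc]
      exact Nat.mul_le_mul (card_Bt m g) (Nat.mul_le_mul (card_Bt m g)
        (Nat.choose_le_choose _ (card_Mt (m + g))))
    refine le_trans (card_le_card ?_) (h1.trans (Nat.mul_le_mul_left _ h2))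
    intro c hc
    rw [mem_filter]
    exact ⟨mem_univ _, (two_vars k m g c hc).1, (two_vars k m g c hc).2⟩
  · intro Hv
    have h1 : (one n k m g).filter (fun c => c.filter (fun x => (x.1 : ℕ) < m) ∈ Hv) ⊆
        ((Bt n m g ×ˢ (univ : Finset Bool)) ×ˢ (Hv ∩ below n (k - 1) m)).image
          (fun p => insert p.1 p.2) := by
      intro c hc
      rw [mem_filter] at hc
      obtain ⟨hcons, x0, hx0, hce, hcard⟩ := one_str k m g c hc.1
      rw [mem_image]
      refine ⟨(x0, c.filter (fun x => (x.1 : ℕ) < m)), ?_, hce.symm⟩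
      rw [mem_product, mem_product, mem_inter]
      refine ⟨⟨hx0, mem_univ _⟩, hc.2, ?_⟩
      unfold below board
      rw [mem_filter, mem_filter, mem_powersetCard]
      refine ⟨⟨⟨subset_univ _, hcard⟩, ?_⟩, ?_⟩
      · intro x hx y hy hxy
        exact hcons x (mem_filter.1 hx).1 y (mem_filter.1 hy).1 hxy
      · intro x hx
        exact (mem_filter.1 hx).2
    refine (card_le_card h1).trans (card_image_le.trans ?_)
    rw [card_product, card_product, card_univ, Fintype.card_bool]
    have h2 := card_Bt (n := n) m g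
    apply Nat.mul_le_mul_right
    omega

end Pool.Agent.R982.KS.BCount
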