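import Pool.Agent.R982.KS.Defs2

/-!
# KT-8: one batch of variables in the Client-Waiter k-SAT game (MP_fefad7_co)
-/

open Finset

namespace Pool.Agent.R982.KS.Batch

/-- assignments vanishing from `m + g` on -/
abbrev Om (n m g : ℕ) := {a : Fin n → Bool // ∀ i : Fin n, m + g ≤ (i : ℕ) → a i = false}

/-- the values on the batch -/
def pr {n m g : ℕ} (h : m + g ≤ n) (a : Om n m g) : Fin g → Bool :=
  fun j => a.1 ⟨m + j, by have := j.2; omega⟩

theorem disj_iff {n : ℕ} (a : Fin n → Bool) (S : Finset (Finset (Lit n))) :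
    Disjoint (Fal a) S ↔ ∀ c ∈ S, SatC a c := by
  rw [Finset.disjoint_left]
  constructor
  · intro h c hc
    by_contra hcon
    exact h (by simp [Fal, hcon]) hc
  · intro h c hc hcS
    simp only [Fal, mem_filter, mem_univ, true_and] at hc
    exact hc (h c hcS)

theorem psi_low {n m g : ℕ} (h : m + g ≤ n) (b t G : ℝ) (hb : 0 ≤ b) (ht : 0 < t)
    (y : Fin g → Bool) (U S : Finset (Finset (Lit n)))
    (hS : ∀ c ∈ S, ∀ x ∈ c, (x.1 : ℕ) < m)
    (hG : ∀ a : Om n m g, (#(Fal a.1 ∩ U) : ℝ) ≤ G) :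
    (#(alive m S) : ℝ) * Real.exp (-(b * G / t)) ≤
      Psi (fun a : Om n m g => Fal a.1) (pr h) b t y U S := by
  classical
  have hcard : #(alive m S) ≤ #(univ.filter (fun a : Om n m g => pr h a = y ∧
      Disjoint (Fal a.1) S)) := by
    let f : (Fin n → Bool) → Om n m g := fun a =>
      ⟨fun i => if hi : m ≤ (i : ℕ) ∧ (i : ℕ) < m + g then y ⟨i - m, by omega⟩
        else if m ≤ (i : ℕ) then false else a i, by
        intro i hi
        beta_reduce
        rw [dif_neg (by omega), if_pos (by omega)]⟩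
    apply Finset.card_le_card_of_injOn f
    · intro a ha
      simp only [alive, coe_filter, mem_univ, true_and, Set.mem_ofPred_eq] at ha ⊢
      constructor
      · funext j
        simp only [pr, f]
        rw [dif_pos (by have := j.2; omega)]
        congr 1
        ext
        simp
      · rw [disj_iff]
        intro c hc
        obtain ⟨x, hx, hax⟩ := ha.2 c hc
        refine ⟨x, hx, ?_⟩
        have hlt := hS c hc x hx
        simp only [f]
        rw [dif_neg (by omega), if_neg (by omega)]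
        exact hax
    · intro a ha a' ha' haa
      simp only [alive, coe_filter, mem_univ, true_and, Set.mem_ofPred_eq] at ha ha'
      funext i
      by_cases hi : m ≤ (i : ℕ)
      · rw [ha.1 i hi, ha'.1 i hi]
      · have := congrFun (congrArg Subtype.val haa) i
        simp only [f] at this
        rw [dif_neg (by omega), if_neg hi, dif_neg (by omega), if_neg hi] at this
        exact this
  unfold Psi
  have h1 : ∀ a ∈ univ.filter (fun a : Om n m g => pr h a = y ∧ Disjoint (Fal a.1) S),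
      Real.exp (-(b * G / t)) ≤ Real.exp (-(b * (#(Fal a.1 ∩ U) : ℝ) / t)) := by
    intro a _
    apply Real.exp_le_exp.mpr
    apply neg_le_neg
    apply div_le_div_of_nonneg_right _ ht.le
    exact mul_le_mul_of_nonneg_left (hG a) hb
  have h2 := Finset.card_nsmul_le_sum _ _ _ h1
  rw [nsmul_eq_mul] at h2
  refine le_trans ?_ h2
  apply mul_le_mul_of_nonneg_right _ (Real.exp_pos _).le
  exact_mod_cast hcard

theorem alive_ge {n m g : ℕ} (h : m + g ≤ n) (b t ψ : ℝ) (hb : 0 ≤ b) (ht : 0 < t)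
    (R S' S'' : Finset (Finset (Lit n))) (Y' : Finset (Fin g → Bool))
    (hψ : ∀ y, ψ ≤ Psi (fun a : Om n m g => Fal a.1) (pr h) b t y R S')
    (hsat : ∀ a : Om n m g, pr h a ∈ Y' → (∀ c ∈ S', SatC a.1 c) → ∀ c ∈ S'', SatC a.1 c) :
    (#Y' : ℝ) * ψ ≤ #(alive (m + g) S'') := by
  classical
  set s := univ.filter (fun a : Om n m g => pr h a ∈ Y' ∧ Disjoint (Fal a.1) S') with hs
  have h1 : #s = ∑ y ∈ Y', #(s.filter (fun a => pr h a = y)) :=
    Finset.card_eq_sum_card_fiberwise (fun a ha => by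
      rw [Finset.mem_coe, hs, mem_filter] at ha
      exact ha.2.1)
  have h2 : ∀ y ∈ Y', ψ ≤ (#(s.filter (fun a => pr h a = y)) : ℝ) := by
    intro y hy
    refine (hψ y).trans ?_
    unfold Psi
    have h3 : s.filter (fun a => pr h a = y) = univ.filter (fun a : Om n m g => pr h a = y ∧
        Disjoint (Fal a.1) S') := by
      ext a
      simp only [hs, mem_filter, mem_univ, true_and]
      constructor
      · rintro ⟨⟨_, h5⟩, h6⟩
        exact ⟨h6, h5⟩
      · rintro ⟨h6, h5⟩
        exact ⟨⟨h6 ▸ hy, h5⟩, h6⟩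
    rw [h3]
    have h4 : ∀ a ∈ univ.filter (fun a : Om n m g => pr h a = y ∧ Disjoint (Fal a.1) S'),
        Real.exp (-(b * (#(Fal a.1 ∩ R) : ℝ) / t)) ≤ 1 := by
      intro a _
      rw [Real.exp_le_one_iff]
      have : 0 ≤ b * (#(Fal a.1 ∩ R) : ℝ) / t := by positivity
      linarith
    have h5 := Finset.sum_le_card_nsmul _ _ _ h4
    rw [nsmul_eq_mul, mul_one] at h5
    exact h5
  have h3 : (#Y' : ℝ) * ψ ≤ ∑ y ∈ Y', (#(s.filter (fun a => pr h a = y)) : ℝ) := by
    have := Finset.card_nsmul_le_sum Y' (fun y => (#(s.filter (fun a => pr h a = y)) : ℝ)) ψ h2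
    rwa [nsmul_eq_mul] at this
  refine h3.trans ?_
  have h4 : ∑ y ∈ Y', (#(s.filter (fun a => pr h a = y)) : ℝ) = (#s : ℝ) := by
    rw [h1]
    push_cast
    rfl
  rw [h4]
  have h5 : #s ≤ #(alive (m + g) S'') := by
    apply Finset.card_le_card_of_injOn (fun a : Om n m g => a.1)
    · intro a ha
      rw [Finset.mem_coe, hs, mem_filter] at ha
      rw [Finset.mem_coe, alive, mem_filter]
      exact ⟨mem_univ _, a.2, hsat a ha.2.1 ((disj_iff _ _).mp ha.2.2)⟩
    · intro a _ a' _ haa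
      exact Subtype.ext haa
  exact_mod_cast h5

theorem half {g : ℕ} (hg : 1 ≤ g) (j : Fin g) (v : Bool) :
    #(univ.filter (fun y : Fin g → Bool => y j = v)) = 2 ^ (g - 1) := by
  classical
  have h1 : #(univ.filter (fun y : Fin g → Bool => y j = v)) =
      #(univ.filter (fun y : Fin g → Bool => ¬ y j = v)) := by
    apply Finset.card_bij (fun y _ => Function.update y j (!y j))
    · intro y hy
      simp only [mem_filter, mem_univ, true_and] at hy ⊢
      simp [hy]
    · intro y hy y' hy' hyy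
      simp only [mem_filter, mem_univ, true_and] at hy hy'
      funext i
      by_cases hi : i = j
      · rw [hi, hy, hy']
      · have := congrFun hyy i
        simpa [Function.update_of_ne hi] using this
    · intro y hy
      simp only [mem_filter, mem_univ, true_and] at hy
      refine ⟨Function.update y j (!y j), ?_, ?_⟩
      · simp only [mem_filter, mem_univ, true_and, Function.update_self]
        cases h : y j <;> cases v <;> simp_all
      · simp
  have h2 := Finset.card_filter_add_card_filter_not (s := (univ : Finset (Fin g → Bool)))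
    (fun y => y j = v)
  rw [← h1, Finset.card_univ, Fintype.card_fun, Fintype.card_bool, Fintype.card_fin] at h2
  obtain ⟨g', rfl⟩ : ∃ g', g = g' + 1 := ⟨g - 1, by omega⟩
  rw [pow_succ] at h2
  simp only [Nat.add_sub_cancel]
  omega

theorem decomp (n k m g : ℕ) (R : Finset (Finset (Lit n)))  :
    R ∪ (above n k m \ one n k m g) = (R ∪ two n k m g) ∪ above n k (m + g) := by
  ext c
  simp only [mem_union, mem_sdiff, above, one, two, below, mem_filter]
  constructor
  · rintro (h | ⟨⟨h1, x, hx, hmx⟩, h2⟩)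
    · exact Or.inl (Or.inl h)
    · by_cases hab : ∃ x ∈ c, m + g ≤ (x.1 : ℕ)
      · exact Or.inr ⟨h1, hab⟩
      · push Not at hab
        refine Or.inl (Or.inr ⟨⟨h1, hab⟩, ?_⟩)
        have h3 : 0 < #(c.filter (fun x => m ≤ (x.1 : ℕ))) :=
          Finset.card_pos.mpr ⟨x, by rw [mem_filter]; exact ⟨hx, hmx⟩⟩
        have h4 : #(c.filter (fun x => m ≤ (x.1 : ℕ))) ≠ 1 := fun h5 => h2 ⟨⟨h1, hab⟩, h5⟩
        omega
  · rintro ((h | ⟨⟨h1, h2⟩, h3⟩) | ⟨h1, x, hx, hmx⟩)
    · exact Or.inl h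
    · refine Or.inr ⟨⟨h1, ?_⟩, ?_⟩
      · obtain ⟨x, hx⟩ := Finset.card_pos.mp (show 0 < #(c.filter (fun x => m ≤ (x.1 : ℕ))) by omega)
        rw [mem_filter] at hx
        exact ⟨x, hx.1, hx.2⟩
      · rintro ⟨_, h4⟩
        omega
    · refine Or.inr ⟨⟨h1, x, hx, by omega⟩, ?_⟩
      rintro ⟨⟨_, h4⟩, _⟩
      have := h4 x hx
      omega

theorem split_above (n k m g : ℕ) :
    above n k m = one n k m g ∪ (above n k m \ one n k m g) := by
  rw [Finset.union_sdiff_of_subset]
  intro c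
  simp only [above, one, below, mem_filter]
  rintro ⟨⟨h1, h2⟩, h3⟩
  refine ⟨h1, ?_⟩
  obtain ⟨x, hx⟩ := Finset.card_pos.mp (show 0 < #(c.filter (fun x => m ≤ (x.1 : ℕ))) by omega)
  rw [mem_filter] at hx
  exact ⟨x, hx.1, hx.2⟩

theorem sdiff_above (n k m g : ℕ) (R : Finset (Finset (Lit n))) (hR : R ⊆ one n k m g) :
    ((R ∪ two n k m g) ∪ above n k (m + g)) \ (R ∪ two n k m g) = above n k (m + g) := by
  have hd : Disjoint (above n k (m + g)) (R ∪ two n k m g) := by
    rw [Finset.disjoint_left]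
    intro c hc hc2
    simp only [above, mem_filter] at hc
    obtain ⟨_, x, hx, hmx⟩ := hc
    have h1 : ∀ x ∈ c, (x.1 : ℕ) < m + g := by
      rcases mem_union.mp hc2 with h | h
      · have := hR h
        simp only [one, below, mem_filter] at this
        exact this.1.2
      · simp only [two, below, mem_filter] at h
        exact h.1.2
    have := h1 x hx
    omega
  rw [Finset.union_sdiff_left, Finset.sdiff_eq_self_of_disjoint hd]

/-- the function used for the class `y` -/
noncomputable def wy {n m g : ℕ} (h : m + g ≤ n) (b t : ℝ) (y : Fin g → Bool)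
    (R S' : Finset (Finset (Lit n))) (a : Fin n → Bool) : ℝ :=
  open Classical in
  if ha : ∀ i : Fin n, m + g ≤ (i : ℕ) → a i = false then
    (if pr h ⟨a, ha⟩ = y ∧ Disjoint (Fal a) S' then
      Real.exp (-(b * (#(Fal a ∩ R) : ℝ) / t)) else 0) else 0

theorem wy_om {n m g : ℕ} (h : m + g ≤ n) (b t : ℝ) (y : Fin g → Bool)
    (R S' : Finset (Finset (Lit n))) (a : Om n m g) :
    wy h b t y R S' a.1 = if pr h a = y ∧ Disjoint (Fal a.1) S' then
      Real.exp (-(b * (#(Fal a.1 ∩ R) : ℝ) / t)) else 0 := by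
  unfold wy
  rw [dif_pos a.2]

theorem wy_off {n m g : ℕ} (h : m + g ≤ n) (b t : ℝ) (y : Fin g → Bool)
    (R S' : Finset (Finset (Lit n))) (a : Fin n → Bool)
    (ha : ¬ ∀ i : Fin n, m + g ≤ (i : ℕ) → a i = false) : wy h b t y R S' a = 0 := by
  unfold wy
  rw [dif_neg ha]

theorem wy_nonneg {n m g : ℕ} (h : m + g ≤ n) (b t : ℝ) (y : Fin g → Bool)
    (R S' : Finset (Finset (Lit n))) (a : Fin n → Bool) : 0 ≤ wy h b t y R S' a := by
  by_cases ha : ∀ i : Fin n, m + g ≤ (i : ℕ) → a i = false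
  · rw [wy_om h b t y R S' ⟨a, ha⟩]
    split_ifs
    · exact (Real.exp_pos _).le
    · exact le_rfl
  · rw [wy_off h b t y R S' a ha]

theorem wy_le {n m g : ℕ} (h : m + g ≤ n) (b t : ℝ) (hb : 0 ≤ b) (ht : 0 < t) (y : Fin g → Bool)
    (R S' : Finset (Finset (Lit n))) (a : Fin n → Bool) : wy h b t y R S' a ≤ 1 := by
  by_cases ha : ∀ i : Fin n, m + g ≤ (i : ℕ) → a i = false
  · rw [wy_om h b t y R S' ⟨a, ha⟩]
    split_ifs
    · rw [Real.exp_le_one_iff]
      have : 0 ≤ b * (#(Fal a ∩ R) : ℝ) / t := by positivity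
      simpa using this
    · exact zero_le_one
  · rw [wy_off h b t y R S' a ha]
    exact zero_le_one

theorem wy_ne {n m g : ℕ} (h : m + g ≤ n) (b t : ℝ) (y : Fin g → Bool)
    (R S' : Finset (Finset (Lit n))) (a : Fin n → Bool) (hw : wy h b t y R S' a ≠ 0)
    (i : Fin n) (hi : m ≤ (i : ℕ)) :
    a i = if hb : (i : ℕ) < m + g then y ⟨i - m, by omega⟩ else false := by
  by_cases ha : ∀ i : Fin n, m + g ≤ (i : ℕ) → a i = false
  · rw [wy_om h b t y R S' ⟨a, ha⟩] at hw
    by_cases hc : pr h ⟨a, ha⟩ = y ∧ Disjoint (Fal a) S'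
    · split_ifs with hb
      · rw [← hc.1]
        simp only [pr]
        congr 1
        ext
        simp only
        omega
      · exact ha i (by omega)
    · rw [if_neg hc] at hw
      exact absurd rfl hw
  · exact absurd (wy_off h b t y R S' a ha) hw

theorem sum_om {n m g : ℕ} (u : (Fin n → Bool) → ℝ)
    (hu : ∀ a, ¬ (∀ i : Fin n, m + g ≤ (i : ℕ) → a i = false) → u a = 0) :
    ∑ a, u a = ∑ a : Om n m g, u a.1 := by
  classical
  rw [← Finset.sum_subtype (univ.filter (fun a : Fin n → Bool =>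
    ∀ i : Fin n, m + g ≤ (i : ℕ) → a i = false)) (by intro a; simp) u, Finset.sum_filter]
  refine Finset.sum_congr rfl fun a _ => ?_
  split_ifs with h2
  · rfl
  · exact hu a h2

theorem sum_wy {n m g : ℕ} (h : m + g ≤ n) (b t : ℝ) (y : Fin g → Bool)
    (R S' : Finset (Finset (Lit n))) :
    ∑ a, wy h b t y R S' a = Psi (fun a : Om n m g => Fal a.1) (pr h) b t y R S' := by
  classical
  rw [sum_om (m := m) (g := g) _ (wy_off h b t y R S')]
  unfold Psi
  rw [Finset.sum_filter]
  refine Finset.sum_congr rfl fun a _ => ?_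
  rw [wy_om]

theorem psic_le {n m g : ℕ} (h : m + g ≤ n) (b t : ℝ) (y : Fin g → Bool)
    (R S' : Finset (Finset (Lit n))) (c c' : Finset (Lit n)) (hcc : c' ⊆ c) :
    Psic (fun a : Om n m g => Fal a.1) (pr h) b t y R S' c ≤
      ∑ a with c' ∈ Fal a, wy h b t y R S' a := by
  classical
  rw [Finset.sum_filter, sum_om (m := m) (g := g) (fun a => if c' ∈ Fal a then
    wy h b t y R S' a else 0) (fun a ha => by rw [wy_off h b t y R S' a ha, ite_self])]
  unfold Psic
  rw [Finset.sum_filter]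
  refine Finset.sum_le_sum fun a _ => ?_
  split_ifs with h1 h2 h2
  · rw [wy_om, if_pos ⟨h1.1, h1.2.1⟩]
  · exfalso
    apply h2
    have h3 := h1.2.2
    simp only [Fal, mem_filter, mem_univ, true_and] at h3 ⊢
    rintro ⟨x, hx, hax⟩
    exact h3 ⟨x, hcc hx, hax⟩
  · exact wy_nonneg _ _ _ _ _ _ _
  · exact le_rfl

theorem heavy_count {n m g k : ℕ} (h : m + g ≤ n) (hk : 2 ≤ k) (b t κ C' ψ : ℝ)
    (hb : 0 ≤ b) (ht : 0 < t)
    (R S' Rn : Finset (Finset (Lit n))) (hRn : Rn ⊆ one n k m g)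
    (hnl : ∀ c ∈ Rn, ∃ y, κ * Psi (fun a : Om n m g => Fal a.1) (pr h) b t y R S' <
      Psic (fun a : Om n m g => Fal a.1) (pr h) b t y R S' c)
    (hψ : ∀ y, ψ ≤ Psi (fun a : Om n m g => Fal a.1) (pr h) b t y R S')
    (h6 : ∀ (w : (Fin n → Bool) → ℝ) (z : Fin n → Bool),
      (∀ a, 0 ≤ w a) → (∀ a, w a ≤ 1) → (∀ a, w a ≠ 0 → ∀ i : Fin n, m ≤ (i : ℕ) → a i = z i) →
      ψ ≤ ∑ a, w a →
      (#((below n (k - 1) m).filter
        (fun c => κ * ∑ a, w a ≤ ∑ a with c ∈ Fal a, w a)) : ℝ) ≤ κ * C')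
    (h7 : ∀ (Hv : Finset (Finset (Lit n))),
      #((one n k m g).filter (fun c => c.filter (fun x => (x.1 : ℕ) < m) ∈ Hv)) ≤
        2 * g * #(Hv ∩ below n (k - 1) m)) :
    (#Rn : ℝ) ≤ 2 ^ g * (2 * g) * κ * C' := by
  classical
  set Hy : (Fin g → Bool) → Finset (Finset (Lit n)) := fun y =>
    (below n (k - 1) m).filter (fun c => κ * ∑ a, wy h b t y R S' a ≤
      ∑ a with c ∈ Fal a, wy h b t y R S' a) with hHy
  have h1 : ∀ y, (#(Hy y) : ℝ) ≤ κ * C' := by
    intro y
    apply h6 (wy h b t y R S') (fun i => if hb : m ≤ (i : ℕ) ∧ (i : ℕ) < m + g then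
      y ⟨i - m, by omega⟩ else false) (wy_nonneg _ _ _ _ _ _) (wy_le _ _ _ hb ht _ _ _)
    · intro a ha i hi
      rw [wy_ne h b t y R S' a ha i hi]
      by_cases hb : (i : ℕ) < m + g
      · rw [dif_pos hb, dif_pos ⟨hi, hb⟩]
      · rw [dif_neg hb, dif_neg (fun h' => hb h'.2)]
    · rw [sum_wy]
      exact hψ y
  have h2 : Rn ⊆ (one n k m g).filter (fun c => c.filter (fun x => (x.1 : ℕ) < m) ∈
      univ.biUnion Hy) := by
    intro c hc
    rw [mem_filter]
    refine ⟨hRn hc, ?_⟩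
    rw [mem_biUnion]
    obtain ⟨y, hy⟩ := hnl c hc
    refine ⟨y, mem_univ _, ?_⟩
    rw [hHy]
    simp only [mem_filter]
    constructor
    · have h3 := hRn hc
      simp only [one, below, board, mem_filter, mem_powersetCard] at h3 ⊢
      obtain ⟨⟨⟨⟨_, h4⟩, h5⟩, h6'⟩, h7'⟩ := h3
      refine ⟨⟨⟨subset_univ _, ?_⟩, ?_⟩, ?_⟩
      · have h8 := Finset.card_filter_add_card_filter_not (s := c) (fun x => (x.1 : ℕ) < m)
        have h9 : c.filter (fun x => ¬ (x.1 : ℕ) < m) = c.filter (fun x => m ≤ (x.1 : ℕ)) := by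
          apply Finset.filter_congr
          intro x _
          exact not_lt
        rw [h9, h7', h4] at h8
        omega
      · intro x hx x' hx' hxx
        exact h5 x hx.1 x' hx'.1 hxx
      · intro x hx
        exact hx.2
    · rw [sum_wy]
      exact hy.le.trans (psic_le h b t y R S' c _ (filter_subset _ _))
  have h3 : (#Rn : ℝ) ≤ 2 * g * #(univ.biUnion Hy) := by
    have h4 : #Rn ≤ 2 * g * #(univ.biUnion Hy) :=
      (card_le_card h2).trans ((h7 _).trans (Nat.mul_le_mul_left _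
        (card_le_card inter_subset_left)))
    exact_mod_cast h4
  have h4 : (#(univ.biUnion Hy) : ℝ) ≤ 2 ^ g * (κ * C') := by
    have h5 : (#(univ.biUnion Hy) : ℝ) ≤ ∑ y : Fin g → Bool, (#(Hy y) : ℝ) := by
      exact_mod_cast Finset.card_biUnion_le
    refine h5.trans ?_
    have h6' := Finset.sum_le_card_nsmul (univ : Finset (Fin g → Bool))
      (fun y => (#(Hy y) : ℝ)) (κ * C') (fun y _ => h1 y)
    rw [nsmul_eq_mul, Finset.card_univ, Fintype.card_fun, Fintype.card_bool,
      Fintype.card_fin] at h6'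
    push_cast at h6'
    exact h6'
  calc (#Rn : ℝ) ≤ 2 * g * #(univ.biUnion Hy) := h3
    _ ≤ 2 * g * (2 ^ g * (κ * C')) := mul_le_mul_of_nonneg_left h4 (by positivity)
    _ = _ := by ring


theorem batch_of (h2 : St_Light) (h6 : St_Heavy) (h7 : St_BCount) (h8 : St_Param) :
    St_Batch := by
  classical
  intro g e c0 hg he he1 hc0
  obtain ⟨K8, hK8, hJ⟩ := h8 g e hg he he1
  obtain ⟨K6, hm6⟩ := h6 (2 ^ g + 3) c0 hc0
  refine ⟨max K8 (max (K6 + 1) 3), fun k hk => ?_⟩
  have hk8 : K8 ≤ k := by omega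
  have hk6 : K6 ≤ k - 1 := by omega
  have hk3 : 3 ≤ k := by omega
  obtain ⟨J, hP1, hP2, hP3⟩ := hJ k hk8
  obtain ⟨m6, h6'⟩ := hm6 (k - 1) hk6
  obtain ⟨mτ, hmτ⟩ := exists_nat_ge (36 * ((2 : ℝ) ^ g) ^ 2 / (e / 2 ^ k) ^ 2)
  refine ⟨max m6 (max mτ (2 ^ (k + 1) * g ^ 2)), ?_⟩
  intro n m q s s' hm0 hmg hq1 hq2 hq3 hexp hs' hPos
  set κ : ℝ := 1 / ((k - 1 : ℕ) : ℝ) ^ (2 ^ g + 3) with hκ
  have hk1 : (2 : ℝ) ≤ ((k - 1 : ℕ) : ℝ) := by
    have : 2 ≤ k - 1 := by omega
    exact_mod_cast this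
  have hκ0 : 0 < κ := by positivity
  have hκ2 : κ ≤ 1 / 2 := by
    apply one_div_le_one_div_of_le (by norm_num)
    calc (2 : ℝ) ≤ ((k - 1 : ℕ) : ℝ) := hk1
      _ ≤ ((k - 1 : ℕ) : ℝ) ^ (2 ^ g + 3) := le_self_pow₀ (by linarith) (by positivity)
  have hτ0 : 0 < e / 2 ^ k := by positivity
  have hτ6 : e / 2 ^ k ≤ 1 / 6 := by
    have : e / 2 ^ k ≤ e := div_le_self he.le (one_le_pow₀ (by norm_num))
    linarith
  have ht0 : 0 < (q : ℝ) + 1 := by positivity
  have hm6' : m6 ≤ m := le_trans (le_max_left _ _) hm0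
  have hmτ' : 36 * ((2 : ℝ) ^ g) ^ 2 / (e / 2 ^ k) ^ 2 ≤ (q : ℝ) + 1 := by
    refine hmτ.trans (le_trans ?_ hq2)
    exact_mod_cast (le_max_left _ _).trans (le_max_right _ _)
  have h2k : (2 : ℝ) ^ (k + 1) * g ^ 2 * (n.choose (k - 2) : ℝ) ≤ (q : ℝ) + 1 := by
    refine le_trans ?_ hq3
    apply mul_le_mul_of_nonneg_right _ (Nat.cast_nonneg _)
    have : (2 ^ (k + 1) * g ^ 2 : ℕ) ≤ max m6 (max mτ (2 ^ (k + 1) * g ^ 2)) :=
      (le_max_right _ _).trans (le_max_right _ _)
    exact_mod_cast this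
  set C' : ℝ := (m.choose (k - 1) : ℝ) with hC'
  have hC0 : 0 ≤ C' := Nat.cast_nonneg _
  have hCk : C' ≤ k * ((q : ℝ) + 1) := by
    refine le_trans ?_ hq1
    rw [hC']
    exact_mod_cast Nat.choose_le_choose (k - 1) (show m ≤ n by omega)
  set ψ : ℝ := s * Real.exp (-((1 + 10 * e) * (g * C') / ((q : ℝ) + 1) + e * g)) with hψ
  have hψ0 : 0 < ψ := (Real.exp_pos _).trans_le hexp
  have hs0 : 0 < s := by
    by_contra hcon
    push Not at hcon
    have : ψ ≤ 0 := mul_nonpos_of_nonpos_of_nonneg hcon (Real.exp_pos _).le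
    linarith
  have hcardY : Fintype.card (Fin g → Bool) = 2 ^ g := by
    rw [Fintype.card_fun, Fintype.card_bool, Fintype.card_fin]
  obtain ⟨h7a, h7b, h7c, h7d⟩ := h7 n k m g (by omega) hmg
  intro S hS hsS
  rw [split_above n k m g]
  apply h2 (Finset (Lit n)) (Om n m g) (Fin g → Bool) (fun a => Fal a.1) (pr hmg) Unsat q J e
    (e / 2 ^ k) κ (g * C') (one n k m g) (above n k m \ one n k m g) S he he1 hτ0 hτ6 hP1 hκ0 hκ2
    (by rw [hcardY]; push_cast; exact hmτ')
    (by
      intro a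
      rw [hC']
      exact_mod_cast h7b a.1)
    disjoint_sdiff
  intro R S' hR hSS' hS'U hpsi hlight
  -- the potentials at the end
  have hψy : ∀ y, ψ ≤ Psi (fun a : Om n m g => Fal a.1) (pr hmg) (1 + 4 * e) ((q : ℝ) + 1) y
      R S' := by
    intro y
    refine le_trans ?_ (hpsi y)
    have e1 : ψ = Real.exp (-(6 * e * (g * C') / ((q : ℝ) + 1) + e * g)) *
        (s * Real.exp (-((1 + 4 * e) * (g * C') / ((q : ℝ) + 1)))) := by
      have e2 : Real.exp (-((1 + 10 * e) * (g * C') / ((q : ℝ) + 1) + e * g)) =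
          Real.exp (-(6 * e * (g * C') / ((q : ℝ) + 1) + e * g)) *
            Real.exp (-((1 + 4 * e) * (g * C') / ((q : ℝ) + 1))) := by
        rw [← Real.exp_add]
        congr 1
        ring
      rw [hψ, e2]
      ring
    rw [e1]
    apply mul_le_mul _ _ (by positivity) (Real.exp_pos _).le
    · apply Real.exp_le_exp.mpr
      apply neg_le_neg
      apply add_le_add
      · apply div_le_div_of_nonneg_right _ ht0.le
        have h1 : (#(one n k m g) : ℝ) ≤ 2 ^ k * (g * C') := by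
          rw [hC']
          exact_mod_cast h7a
        calc 6 * (e / 2 ^ k) * (#(one n k m g) : ℝ)
            ≤ 6 * (e / 2 ^ k) * (2 ^ k * (g * C')) :=
              mul_le_mul_of_nonneg_left h1 (by positivity)
          _ = 6 * e * (g * C') := by
              field_simp
      · refine le_trans ?_ hP2
        rw [hcardY]
        apply mul_le_mul_of_nonneg_left _ (by positivity)
        apply mul_le_mul_of_nonneg_left _ (by positivity)
        apply add_le_add_right
        apply mul_le_mul_of_nonneg_left _ (by positivity)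
        rw [div_le_iff₀ ht0]
        calc (g : ℝ) * C' ≤ g * (k * ((q : ℝ) + 1)) :=
              mul_le_mul_of_nonneg_left hCk (Nat.cast_nonneg _)
          _ = _ := by ring
    · refine le_trans ?_ (psi_low hmg (1 + 4 * e) ((q : ℝ) + 1) (g * C') (by positivity) ht0 y
        (one n k m g) S hS (by
          intro a
          rw [hC']
          exact_mod_cast h7b a.1))
      exact mul_le_mul_of_nonneg_right hsS (Real.exp_pos _).le
  -- few clauses are not light
  set Lt : Finset (Lit n) → Prop := fun c =>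
    Light (fun a : Om n m g => Fal a.1) (pr hmg) (1 + 4 * e) ((q : ℝ) + 1) κ R S' c with hLt
  have hnl := heavy_count hmg (k := k) (by omega) (1 + 4 * e) ((q : ℝ) + 1) κ C' ψ (by positivity)
    ht0 R S' (R.filter (fun c => ¬ Lt c)) ((filter_subset _ _).trans hR)
    (by
      intro c hc
      have h3 := (mem_filter.mp hc).2
      rw [hLt] at h3
      unfold Light at h3
      push Not at h3
      exact h3)
    hψy
    (fun w z g1 g2 g3 g4 => h6' m hm6' n (by omega) w z g1 g2 g3 (hexp.trans g4))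
    h7d
  have hnl2 : (#(R.filter (fun c => ¬ Lt c)) : ℝ) ≤ 1 / 4 * ((q : ℝ) + 1) := by
    refine hnl.trans ?_
    calc 2 ^ g * (2 * (g : ℝ)) * κ * C' ≤ 2 ^ g * (2 * (g : ℝ)) * κ * (k * ((q : ℝ) + 1)) :=
          mul_le_mul_of_nonneg_left hCk (by positivity)
      _ = (2 ^ g * (2 * (g : ℝ)) * κ * k) * ((q : ℝ) + 1) := by ring
      _ ≤ 1 / 4 * ((q : ℝ) + 1) := mul_le_mul_of_nonneg_right hP3 ht0.le
  have hl2 : (#(R.filter (fun c => Lt c)) : ℝ) ≤ 1 / 4 * ((q : ℝ) + 1) := by
    have h3 : 4 * #(R.filter (fun c => Lt c)) ≤ q + 1 := by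
      convert hlight using 3
    have h4 : 4 * (#(R.filter (fun c => Lt c)) : ℝ) ≤ (q : ℝ) + 1 := by exact_mod_cast h3
    linarith
  have hRc : (#R : ℝ) ≤ 1 / 2 * ((q : ℝ) + 1) := by
    have h3 := Finset.card_filter_add_card_filter_not (s := R) (fun c => Lt c)
    have h4 : (#(R.filter (fun c => Lt c)) : ℝ) + #(R.filter (fun c => ¬ Lt c)) = #R := by
      exact_mod_cast h3
    linarith
  have h2c : (#(two n k m g) : ℝ) ≤ 1 / 2 * ((q : ℝ) + 1) := by
    have h3 : (#(two n k m g) : ℝ) ≤ 2 ^ k * (g ^ 2 * ((m + g).choose (k - 2) : ℝ)) := by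
      exact_mod_cast h7c
    have h4 : ((m + g).choose (k - 2) : ℝ) ≤ (n.choose (k - 2) : ℝ) := by
      exact_mod_cast Nat.choose_le_choose (k - 2) hmg
    have h5 : (2 : ℝ) ^ k * (g ^ 2 * ((m + g).choose (k - 2) : ℝ)) ≤
        2 ^ k * (g ^ 2 * (n.choose (k - 2) : ℝ)) :=
      mul_le_mul_of_nonneg_left (mul_le_mul_of_nonneg_left h4 (by positivity)) (by positivity)
    have h6 : (2 : ℝ) ^ (k + 1) * g ^ 2 * (n.choose (k - 2) : ℝ) =
        2 * (2 ^ k * (g ^ 2 * (n.choose (k - 2) : ℝ))) := by ring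
    linarith
  have hTc : #(R ∪ two n k m g) ≤ q + 1 := by
    have h3 : #(R ∪ two n k m g) ≤ #R + #(two n k m g) := card_union_le _ _
    have h4 : ((#R + #(two n k m g) : ℕ) : ℝ) ≤ ((q + 1 : ℕ) : ℝ) := by
      push_cast
      linarith
    exact h3.trans (by exact_mod_cast h4)
  have hvar : ∀ c ∈ S', ∀ x ∈ c, (x.1 : ℕ) < m + g := by
    intro c hc x hx
    rcases mem_union.mp (hS'U hc) with h | h
    · have := hS c h x hx
      omega
    · simp only [one, below, mem_filter] at h
      exact h.1.2 x hx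
  rw [decomp n k m g R]
  by_cases hT : (R ∪ two n k m g).Nonempty
  · refine CWWaiter.step _ _ (R ∪ two n k m g) subset_union_left hT hTc ?_
    intro c hc
    rw [sdiff_above n k m g R hR]
    have hc2 : (∀ x ∈ c, (x.1 : ℕ) < m + g) ∧ 0 < #(c.filter (fun x => m ≤ (x.1 : ℕ))) := by
      rcases mem_union.mp hc with h | h
      · have h' := hR h
        simp only [one, below, mem_filter] at h'
        exact ⟨h'.1.2, by omega⟩
      · simp only [two, below, mem_filter] at h
        exact ⟨h.1.2, by omega⟩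
    obtain ⟨x, hx⟩ := Finset.card_pos.mp hc2.2
    rw [mem_filter] at hx
    have hxlt := hc2.1 x hx.1
    apply hPos
    · intro c' hc' x' hx'
      rcases mem_insert.mp hc' with h | h
      · rw [h] at hx'
        exact hc2.1 x' hx'
      · exact hvar c' h x' hx'
    · have h3 := alive_ge hmg (1 + 4 * e) ((q : ℝ) + 1) ψ (by positivity) ht0 R S' (insert c S')
        (univ.filter (fun y : Fin g → Bool => y ⟨x.1 - m, by omega⟩ = x.2)) hψy (by
          intro a ha hsat c' hc'
          rcases mem_insert.mp hc' with h | h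
          · rw [h]
            refine ⟨x, hx.1, ?_⟩
            simp only [mem_filter, mem_univ, true_and, pr] at ha
            have hidx : (⟨m + ((x.1 : ℕ) - m), by omega⟩ : Fin n) = x.1 :=
              Fin.ext (show m + ((x.1 : ℕ) - m) = (x.1 : ℕ) by omega)
            rw [hidx] at ha
            exact ha
          · exact hsat c' h)
      rw [half hg] at h3
      refine hs'.trans ?_
      push_cast at h3
      exact h3
  · rw [not_nonempty_iff_eq_empty] at hT
    rw [hT, empty_union]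
    apply hPos S' hvar
    have h3 := alive_ge hmg (1 + 4 * e) ((q : ℝ) + 1) ψ (by positivity) ht0 R S' S' univ hψy
      (fun a _ hsat => hsat)
    rw [Finset.card_univ, hcardY] at h3
    push_cast at h3
    have h4 : (2 : ℝ) ^ (g - 1) * ψ ≤ 2 ^ g * ψ :=
      mul_le_mul_of_nonneg_right (pow_le_pow_right₀ (by norm_num) (by omega)) hψ0.le
    exact hs'.trans (h4.trans h3)

end Pool.Agent.R982.KS.Batch
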