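import Pool.Agent.R982.KS.Defs2

/-!
# KT-9: choice of the parameters (MP_fefad7_co)
-/

open Finset

namespace Pool.Agent.R982.KS.CWbig

open Pool.Agent.R982.KS

lemma ch_add (m g j : ℕ) : m.choose (j + 1) + g * m.choose j ≤ (m + g).choose (j + 1) := by
  induction g with
  | zero => simp
  | succ g ih =>
    have h1 : (m + (g + 1)).choose (j + 1) = (m + g).choose j + (m + g).choose (j + 1) := by
      rw [← add_assoc, Nat.choose_succ_succ]
    have h2 : m.choose j ≤ (m + g).choose j := Nat.choose_le_choose j (Nat.le_add_right m g)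
    have h3 : (g + 1) * m.choose j = g * m.choose j + m.choose j := by ring
    rw [h1, h3]
    omega

lemma ch_ratio {m n j : ℕ} (h : m ≤ n) : n * m.choose (j + 1) ≤ m * n.choose (j + 1) := by
  rcases m with _ | m
  · simp
  obtain ⟨n, rfl⟩ : ∃ n', n = n' + 1 := ⟨n - 1, by omega⟩
  have h1 := Nat.add_one_mul_choose_eq m j
  have h2 := Nat.add_one_mul_choose_eq n j
  have h3 : m.choose j ≤ n.choose j := Nat.choose_le_choose j (by omega)
  have h4 : (n + 1) * (m + 1).choose (j + 1) * (j + 1) ≤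
      (m + 1) * (n + 1).choose (j + 1) * (j + 1) := by
    calc (n + 1) * (m + 1).choose (j + 1) * (j + 1) = (n + 1) * ((m + 1) * m.choose j) := by
          rw [h1]; ring
      _ ≤ (n + 1) * ((m + 1) * n.choose j) := by gcongr
      _ = (m + 1) * (n + 1).choose (j + 1) * (j + 1) := by rw [mul_left_comm, h2]; ring
  exact Nat.le_of_mul_le_mul_right h4 (Nat.succ_pos j)

theorem cwbig_of (h8 : St_Batch) (h9 : St_Iter) : St_CWbig := by
  intro ε hε hε1
  set e : ℝ := ε / 100 with he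
  set g : ℕ := ⌈8 / ε⌉₊ with hg
  set L : ℝ := Real.log 2 with hL
  have hL1 : 0.69 < L := by have := Real.log_two_gt_d9; linarith
  have hL2 : L < 0.7 := by have := Real.log_two_lt_d9; linarith
  have hL0 : 0 < L := by linarith
  have hgε : 8 / ε ≤ (g : ℝ) := Nat.le_ceil _
  have hg8 : (8 : ℝ) ≤ g := le_trans (by rw [le_div_iff₀ hε]; nlinarith) hgε
  have hgpos : (0 : ℝ) < g := by linarith
  have hg1 : 1 ≤ g := by exact_mod_cast (by linarith : (1 : ℝ) ≤ g)
  have hinv : 1 / (g : ℝ) ≤ ε / 8 := by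
    rw [div_le_div_iff₀ hgpos (by norm_num)]
    rw [div_le_iff₀ hε] at hgε
    linarith
  obtain ⟨K0, hK0⟩ := h8 g e (ε / 20) hg1 (by positivity) (by rw [he]; linarith) (by positivity)
  refine ⟨max K0 3, fun k hk => ?_⟩
  obtain ⟨m0, hm0⟩ := hK0 k (le_trans (le_max_left _ _) hk)
  have hk3 : 3 ≤ k := le_trans (le_max_right _ _) hk
  obtain ⟨j, rfl⟩ : ∃ j, k = j + 2 := ⟨k - 2, by omega⟩
  set M1 : ℕ := ⌈20 * (g : ℝ) / ε⌉₊ with hM1
  set Lb : ℕ := max (max M1 m0) 1 with hLb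
  set B : ℕ := 2 ^ (j + 2) * (Lb + g).choose (j + 2) with hB
  refine ⟨(m0 + B + 4) * (j + 2) ^ 2 + 4 * (j + 2) + Lb + g + (j + 2), fun n hn q hq => ?_⟩
  set t : ℝ := (q : ℝ) + 1 with ht
  have ht0 : 0 < t := by positivity
  have hn4 : 4 * (j + 2) ≤ n := by omega
  have hnLb : Lb + g ≤ n := by omega
  have hnbig : (m0 + B) * (j + 2) ^ 2 + j ≤ n := by
    have h1 : (m0 + B + 4) * (j + 2) ^ 2 = (m0 + B) * (j + 2) ^ 2 + 4 * (j + 2) ^ 2 := by ring
    omega
  have hnpos : (0 : ℝ) < n := by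
    have : 0 < n := by omega
    exact_mod_cast this
  set C2 : ℝ := (n.choose (j + 2) : ℝ) with hC2
  set C1 : ℝ := (n.choose (j + 1) : ℝ) with hC1
  set C0 : ℝ := (n.choose j : ℝ) with hC0
  have c1 : C2 * ((j : ℝ) + 2) = C1 * ((n : ℝ) - (j + 1)) := by
    have h1 := Nat.choose_succ_right_eq n (j + 1)
    have h2 := congrArg (Nat.cast (R := ℝ)) h1
    rw [Nat.cast_mul, Nat.cast_mul, Nat.cast_sub (by omega)] at h2
    push_cast at h2
    rw [hC2, hC1]
    have h3 : ((j : ℝ) + 1 + 1) = (j : ℝ) + 2 := by ring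
    rw [h3] at h2
    exact h2
  have c0 : C1 * ((j : ℝ) + 1) = C0 * ((n : ℝ) - j) := by
    have h1 := Nat.choose_succ_right_eq n j
    have h2 := congrArg (Nat.cast (R := ℝ)) h1
    rw [Nat.cast_mul, Nat.cast_mul, Nat.cast_sub (by omega)] at h2
    push_cast at h2
    exact h2
  have hC2' : 0 ≤ C2 := Nat.cast_nonneg _
  have hC1' : 0 ≤ C1 := Nat.cast_nonneg _
  have hC0' : 1 ≤ C0 := by
    have : 1 ≤ n.choose j := Nat.choose_pos (by omega)
    rw [hC0]
    exact_mod_cast this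
  have hj0 : (0 : ℝ) ≤ j := Nat.cast_nonneg j
  -- (a)
  have ha : C1 ≤ ((j : ℝ) + 2) * t := by
    have h1 : (n : ℝ) * L ≤ (n : ℝ) - (j + 1) := by
      have h2 : (4 : ℝ) * ((j : ℝ) + 2) ≤ n := by exact_mod_cast hn4
      have h3 : (n : ℝ) * L ≤ n * 0.7 := mul_le_mul_of_nonneg_left hL2.le hnpos.le
      linarith
    have hnL : 0 < (n : ℝ) * L := mul_pos hnpos hL0
    have h2 : C1 * ((n : ℝ) * L) ≤ ((j : ℝ) + 2) * t * ((n : ℝ) * L) := by
      calc C1 * ((n : ℝ) * L) ≤ C1 * ((n : ℝ) - (j + 1)) := mul_le_mul_of_nonneg_left h1 hC1'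
        _ = C2 * ((j : ℝ) + 2) := c1.symm
        _ ≤ ((1 + ε) * C2) * ((j : ℝ) + 2) := by
            apply mul_le_mul_of_nonneg_right _ (by linarith)
            nlinarith
        _ ≤ (t * ((n : ℝ) * L)) * ((j : ℝ) + 2) :=
            mul_le_mul_of_nonneg_right hq (by linarith)
        _ = ((j : ℝ) + 2) * t * ((n : ℝ) * L) := by ring
    exact le_of_mul_le_mul_right h2 hnL
  -- (b)
  have hb : ((m0 : ℝ) + B) * C0 ≤ t := by
    have h1 : ((m0 : ℝ) + B) * ((j : ℝ) + 2) ^ 2 ≤ (n : ℝ) - j := by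
      have h2 : ((m0 : ℝ) + B) * ((j : ℝ) + 2) ^ 2 + j ≤ n := by exact_mod_cast hnbig
      linarith
    have hmB : 0 ≤ (m0 : ℝ) + B := by positivity
    have h2 : ((m0 : ℝ) + B) * C0 * (((j : ℝ) + 2) * ((j : ℝ) + 1)) ≤
        t * (((j : ℝ) + 2) * ((j : ℝ) + 1)) := by
      calc ((m0 : ℝ) + B) * C0 * (((j : ℝ) + 2) * ((j : ℝ) + 1))
          ≤ ((m0 : ℝ) + B) * C0 * (((j : ℝ) + 2) ^ 2) := by
            apply mul_le_mul_of_nonneg_left _ (by positivity)
            nlinarith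
        _ = C0 * (((m0 : ℝ) + B) * ((j : ℝ) + 2) ^ 2) := by ring
        _ ≤ C0 * ((n : ℝ) - j) := mul_le_mul_of_nonneg_left h1 (by linarith)
        _ = C1 * ((j : ℝ) + 1) := c0.symm
        _ ≤ (((j : ℝ) + 2) * t) * ((j : ℝ) + 1) := mul_le_mul_of_nonneg_right ha (by linarith)
        _ = t * (((j : ℝ) + 2) * ((j : ℝ) + 1)) := by ring
    exact le_of_mul_le_mul_right h2 (by positivity)
  have hm0r : (0 : ℝ) ≤ m0 := Nat.cast_nonneg _
  have hBr : (0 : ℝ) ≤ B := Nat.cast_nonneg _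
  have hb1 : (m0 : ℝ) * C0 ≤ t := by nlinarith
  have hb2 : (m0 : ℝ) ≤ t := by nlinarith
  have hb3 : (B : ℝ) ≤ t := by nlinarith
  have hb4 : B ≤ q + 1 := by
    rw [ht] at hb3
    exact_mod_cast hb3
  -- the starting point
  set M : ℕ := Lb + (n - Lb) % g with hM
  have hmod : (n - Lb) % g < g := Nat.mod_lt _ (by omega)
  have hdm := Nat.div_add_mod (n - Lb) g
  have hLb1 : 1 ≤ Lb := le_max_right _ _
  have hLbm : m0 ≤ Lb := le_trans (le_max_right _ _) (le_max_left _ _)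
  have hLbM : M1 ≤ Lb := le_trans (le_max_left _ _) (le_max_left _ _)
  set σ : ℕ → ℝ := fun m => Real.exp ((m : ℝ) * ((1 - 1 / (g : ℝ)) * L - e) -
    (1 + 10 * e) * (m.choose (j + 2) : ℝ) / t - L) with hσ
  have he0 : 0 < e := by positivity
  have hdvd : g ∣ n - M := ⟨(n - Lb) / g, by
    have : n - M = (n - Lb) - (n - Lb) % g := by omega
    rw [this]
    omega⟩
  have hMT : 2 ^ (j + 2) * M.choose (j + 2) ≤ q + 1 := by
    refine le_trans ?_ hb4
    rw [hB]
    exact Nat.mul_le_mul_left _ (Nat.choose_le_choose _ (by omega))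
  have h2pow : ∀ a : ℕ, 1 ≤ a → (2 : ℝ) ^ (a - 1) = Real.exp (((a : ℝ) - 1) * L) := by
    intro a ha
    have h1 : ((a : ℝ) - 1) = ((a - 1 : ℕ) : ℝ) := by
      rw [Nat.cast_sub ha]
      simp
    rw [h1, Real.exp_nat_mul, hL, Real.exp_log (by norm_num)]
  refine h9 n (j + 2) q g M σ hg1 (by omega) (by omega) (by omega) hdvd hMT ?_
    (Real.exp_pos _) ?_
  · have hM1' : 1 ≤ M := by omega
    rw [h2pow M hM1']
    apply Real.exp_le_exp.2
    have h1 : 0 ≤ (1 + 10 * e) * (M.choose (j + 2) : ℝ) / t := by positivity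
    have h2 : 0 ≤ (M : ℝ) * (1 / (g : ℝ) * L) := by positivity
    have h3 : 0 ≤ (M : ℝ) * e := by positivity
    have h4 : (M : ℝ) * ((1 - 1 / (g : ℝ)) * L - e) = M * L - M * (1 / (g : ℝ) * L) - M * e := by
      ring
    have h5 : ((M : ℝ) - 1) * L = M * L - L := by ring
    rw [h4, h5]
    linarith
  · intro m hm hmg
    have hX1 := ch_add m g (j + 1)
    have hX2 := ch_ratio (m := m + g) (n := n) (j := j + 1) hmg
    set X : ℝ := (m.choose (j + 2) : ℝ) + g * (m.choose (j + 1) : ℝ) with hX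
    set Y : ℝ := ((m + g).choose (j + 2) : ℝ) with hY
    have hXY : X ≤ Y := by
      rw [hX, hY]
      exact_mod_cast hX1
    have hYn : (n : ℝ) * Y ≤ ((m : ℝ) + g) * C2 := by
      rw [hY, hC2]
      exact_mod_cast hX2
    have hX0 : 0 ≤ X := by rw [hX]; positivity
    have hmr : (0 : ℝ) ≤ m := Nat.cast_nonneg m
    refine hm0 n m q (σ m) (σ (m + g)) (by omega) hmg ?_ hb2 hb1 ?_ ?_
    · show C1 ≤ ((j + 2 : ℕ) : ℝ) * t
      push_cast
      exact ha
    · show Real.exp (ε / 20 * m) ≤ Real.exp ((m : ℝ) * ((1 - 1 / (g : ℝ)) * L - e) -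
        (1 + 10 * e) * (m.choose (j + 2) : ℝ) / t - L) *
        Real.exp (-((1 + 10 * e) * (g * (m.choose (j + 1) : ℝ)) / t + e * g))
      rw [← Real.exp_add]
      apply Real.exp_le_exp.2
      -- the bound of X / t
      have h1 : (1 + ε) * X ≤ ((m : ℝ) + g) * (t * L) := by
        have h2 : (1 + ε) * X * n ≤ ((m : ℝ) + g) * (t * L) * n := by
          calc (1 + ε) * X * n ≤ (1 + ε) * Y * n := by gcongr
            _ = (1 + ε) * (n * Y) := by ring
            _ ≤ (1 + ε) * (((m : ℝ) + g) * C2) := by gcongr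
            _ = ((m : ℝ) + g) * ((1 + ε) * C2) := by ring
            _ ≤ ((m : ℝ) + g) * (t * (n * L)) := by gcongr
            _ = ((m : ℝ) + g) * (t * L) * n := by ring
        exact le_of_mul_le_mul_right h2 hnpos
      have h3 : (1 + 10 * e) * X / t ≤ (1 - 9 * ε / 20) * (((m : ℝ) + g) * L) := by
        rw [div_le_iff₀ ht0]
        have h4 : (1 + 10 * e) ≤ (1 - 9 * ε / 20) * (1 + ε) := by
          rw [he]
          nlinarith
        have h5 : 0 ≤ 1 - 9 * ε / 20 := by linarith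
        calc (1 + 10 * e) * X ≤ ((1 - 9 * ε / 20) * (1 + ε)) * X :=
              mul_le_mul_of_nonneg_right h4 hX0
          _ = (1 - 9 * ε / 20) * ((1 + ε) * X) := by ring
          _ ≤ (1 - 9 * ε / 20) * (((m : ℝ) + g) * (t * L)) := mul_le_mul_of_nonneg_left h1 h5
          _ = (1 - 9 * ε / 20) * (((m : ℝ) + g) * L) * t := by ring
      set p : ℝ := ε * m with hp
      have hp20 : 20 * (g : ℝ) ≤ p := by
        have h4 : 20 * (g : ℝ) / ε ≤ m := by
          have h5 : (M1 : ℝ) ≤ m := by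
            have : M1 ≤ m := by omega
            exact_mod_cast this
          exact (Nat.le_ceil _).trans h5
        rw [div_le_iff₀ hε] at h4
        rw [hp]
        linarith
      have hp0 : 0 ≤ p := by rw [hp]; positivity
      have hpL : 0.69 * p ≤ p * L := by nlinarith
      have hgL : (g : ℝ) * L ≤ 0.7 * g := by nlinarith
      have h6 : (m : ℝ) * (1 / (g : ℝ)) * L ≤ p / 8 * L := by
        apply mul_le_mul_of_nonneg_right _ hL0.le
        calc (m : ℝ) * (1 / (g : ℝ)) ≤ m * (ε / 8) := mul_le_mul_of_nonneg_left hinv hmr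
          _ = p / 8 := by rw [hp]; ring
      have h7 : (1 - 9 * ε / 20) * (((m : ℝ) + g) * L) =
          m * L + g * L - 9 / 20 * (p * L) - 9 / 20 * (ε * (g * L)) := by
        rw [hp]
        ring
      have h8' : 0 ≤ ε * (g * L) := by positivity
      have h9' : ε * (g : ℝ) ≤ g := by nlinarith
      have e1 : (m : ℝ) * ((1 - 1 / (g : ℝ)) * L - e) =
          m * L - m * (1 / (g : ℝ)) * L - p / 100 := by
        rw [he, hp]
        ring
      have e2 : (1 + 10 * e) * (m.choose (j + 2) : ℝ) / t +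
          (1 + 10 * e) * (g * (m.choose (j + 1) : ℝ)) / t = (1 + 10 * e) * X / t := by
        rw [hX]
        ring
      have e3 : ε / 20 * m = p / 20 := by rw [hp]; ring
      have e4 : e * (g : ℝ) = ε * g / 100 := by rw [he]; ring
      rw [e1, e3, e4]
      rw [h7] at h3
      linarith
    · show Real.exp (((m + g : ℕ) : ℝ) * ((1 - 1 / (g : ℝ)) * L - e) -
        (1 + 10 * e) * Y / t - L) ≤ 2 ^ (g - 1) *
        (Real.exp ((m : ℝ) * ((1 - 1 / (g : ℝ)) * L - e) -
        (1 + 10 * e) * (m.choose (j + 2) : ℝ) / t - L) *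
        Real.exp (-((1 + 10 * e) * (g * (m.choose (j + 1) : ℝ)) / t + e * g)))
      rw [h2pow g hg1, ← Real.exp_add, ← Real.exp_add]
      apply Real.exp_le_exp.2
      have h1 : (1 + 10 * e) * X / t ≤ (1 + 10 * e) * Y / t := by gcongr
      have e2 : (1 + 10 * e) * (m.choose (j + 2) : ℝ) / t +
          (1 + 10 * e) * (g * (m.choose (j + 1) : ℝ)) / t = (1 + 10 * e) * X / t := by
        rw [hX]
        ring
      have e5 : (g : ℝ) * (1 / (g : ℝ)) = 1 := by field_simp
      have e6 : ((m + g : ℕ) : ℝ) * ((1 - 1 / (g : ℝ)) * L - e) =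
          (m : ℝ) * ((1 - 1 / (g : ℝ)) * L - e) + g * L - L - e * g := by
        push_cast
        linear_combination (-L) * e5
      rw [e6]
      linarith

end Pool.Agent.R982.KS.CWbig
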