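import Pool.Agent.R982.KS.Defs

/-!
# KS-2: the potential of the Client-Waiter game
-/

set_option autoImplicit false

open Finset

namespace Pool.Agent.R982.KS.CWpot

theorem cwpot_ok : St_CWpot := by
  intro α Ω _ _ _ F q U S h
  have hq : (0 : ℝ) < (q : ℝ) + 1 := by positivity
  set ρ : ℝ := 1 - 1 / ((q : ℝ) + 1) with hρ
  have hq1 : 1 / ((q : ℝ) + 1) ≤ 1 := by
    rw [div_le_one hq]
    have : (0 : ℝ) ≤ q := Nat.cast_nonneg q
    linarith
  have hρ0 : 0 ≤ ρ := by rw [hρ]; linarith
  induction h with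
  | done S hS =>
    unfold Hit at hS
    push Not at hS
    obtain ⟨ω, hω⟩ := hS
    have hd : Disjoint (F ω) S := by
      rw [Finset.disjoint_left]
      intro c hc hcS
      exact hω c hcS hc
    calc (1 : ℝ) = ρ ^ #(F ω ∩ ∅) := by simp
      _ ≤ ∑ ω with Disjoint (F ω) S, ρ ^ #(F ω ∩ ∅) := by
          refine Finset.single_le_sum (f := fun ω => ρ ^ #(F ω ∩ ∅))
            (fun ω _ => pow_nonneg hρ0 _) ?_
          rw [Finset.mem_filter]
          exact ⟨Finset.mem_univ _, hd⟩
  | step U S X hXU hXne hXq _ ih =>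
    have hX0 : (0 : ℝ) < #X := by exact_mod_cast hXne.card_pos
    -- the sum over the elements of X
    have h1 : ∀ c ∈ X, (1 : ℝ) ≤ ∑ ω with Disjoint (F ω) S,
        (if c ∉ F ω then ρ ^ #(F ω ∩ (U \ X)) else 0) := by
      intro c hc
      refine (ih c hc).trans (le_of_eq ?_)
      rw [← Finset.sum_filter, Finset.filter_filter]
      refine Finset.sum_congr ?_ fun _ _ => rfl
      ext ω
      simp only [Finset.mem_filter, Finset.mem_univ, true_and, Finset.disjoint_insert_right]
      tauto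
    have h2 : (#X : ℝ) ≤ ∑ c ∈ X, ∑ ω with Disjoint (F ω) S,
        (if c ∉ F ω then ρ ^ #(F ω ∩ (U \ X)) else 0) := by
      calc (#X : ℝ) = ∑ _c ∈ X, (1 : ℝ) := by simp
        _ ≤ _ := Finset.sum_le_sum h1
    rw [Finset.sum_comm] at h2
    have h3 : ∀ ω, ∑ c ∈ X, (if c ∉ F ω then ρ ^ #(F ω ∩ (U \ X)) else 0) ≤
        (#X : ℝ) * ρ ^ #(F ω ∩ U) := by
      intro ω
      rw [← Finset.sum_filter, Finset.sum_const, nsmul_eq_mul]
      have e1 : #(X.filter fun c => c ∉ F ω) + #(F ω ∩ X) = #X := by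
        have h4 := Finset.card_filter_add_card_filter_not (s := X) (fun c => c ∈ F ω)
        have h5 : X.filter (fun c => c ∈ F ω) = F ω ∩ X := by
          ext c
          simp [and_comm]
        rw [h5] at h4
        omega
      have e2 : #(F ω ∩ U) = #(F ω ∩ X) + #(F ω ∩ (U \ X)) := by
        rw [← Finset.card_union_of_disjoint]
        · congr 1
          ext c
          simp only [Finset.mem_union, Finset.mem_inter, Finset.mem_sdiff]
          constructor
          · rintro ⟨h6, h7⟩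
            by_cases h8 : c ∈ X
            · exact Or.inl ⟨h6, h8⟩
            · exact Or.inr ⟨h6, h7, h8⟩
          · rintro (⟨h6, h7⟩ | ⟨h6, h7, h8⟩)
            · exact ⟨h6, hXU h7⟩
            · exact ⟨h6, h7⟩
        · rw [Finset.disjoint_left]
          intro c hc hc'
          rw [Finset.mem_inter] at hc hc'
          rw [Finset.mem_sdiff] at hc'
          exact hc'.2.2 hc.2
      set j := #(F ω ∩ X) with hj
      have hb : 1 + (j : ℝ) * (-(1 / ((q : ℝ) + 1))) ≤ (1 + -(1 / ((q : ℝ) + 1))) ^ j :=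
        one_add_mul_le_pow (by linarith) j
      have hb' : 1 - (j : ℝ) * (1 / ((q : ℝ) + 1)) ≤ ρ ^ j := by
        have e3 : ρ = 1 + -(1 / ((q : ℝ) + 1)) := by rw [hρ]; ring
        rw [e3]
        linarith
      have hXq' : (#X : ℝ) ≤ (q : ℝ) + 1 := by exact_mod_cast hXq
      have h6 : (#(X.filter fun c => c ∉ F ω) : ℝ) = #X - j := by
        have : (#(X.filter fun c => c ∉ F ω) : ℝ) + j = #X := by exact_mod_cast e1
        linarith
      have h7 : (#X : ℝ) - j ≤ #X * ρ ^ j := by
        have h8 : (#X : ℝ) * (1 - (j : ℝ) * (1 / ((q : ℝ) + 1))) ≤ #X * ρ ^ j :=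
          mul_le_mul_of_nonneg_left hb' hX0.le
        have h9 : (#X : ℝ) * (1 / ((q : ℝ) + 1)) ≤ 1 := by
          rw [mul_one_div, div_le_one hq]
          exact hXq'
        have h10 : (j : ℝ) * ((#X : ℝ) * (1 / ((q : ℝ) + 1))) ≤ j * 1 :=
          mul_le_mul_of_nonneg_left h9 (Nat.cast_nonneg j)
        nlinarith
      rw [h6, e2, pow_add, ← mul_assoc]
      exact mul_le_mul_of_nonneg_right h7 (pow_nonneg hρ0 _)
    have h4 : (#X : ℝ) ≤ #X * ∑ ω with Disjoint (F ω) S, ρ ^ #(F ω ∩ U) := by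
      refine h2.trans ?_
      rw [Finset.mul_sum]
      exact Finset.sum_le_sum fun ω _ => h3 ω
    by_contra hc
    push Not at hc
    have h5 := mul_lt_mul_of_pos_left hc hX0
    linarith

end Pool.Agent.R982.KS.CWpot
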