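import Pool.Agent.R982.KS.Defs

/-! KS-3: the explicit strategy of Waiter in the Client-Waiter game. -/

open Finset

namespace Pool.Agent.R982.KS.CWup

theorem claimA {n q : ℕ} (a : Fin n → Bool) (U : Finset (Finset (Lit n))) :
    ∀ S : Finset (Finset (Lit n)), (∀ c ∈ U, SatC a c) → (∀ c ∈ S, SatC a c) →
      CWWaiter Unsat q U S := by
  classical
  induction U using Finset.induction_on with
  | empty =>
    intro S _ hS
    apply CWWaiter.done
    intro h
    obtain ⟨c, hc, hc'⟩ := h a
    exact hc' (hS c hc)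
  | insert c U hcU ih =>
    intro S hU hS
    refine CWWaiter.step _ S {c} ?_ (Finset.singleton_nonempty c) ?_ ?_
    · intro d hd
      rw [Finset.mem_singleton] at hd
      rw [hd]
      exact Finset.mem_insert_self c U
    · rw [Finset.card_singleton]
      omega
    · intro d hd
      rw [Finset.mem_singleton] at hd
      subst hd
      rw [Finset.sdiff_singleton_eq_erase, Finset.erase_insert hcU]
      apply ih
      · intro e he
        exact hU e (Finset.mem_insert_of_mem he)
      · intro e he
        rcases Finset.mem_insert.mp he with rfl | he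
        · exact hU e (Finset.mem_insert_self _ _)
        · exact hS e he

/-- the clauses offered at variable `i` -/
def Off {n : ℕ} (a : Fin n → Bool) (i : ℕ) (c : Finset (Lit n)) : Prop :=
  (¬ ∃ x ∈ c, x.1.val < i ∧ a x.1 = x.2) ∧ ¬ ∃ x ∈ c, i < x.1.val

theorem lit_eq {n k : ℕ} {c : Finset (Lit n)} (hc : c ∈ board n k) {x y : Lit n} (hx : x ∈ c)
    (hy : y ∈ c) (h : x.1 = y.1) : x = y := by
  unfold board at hc
  exact (Finset.mem_filter.mp hc).2 x hx y hy h

theorem sub_of_eq {n k : ℕ} {a : Fin n → Bool} {i : Fin n} {c d : Finset (Lit n)}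
    (hc : c ∈ board n k) (hOc : Off a i c) (hOd : Off a i d)
    (hid : ∃ x ∈ d, x.1 = i) (h1 : ((i, true) ∈ c ↔ (i, true) ∈ d))
    (h2 : ∀ j, j ≠ i → (∃ x ∈ c, x.1 = j) → ∃ x ∈ d, x.1 = j) : c ⊆ d := by
  have hval : ∀ e : Finset (Lit n), Off a i e → ∀ x ∈ e, x.1 ≠ i → x.2 = !a x.1 := by
    intro e he x hx hxi
    have h3 : x.1.val < i.val := by
      have h4 : ¬ i.val < x.1.val := fun h => he.2 ⟨x, hx, h⟩
      have h5 : x.1.val ≠ i.val := fun h => hxi (Fin.ext h)
      omega
    have h4 : ¬ a x.1 = x.2 := fun h => he.1 ⟨x, hx, h3, h⟩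
    cases h5 : a x.1 <;> cases h6 : x.2 <;> simp_all
  intro x hx
  by_cases hxi : x.1 = i
  · obtain ⟨y, hy, hyi⟩ := hid
    by_cases hxt : x.2 = true
    · have h3 : x = (i, true) := Prod.ext hxi hxt
      rw [h3] at hx ⊢
      exact h1.mp hx
    · have hxf : x.2 = false := by simpa using hxt
      have h3 : (i, true) ∉ d := by
        intro hd
        have hc' := h1.mpr hd
        have h4 := lit_eq hc hx hc' hxi
        rw [h4] at hxf
        simp at hxf
      have h5 : y.2 = false := by
        cases h6 : y.2 with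
        | false => rfl
        | true =>
          exfalso
          apply h3
          have h7 : y = (i, true) := Prod.ext hyi h6
          rw [← h7]
          exact hy
      have h8 : x = y := Prod.ext (hxi.trans hyi.symm) (hxf.trans h5.symm)
      rw [h8]
      exact hy
  · obtain ⟨y, hy, hyx⟩ := h2 x.1 hxi ⟨x, hx, rfl⟩
    have h3 := hval c hOc x hx hxi
    have h4 := hval d hOd y hy (by rw [hyx]; exact hxi)
    have h5 : x = y := Prod.ext hyx.symm (by rw [h3, h4, hyx])
    rw [h5]
    exact hy

open Classical in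
theorem card_off {n k : ℕ} (a : Fin n → Bool) (i : Fin n)
    (X : Finset (Finset (Lit n))) (hX : ∀ c ∈ X, c ∈ board n k ∧ Off a i c ∧ ∃ x ∈ c, x.1 = i) :
    X.card ≤ 2 * (n - 1).choose (k - 1) := by
  have h1 : X.card ≤ ((univ : Finset Bool) ×ˢ
      ((univ : Finset (Fin n)).erase i).powersetCard (k - 1)).card := by
    apply Finset.card_le_card_of_injOn
      (fun c => (decide ((i, true) ∈ c), (c.image Prod.fst).erase i))
    · intro c hc
      have hc' := hX c hc
      rw [Finset.mem_coe, Finset.mem_product]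
      refine ⟨Finset.mem_univ _, ?_⟩
      rw [Finset.mem_powersetCard]
      constructor
      · exact Finset.erase_subset_erase i (Finset.subset_univ _)
      · have hcard : c.card = k := by
          have := (Finset.mem_filter.mp hc'.1).1
          exact (Finset.mem_powersetCard.mp this).2
        have himg : (c.image Prod.fst).card = k := by
          rw [Finset.card_image_of_injOn, hcard]
          intro x hx y hy hxy
          exact lit_eq hc'.1 hx hy hxy
        obtain ⟨x, hx, hxi⟩ := hc'.2.2
        have hi : i ∈ c.image Prod.fst := Finset.mem_image.mpr ⟨x, hx, hxi⟩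
        show ((c.image Prod.fst).erase i).card = k - 1
        rw [Finset.card_erase_of_mem hi, himg]
    · intro c hc d hd hcd
      have hc' := hX c hc
      have hd' := hX d hd
      have hcd' : (decide ((i, true) ∈ c), (c.image Prod.fst).erase i) =
        (decide ((i, true) ∈ d), (d.image Prod.fst).erase i) := hcd
      rw [Prod.mk.injEq] at hcd'
      have e1 : ((i, true) ∈ c ↔ (i, true) ∈ d) := by
        have := hcd'.1
        rwa [decide_eq_decide] at this
      have e2 : ∀ j, j ≠ i → ((∃ x ∈ c, x.1 = j) ↔ ∃ x ∈ d, x.1 = j) := by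
        intro j hj
        have h3 : j ∈ (c.image Prod.fst).erase i ↔ j ∈ (d.image Prod.fst).erase i := by
          rw [hcd'.2]
        simpa [Finset.mem_erase, Finset.mem_image, hj] using h3
      apply Finset.Subset.antisymm
      · exact sub_of_eq hc'.1 hc'.2.1 hd'.2.1 hd'.2.2 e1 (fun j hj => (e2 j hj).mp)
      · exact sub_of_eq hd'.1 hd'.2.1 hc'.2.1 hc'.2.2 e1.symm (fun j hj => (e2 j hj).mpr)
  refine h1.trans (le_of_eq ?_)
  rw [Finset.card_product, Finset.card_powersetCard, Finset.card_erase_of_mem (Finset.mem_univ i),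
    Finset.card_univ, Finset.card_univ, Fintype.card_bool, Fintype.card_fin]

open Classical in
theorem claimB {n k q : ℕ} (hk : 1 ≤ k) (hq : 2 * (n - 1).choose (k - 1) ≤ q + 1) (m : ℕ) :
    ∀ i : ℕ, i + m = n → ∀ (a : Fin n → Bool) (U S : Finset (Finset (Lit n))),
      (∀ c ∈ S, ∃ x ∈ c, x.1.val < i ∧ a x.1 = x.2) → U ⊆ board n k →
      (∀ c ∈ U, ∃ x ∈ c, (x.1.val < i ∧ a x.1 = x.2) ∨ i ≤ x.1.val) →
      CWWaiter Unsat q U S := by
  induction m with
  | zero =>
    intro i hi a U S hS _ hU
    apply claimA a U S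
    · intro c hc
      obtain ⟨x, hx, h | h⟩ := hU c hc
      · exact ⟨x, hx, h.2⟩
      · have := x.1.isLt
        omega
    · intro c hc
      obtain ⟨x, hx, h⟩ := hS c hc
      exact ⟨x, hx, h.2⟩
  | succ m ih =>
    intro i hi a U S hS hUb hU
    have hin : i < n := by omega
    obtain ⟨v, hv⟩ : ∃ v : Fin n, v = ⟨i, hin⟩ := ⟨_, rfl⟩
    have hvi : v.val = i := by rw [hv]
    have hX : ∀ c ∈ U.filter (fun c => Off a i c), c ∈ board n k ∧ Off a v c ∧ ∃ x ∈ c, x.1 = v := by
      intro c hc
      obtain ⟨hc1, hc2⟩ := Finset.mem_filter.mp hc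
      refine ⟨hUb hc1, by rw [hvi]; exact hc2, ?_⟩
      obtain ⟨x, hx, h | h⟩ := hU c hc1
      · exact absurd ⟨x, hx, h⟩ hc2.1
      · refine ⟨x, hx, Fin.ext ?_⟩
        have h3 : ¬ i < x.1.val := fun h' => hc2.2 ⟨x, hx, h'⟩
        rw [hvi]
        omega
    have hrest : ∀ c ∈ U, ¬ Off a i c → ∀ a' : Fin n → Bool, (∀ j : Fin n, j.val ≠ i → a' j = a j) →
        ∃ x ∈ c, (x.1.val < i + 1 ∧ a' x.1 = x.2) ∨ i + 1 ≤ x.1.val := by
      intro c hc hoff a' ha'
      unfold Off at hoff
      rw [not_and_or, not_not, not_not] at hoff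
      rcases hoff with ⟨x, hx, h1, h2⟩ | ⟨x, hx, h1⟩
      · exact ⟨x, hx, Or.inl ⟨by omega, by rw [ha' x.1 (by omega)]; exact h2⟩⟩
      · exact ⟨x, hx, Or.inr h1⟩
    by_cases hne : (U.filter (fun c => Off a i c)).Nonempty
    · refine CWWaiter.step U S (U.filter (fun c => Off a i c)) (Finset.filter_subset _ _) hne
        ((card_off a v _ hX).trans hq) ?_
      intro c hc
      obtain ⟨_, _, x, hx, hxv⟩ := hX c hc
      apply ih (i + 1) (by omega) (Function.update a v x.2)
      · intro d hd
        rcases Finset.mem_insert.mp hd with rfl | hd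
        · exact ⟨x, hx, by rw [hxv, hvi]; omega, by rw [hxv, Function.update_self]⟩
        · obtain ⟨y, hy, h1, h2⟩ := hS d hd
          refine ⟨y, hy, by omega, ?_⟩
          rw [Function.update_of_ne]
          · exact h2
          · intro h
            rw [h, hvi] at h1
            omega
      · exact Finset.sdiff_subset.trans hUb
      · intro d hd
        obtain ⟨hd1, hd2⟩ := Finset.mem_sdiff.mp hd
        refine hrest d hd1 (fun h => hd2 (Finset.mem_filter.mpr ⟨hd1, h⟩)) _ ?_
        intro j hj
        rw [Function.update_of_ne]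
        intro h
        rw [h] at hj
        exact hj hvi
    · apply ih (i + 1) (by omega) a U S
      · intro d hd
        obtain ⟨y, hy, h1, h2⟩ := hS d hd
        exact ⟨y, hy, by omega, h2⟩
      · exact hUb
      · intro d hd
        exact hrest d hd (fun h => hne ⟨d, Finset.mem_filter.mpr ⟨hd, h⟩⟩) a (fun _ _ => rfl)

theorem cwup_ok : St_CWup := by
  intro n k q hk hq
  apply claimB hk hq n 0 (by omega) (fun _ => true) (board n k) ∅
  · intro c hc
    exact absurd hc (Finset.notMem_empty c)
  · exact Finset.Subset.refl _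
  · intro c hc
    have hcard : c.card = k := by
      have := (Finset.mem_filter.mp hc).1
      exact (Finset.mem_powersetCard.mp this).2
    obtain ⟨x, hx⟩ : c.Nonempty := Finset.card_pos.mp (by omega)
    exact ⟨x, hx, Or.inr (Nat.zero_le _)⟩

end Pool.Agent.R982.KS.CWup
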