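import Pool.Agent.R982.KS.Defs

/-!
# KS-8: number of clauses
-/

open Finset

namespace Pool.Agent.R982.KS.Count

variable {n : ℕ}

theorem mem_board {k : ℕ} {c : Finset (Lit n)} :
    c ∈ board n k ↔ #c = k ∧ ∀ x ∈ c, ∀ y ∈ c, x.1 = y.1 → x = y := by
  unfold board
  rw [mem_filter, mem_powersetCard]
  simp

/-- the clause with variables `V` and signs `s` -/
def cl (V : Finset (Fin n)) (s : Fin n → Bool) : Finset (Lit n) := V.image fun i => (i, s i)

theorem cl_mem {k : ℕ} {V : Finset (Fin n)} (hV : #V = k) (s : Fin n → Bool) :
    cl V s ∈ board n k := by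
  rw [mem_board]
  constructor
  · unfold cl
    rw [card_image_of_injective _ (fun i j h => (Prod.mk.inj h).1), hV]
  · intro x hx y hy hxy
    obtain ⟨i, _, rfl⟩ := mem_image.1 hx
    obtain ⟨j, _, rfl⟩ := mem_image.1 hy
    have h : i = j := hxy
    rw [h]

theorem cl_fst (V : Finset (Fin n)) (s : Fin n → Bool) : (cl V s).image Prod.fst = V := by
  unfold cl
  rw [image_image]
  exact image_id

theorem mem_cl {V : Finset (Fin n)} {s : Fin n → Bool} {x : Lit n} :
    x ∈ cl V s ↔ x.1 ∈ V ∧ x.2 = s x.1 := by
  unfold cl
  rw [mem_image]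
  constructor
  · rintro ⟨i, hi, rfl⟩
    exact ⟨hi, rfl⟩
  · rintro ⟨h1, h2⟩
    exact ⟨x.1, h1, by rw [← h2]⟩

theorem count_fal (k : ℕ) (a : Fin n → Bool) : #(Fal a ∩ board n k) = n.choose k := by
  have h : Fal a ∩ board n k = ((univ : Finset (Fin n)).powersetCard k).image
      (fun V => cl V (fun i => !a i)) := by
    ext c
    rw [mem_inter, mem_image]
    unfold Fal
    rw [mem_filter]
    constructor
    · rintro ⟨⟨_, h1⟩, h2⟩
      rw [mem_board] at h2
      have h3 : ∀ x ∈ c, x.2 = !a x.1 := by
        intro x hx
        by_contra hne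
        apply h1
        refine ⟨x, hx, ?_⟩
        cases h4 : a x.1 <;> cases h5 : x.2 <;> simp_all
      refine ⟨c.image Prod.fst, ?_, ?_⟩
      · rw [mem_powersetCard]
        refine ⟨subset_univ _, ?_⟩
        rw [card_image_of_injOn (fun x hx y hy hxy => h2.2 x hx y hy hxy), h2.1]
      · ext x
        rw [mem_cl]
        constructor
        · rintro ⟨h4, h5⟩
          obtain ⟨y, hy, hyx⟩ := mem_image.1 h4
          have h6 := h3 y hy
          rw [hyx] at h6
          have : y = x := Prod.ext hyx (h6.trans h5.symm)
          rw [← this]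
          exact hy
        · intro hx
          exact ⟨mem_image_of_mem _ hx, h3 x hx⟩
    · rintro ⟨V, hV, rfl⟩
      rw [mem_powersetCard] at hV
      refine ⟨⟨mem_univ _, ?_⟩, cl_mem hV.2 _⟩
      rintro ⟨x, hx, hax⟩
      rw [mem_cl] at hx
      rw [hx.2] at hax
      exact absurd hax (by cases a x.1 <;> decide)
  rw [h, card_image_of_injective, card_powersetCard, card_univ, Fintype.card_fin]
  intro V W hVW
  have := congrArg (fun c : Finset (Lit n) => c.image Prod.fst) hVW
  simp only [cl_fst] at this
  exact this

theorem fibre (k : ℕ) (V : Finset (Fin n)) (hV : #V = k) :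
    #{c ∈ board n k | c.image Prod.fst = V} = 2 ^ k := by
  have h : ({c ∈ board n k | c.image Prod.fst = V} : Finset (Finset (Lit n))) =
      V.powerset.image (fun W => cl V (fun i => decide (i ∈ W))) := by
    ext c
    rw [mem_filter, mem_image]
    constructor
    · rintro ⟨h1, h2⟩
      rw [mem_board] at h1
      refine ⟨V.filter (fun i => (i, true) ∈ c), mem_powerset.2 (filter_subset _ _), ?_⟩
      ext x
      rw [mem_cl]
      constructor
      · rintro ⟨h3, h4⟩
        rw [← h2] at h3
        obtain ⟨y, hy, hyx⟩ := mem_image.1 h3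
        by_cases ht : (x.1, true) ∈ c
        · have h5 : decide (x.1 ∈ V.filter (fun i => (i, true) ∈ c)) = true := by
            rw [decide_eq_true_iff, mem_filter, ← h2]
            exact ⟨h3, ht⟩
          rw [h5] at h4
          have : x = (x.1, true) := Prod.ext rfl h4
          rw [this]
          exact ht
        · have h5 : decide (x.1 ∈ V.filter (fun i => (i, true) ∈ c)) = false := by
            rw [decide_eq_false_iff_not, mem_filter]
            exact fun h => ht h.2
          rw [h5] at h4
          have h6 : y.2 = false := by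
            cases h7 : y.2
            · rfl
            · exfalso
              apply ht
              have : y = (x.1, true) := Prod.ext hyx h7
              rw [← this]
              exact hy
          have : y = x := Prod.ext hyx (h6.trans h4.symm)
          rw [← this]
          exact hy
      · intro hx
        have hxV : x.1 ∈ V := by rw [← h2]; exact mem_image_of_mem _ hx
        refine ⟨hxV, ?_⟩
        cases h7 : x.2
        · symm
          rw [decide_eq_false_iff_not, mem_filter]
          rintro ⟨_, h8⟩
          have h9 := h1.2 x hx _ h8 rfl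
          rw [h9] at h7
          exact absurd h7 (by simp)
        · symm
          rw [decide_eq_true_iff, mem_filter]
          refine ⟨hxV, ?_⟩
          have : x = (x.1, true) := Prod.ext rfl h7
          rw [← this]
          exact hx
    · rintro ⟨W, _, rfl⟩
      exact ⟨cl_mem hV _, cl_fst _ _⟩
  rw [h, card_image_of_injOn, card_powerset, hV]
  intro W hW W' hW' hWW
  have hW1 := mem_powerset.1 hW
  have hW2 := mem_powerset.1 hW'
  have key : ∀ i ∈ V, (i ∈ W ↔ i ∈ W') := by
    intro i hi
    have h1 : (i, decide (i ∈ W)) ∈ cl V (fun i => decide (i ∈ W)) := mem_cl.2 ⟨hi, rfl⟩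
    have h2 : cl V (fun i => decide (i ∈ W)) = cl V (fun i => decide (i ∈ W')) := hWW
    rw [h2, mem_cl] at h1
    have h3 : decide (i ∈ W) = decide (i ∈ W') := h1.2
    simpa using h3
  ext i
  constructor
  · intro hi
    exact (key i (hW1 hi)).1 hi
  · intro hi
    exact (key i (hW2 hi)).2 hi

theorem count_ok : St_Count := by
  intro n k
  refine ⟨?_, fun a => count_fal k a⟩
  have h := card_eq_sum_card_fiberwise (f := fun c : Finset (Lit n) => c.image Prod.fst)
    (s := board n k) (t := (univ : Finset (Fin n)).powersetCard k) (by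
      intro c hc
      have h1 := mem_board.1 hc
      rw [mem_coe, mem_powersetCard]
      refine ⟨subset_univ _, ?_⟩
      rw [card_image_of_injOn (fun x hx y hy hxy => h1.2 x hx y hy hxy), h1.1])
  rw [h, sum_congr rfl (fun V hV => fibre k V (mem_powersetCard.1 hV).2), sum_const,
    card_powersetCard, card_univ, Fintype.card_fin, smul_eq_mul, mul_comm]

end Pool.Agent.R982.KS.Count
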