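import Pool.Agent.R982.KS.Defs2

/-!
# KT-4: random sequences from a dense family of `k`-sets cover almost everything
-/

open Finset

namespace Pool.Agent.R982.KS.Cover

/-- the number of members of `M` containing `i` -/
def deg {ι : Type} [DecidableEq ι] (M : Finset (Finset ι)) (i : ι) : ℕ :=
  #(M.filter (fun V => i ∈ V))

lemma sum_deg {ι : Type} [DecidableEq ι] (M : Finset (Finset ι)) (B : Finset ι) :
    ∑ V ∈ M, #(V ∩ B) = ∑ i ∈ B, deg M i := by
  have h1 : ∀ V ∈ M, #(V ∩ B) = ∑ i ∈ B, if i ∈ V then 1 else 0 := by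
    intro V _
    rw [← Finset.sum_filter, Finset.sum_const, smul_eq_mul, mul_one, Finset.filter_mem_eq_inter,
      Finset.inter_comm]
  have h2 : ∀ i ∈ B, deg M i = ∑ V ∈ M, if i ∈ V then 1 else 0 := by
    intro i _
    rw [← Finset.sum_filter, Finset.sum_const, smul_eq_mul, mul_one, deg]
  rw [Finset.sum_congr rfl h1, Finset.sum_congr rfl h2, Finset.sum_comm]

lemma card_B (h : St_Esymm) {ι : Type} [DecidableEq ι] (D B : Finset ι) (k : ℕ) (γ μ : ℝ)
    (M : Finset (Finset ι)) (hM : ∀ V ∈ M, V ⊆ D ∧ #V = k) (hk : 1 ≤ k) (hkD : k ^ 2 ≤ #D)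
    (hγ : 0 < γ) (hγ1 : γ ≤ 1) (hMc : γ * ((#D).choose k : ℝ) ≤ #M)
    (hlog : 14 * Real.log (4 / γ) ≤ μ * k) (hμ : 0 < μ) (hBD : B ⊆ D)
    (hB : ∀ i ∈ B, (deg M i : ℝ) ≤ (k : ℝ) / (4 * #D) * #M) :
    (#B : ℝ) ≤ μ * #D / 2 := by
  by_contra hcon
  push Not at hcon
  have hm0 : 0 < #D := lt_of_lt_of_le (by positivity) hkD
  have hm : (0 : ℝ) < #D := by exact_mod_cast hm0
  have hkm : k ≤ #D := le_trans (by nlinarith) hkD
  have hk0 : (0 : ℝ) < k := by exact_mod_cast hk
  have hB0 : (0 : ℝ) < #B := lt_trans (by positivity) hcon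
  have hC : (0 : ℝ) < ((#D).choose k : ℝ) := by exact_mod_cast Nat.choose_pos hkm
  set N : ℝ := (#M : ℝ) with hN
  have hN0 : 0 < N := lt_of_lt_of_le (by positivity) hMc
  set A0 : ℝ := k * #B / (2 * #D) with hA0
  have hA0pos : 0 < A0 := by positivity
  -- double counting
  have hsum : ∑ V ∈ M, (#(V ∩ B) : ℝ) ≤ A0 * (N / 2) := by
    have h1 : ∑ V ∈ M, (#(V ∩ B) : ℝ) = ∑ i ∈ B, (deg M i : ℝ) := by
      exact_mod_cast sum_deg M B
    rw [h1]
    calc ∑ i ∈ B, (deg M i : ℝ) ≤ ∑ i ∈ B, ((k : ℝ) / (4 * #D) * N) := Finset.sum_le_sum hB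
      _ = A0 * (N / 2) := by
        rw [Finset.sum_const, nsmul_eq_mul, hA0]; field_simp; ring
  -- Markov
  have hmark : N / 2 ≤ (#(M.filter (fun V => (#(V ∩ B) : ℝ) < A0)) : ℝ) := by
    have h1 : (#(M.filter (fun V => ¬ (#(V ∩ B) : ℝ) < A0)) : ℝ) * A0 ≤ A0 * (N / 2) := by
      refine le_trans ?_ hsum
      calc (#(M.filter (fun V => ¬ (#(V ∩ B) : ℝ) < A0)) : ℝ) * A0
          = ∑ V ∈ M.filter (fun V => ¬ (#(V ∩ B) : ℝ) < A0), A0 := by
            rw [Finset.sum_const, nsmul_eq_mul]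
        _ ≤ ∑ V ∈ M.filter (fun V => ¬ (#(V ∩ B) : ℝ) < A0), (#(V ∩ B) : ℝ) := by
            apply Finset.sum_le_sum
            intro V hV
            exact not_lt.mp (Finset.mem_filter.mp hV).2
        _ ≤ ∑ V ∈ M, (#(V ∩ B) : ℝ) :=
            Finset.sum_le_sum_of_subset_of_nonneg (Finset.filter_subset _ _)
              (fun _ _ _ => by positivity)
    have h2 : (#(M.filter (fun V => ¬ (#(V ∩ B) : ℝ) < A0)) : ℝ) ≤ N / 2 := by
      have : (#(M.filter (fun V => ¬ (#(V ∩ B) : ℝ) < A0)) : ℝ) * A0 ≤ (N / 2) * A0 := by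
        linarith [h1, mul_comm A0 (N / 2)]
      exact le_of_mul_le_mul_right this hA0pos
    have h3 : (#(M.filter (fun V => (#(V ∩ B) : ℝ) < A0)) : ℝ) +
        (#(M.filter (fun V => ¬ (#(V ∩ B) : ℝ) < A0)) : ℝ) = N := by
      have := Finset.card_filter_add_card_filter_not (s := M) (fun V => (#(V ∩ B) : ℝ) < A0)
      rw [hN]
      exact_mod_cast this
    linarith
  -- upper bound
  have hup : (#(M.filter (fun V => (#(V ∩ B) : ℝ) < A0)) : ℝ) ≤
      Real.exp (A0 * Real.log 2) * ∑ V ∈ D.powersetCard k, ((1 : ℝ) / 2) ^ #(V ∩ B) := by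
    have hsub : M.filter (fun V => (#(V ∩ B) : ℝ) < A0) ⊆ D.powersetCard k := by
      intro V hV
      have := hM V (Finset.mem_filter.mp hV).1
      exact Finset.mem_powersetCard.mpr this
    calc (#(M.filter (fun V => (#(V ∩ B) : ℝ) < A0)) : ℝ)
        = ∑ V ∈ M.filter (fun V => (#(V ∩ B) : ℝ) < A0), (1 : ℝ) := by
          rw [Finset.sum_const, nsmul_eq_mul, mul_one]
      _ ≤ ∑ V ∈ M.filter (fun V => (#(V ∩ B) : ℝ) < A0),
          Real.exp (A0 * Real.log 2) * ((1 : ℝ) / 2) ^ #(V ∩ B) := by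
          apply Finset.sum_le_sum
          intro V hV
          have hV2 := (Finset.mem_filter.mp hV).2
          have e1 : ((1 : ℝ) / 2) ^ #(V ∩ B) = Real.exp (-((#(V ∩ B) : ℝ) * Real.log 2)) := by
            rw [Real.exp_neg, mul_comm, Real.exp_mul, Real.exp_log (by norm_num),
              Real.rpow_natCast, one_div, inv_pow]
          rw [e1, ← Real.exp_add]
          apply Real.one_le_exp
          have := Real.log_pos (by norm_num : (1 : ℝ) < 2)
          nlinarith
      _ ≤ ∑ V ∈ D.powersetCard k,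
          Real.exp (A0 * Real.log 2) * ((1 : ℝ) / 2) ^ #(V ∩ B) :=
          Finset.sum_le_sum_of_subset_of_nonneg hsub (fun _ _ _ => by positivity)
      _ = _ := by rw [Finset.mul_sum]
  have hes := h ι D B k hBD (Finset.card_pos.mp hm0)
  have hBm : (#B : ℝ) ≤ #D := by exact_mod_cast Finset.card_le_card hBD
  have hpow : (1 - ((#B : ℝ) - k) / (2 * #D)) ^ k ≤ Real.exp (-A0 + 1 / 2) := by
    have h0 : 0 ≤ 1 - ((#B : ℝ) - k) / (2 * #D) := by
      have : ((#B : ℝ) - k) / (2 * #D) ≤ 1 := by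
        rw [div_le_one (by positivity)]
        linarith
      linarith
    have h1 : 1 - ((#B : ℝ) - k) / (2 * #D) ≤ Real.exp (-(((#B : ℝ) - k) / (2 * #D))) := by
      have := Real.add_one_le_exp (-(((#B : ℝ) - k) / (2 * #D)))
      linarith
    calc (1 - ((#B : ℝ) - k) / (2 * #D)) ^ k
        ≤ (Real.exp (-(((#B : ℝ) - k) / (2 * #D)))) ^ k := pow_le_pow_left₀ h0 h1 k
      _ = Real.exp (k * (-(((#B : ℝ) - k) / (2 * #D)))) := by rw [← Real.exp_nat_mul]
      _ ≤ Real.exp (-A0 + 1 / 2) := by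
        apply Real.exp_le_exp.mpr
        have h2 : (k : ℝ) * (-(((#B : ℝ) - k) / (2 * #D))) = -A0 + k ^ 2 / (2 * #D) := by
          rw [hA0]; field_simp; ring
        have h3 : (k : ℝ) ^ 2 / (2 * #D) ≤ 1 / 2 := by
          rw [div_le_iff₀ (by positivity)]
          have : (k : ℝ) ^ 2 ≤ #D := by exact_mod_cast hkD
          linarith
        rw [h2]; linarith
  have hall : γ / 2 ≤ Real.exp (A0 * Real.log 2 + (-A0 + 1 / 2)) := by
    have h1 : γ * ((#D).choose k : ℝ) / 2 ≤
        Real.exp (A0 * Real.log 2) * (((#D).choose k : ℝ) * Real.exp (-A0 + 1 / 2)) := by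
      calc γ * ((#D).choose k : ℝ) / 2 ≤ N / 2 := by linarith
        _ ≤ _ := hmark
        _ ≤ _ := hup
        _ ≤ Real.exp (A0 * Real.log 2) * (((#D).choose k : ℝ) *
            (1 - ((#B : ℝ) - k) / (2 * #D)) ^ k) := by
            exact mul_le_mul_of_nonneg_left hes (Real.exp_pos _).le
        _ ≤ _ := by
            apply mul_le_mul_of_nonneg_left _ (Real.exp_pos _).le
            exact mul_le_mul_of_nonneg_left hpow hC.le
    rw [Real.exp_add]
    have h2 : γ / 2 * ((#D).choose k : ℝ) ≤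
        (Real.exp (A0 * Real.log 2) * Real.exp (-A0 + 1 / 2)) * ((#D).choose k : ℝ) := by
      nlinarith [h1]
    exact le_of_mul_le_mul_right h2 hC
  have hlog2 : Real.log (γ / 2) ≤ A0 * Real.log 2 + (-A0 + 1 / 2) := by
    rw [← Real.log_exp (A0 * Real.log 2 + (-A0 + 1 / 2))]
    exact Real.log_le_log (by positivity) hall
  have e1 : Real.log (γ / 2) = Real.log γ - Real.log 2 := by
    rw [Real.log_div hγ.ne' (by norm_num)]
  have e2 : Real.log (4 / γ) = 2 * Real.log 2 - Real.log γ := by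
    rw [Real.log_div (by norm_num) hγ.ne', show (4 : ℝ) = 2 ^ 2 by norm_num, Real.log_pow]
    norm_num
  have l1 := Real.log_two_gt_d9
  have l2 := Real.log_two_lt_d9
  have hgn : Real.log γ ≤ 0 := Real.log_nonpos hγ.le hγ1
  have hA1 : k * μ / 4 < A0 := by
    rw [hA0, lt_div_iff₀ (by positivity)]
    nlinarith [mul_lt_mul_of_pos_left hcon hk0]
  have hA2 : A0 * (1 - Real.log 2) ≤ Real.log (4 / γ) := by
    rw [e2]; rw [e1] at hlog2; nlinarith
  have hA3 : A0 * (3 / 10) ≤ A0 * (1 - Real.log 2) := by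
    apply mul_le_mul_of_nonneg_left _ hA0pos.le
    linarith
  have hlp : 0 < Real.log (4 / γ) := by rw [e2]; linarith
  nlinarith

lemma card_uncovered {ι : Type} [DecidableEq ι] (D : Finset ι) (k r : ℕ) (μ : ℝ)
    (M : Finset (Finset ι)) (hk : 1 ≤ k) (hkm : k ≤ #D) (hμ : 0 < μ)
    (hr : 4 * (#D : ℝ) / k * Real.log (4 / μ) ≤ r) (i : ι)
    (hi : (k : ℝ) / (4 * #D) * #M ≤ deg M i) :
    (#((Fintype.piFinset (fun _ : Fin r => M)).filter (fun s => i ∉ univ.biUnion s)) : ℝ) ≤
      (#M : ℝ) ^ r * (μ / 4) := by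
  have hk0 : (0 : ℝ) < k := by exact_mod_cast hk
  have hm0 : 0 < #D := lt_of_lt_of_le hk hkm
  have hm : (0 : ℝ) < #D := by exact_mod_cast hm0
  have h1 : (Fintype.piFinset (fun _ : Fin r => M)).filter (fun s => i ∉ univ.biUnion s) =
      Fintype.piFinset (fun _ : Fin r => M.filter (fun V => i ∉ V)) := by
    ext s
    simp only [Finset.mem_filter, Fintype.mem_piFinset, Finset.mem_biUnion, Finset.mem_univ,
      true_and, not_exists]
    constructor
    · rintro ⟨a, b⟩ j
      exact ⟨a j, b j⟩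
    · intro a
      exact ⟨fun j => (a j).1, fun j => (a j).2⟩
  rw [h1, Fintype.card_piFinset_const]
  have h2 : (#(M.filter (fun V => i ∉ V)) : ℝ) = #M - deg M i := by
    have := Finset.card_filter_add_card_filter_not (s := M) (fun V => i ∈ V)
    have h3 : (#(M.filter (fun V => i ∈ V)) : ℝ) + #(M.filter (fun V => i ∉ V)) = #M := by
      exact_mod_cast this
    rw [deg]; linarith
  have h3 : (#(M.filter (fun V => i ∉ V)) : ℝ) ≤ #M * Real.exp (-((k : ℝ) / (4 * #D))) := by
    rw [h2]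
    have := Real.add_one_le_exp (-((k : ℝ) / (4 * #D)))
    have h4 : (0 : ℝ) ≤ #M := by positivity
    nlinarith [mul_le_mul_of_nonneg_left this h4]
  push_cast
  calc (#(M.filter (fun V => i ∉ V)) : ℝ) ^ r
      ≤ (#M * Real.exp (-((k : ℝ) / (4 * #D)))) ^ r := pow_le_pow_left₀ (by positivity) h3 r
    _ = (#M : ℝ) ^ r * Real.exp (r * (-((k : ℝ) / (4 * #D)))) := by
        rw [mul_pow, ← Real.exp_nat_mul]
    _ ≤ (#M : ℝ) ^ r * (μ / 4) := by
        apply mul_le_mul_of_nonneg_left _ (by positivity)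
        have h5 : Real.log (4 / μ) ≤ r * ((k : ℝ) / (4 * #D)) := by
          have h6 : Real.log (4 / μ) = (4 * (#D : ℝ) / k * Real.log (4 / μ)) *
              ((k : ℝ) / (4 * #D)) := by
            field_simp
          have hnn : (0 : ℝ) ≤ (k : ℝ) / (4 * #D) :=
            div_nonneg hk0.le (mul_nonneg (by norm_num) hm.le)
          calc Real.log (4 / μ) = (4 * (#D : ℝ) / k * Real.log (4 / μ)) *
              ((k : ℝ) / (4 * #D)) := h6
            _ ≤ r * ((k : ℝ) / (4 * #D)) := mul_le_mul_of_nonneg_right hr hnn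
        have h7 : μ / 4 = Real.exp (-Real.log (4 / μ)) := by
          rw [Real.exp_neg, Real.exp_log (by positivity)]
          field_simp
        rw [h7]
        apply Real.exp_le_exp.mpr
        linarith

theorem cover_of (h : St_Esymm) : St_Cover := by
  intro ι _ D k r γ μ M hM hk hkD hγ hγ1 hMc hlog hμ hμ1 hr
  have hm0 : 0 < #D := lt_of_lt_of_le (by positivity) hkD
  have hm : (0 : ℝ) < #D := by exact_mod_cast hm0
  have hkm : k ≤ #D := le_trans (by nlinarith) hkD
  set B : Finset ι := D.filter (fun i => (deg M i : ℝ) < (k : ℝ) / (4 * #D) * #M) with hB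
  have hBc : (#B : ℝ) ≤ μ * #D / 2 := by
    apply card_B h D B k γ μ M hM hk hkD hγ hγ1 hMc hlog hμ (Finset.filter_subset _ _)
    intro i hi
    exact (Finset.mem_filter.mp hi).2.le
  set all := Fintype.piFinset (fun _ : Fin r => M) with hall
  set bad := all.filter (fun s => ((#(univ.biUnion s) : ℕ) : ℝ) < (1 - μ) * #D) with hbad
  -- for each bad `s`, many elements of `D \ B` are not covered
  have h1 : ∀ s ∈ bad, μ * #D / 2 ≤ (#((D \ B).filter (fun i => i ∉ univ.biUnion s)) : ℝ) := by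
    intro s hs
    obtain ⟨hs1, hs2⟩ := Finset.mem_filter.mp hs
    have hsub : univ.biUnion s ⊆ D := by
      intro i hi
      obtain ⟨j, _, hj⟩ := Finset.mem_biUnion.mp hi
      have := Fintype.mem_piFinset.mp hs1 j
      exact (hM _ this).1 hj
    have h2 : D ⊆ univ.biUnion s ∪ B ∪ (D \ B).filter (fun i => i ∉ univ.biUnion s) := by
      intro i hi
      by_cases h3 : i ∈ univ.biUnion s
      · exact Finset.mem_union_left _ (Finset.mem_union_left _ h3)
      · by_cases h4 : i ∈ B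
        · exact Finset.mem_union_left _ (Finset.mem_union_right _ h4)
        · exact Finset.mem_union_right _
            (Finset.mem_filter.mpr ⟨Finset.mem_sdiff.mpr ⟨hi, h4⟩, h3⟩)
    have h3 : #D ≤ #(univ.biUnion s) + #B + #((D \ B).filter (fun i => i ∉ univ.biUnion s)) := by
      refine le_trans (Finset.card_le_card h2) ?_
      refine le_trans (Finset.card_union_le _ _) ?_
      have := Finset.card_union_le (univ.biUnion s) B
      omega
    have h4 : (#D : ℝ) ≤ #(univ.biUnion s) + #B +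
        #((D \ B).filter (fun i => i ∉ univ.biUnion s)) := by exact_mod_cast h3
    nlinarith
  have h2 : (bad.card : ℝ) * (μ * #D / 2) ≤
      ∑ s ∈ all, (#((D \ B).filter (fun i => i ∉ univ.biUnion s)) : ℝ) := by
    calc (bad.card : ℝ) * (μ * #D / 2) = ∑ s ∈ bad, (μ * #D / 2) := by
          rw [Finset.sum_const, nsmul_eq_mul]
      _ ≤ ∑ s ∈ bad, (#((D \ B).filter (fun i => i ∉ univ.biUnion s)) : ℝ) :=
          Finset.sum_le_sum h1
      _ ≤ _ := Finset.sum_le_sum_of_subset_of_nonneg (Finset.filter_subset _ _)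
          (fun _ _ _ => by positivity)
  have h3 : ∑ s ∈ all, (#((D \ B).filter (fun i => i ∉ univ.biUnion s)) : ℝ) =
      ∑ i ∈ D \ B, (#(all.filter (fun s => i ∉ univ.biUnion s)) : ℝ) := by
    have e1 : ∀ s ∈ all, (#((D \ B).filter (fun i => i ∉ univ.biUnion s)) : ℝ) =
        ∑ i ∈ D \ B, if i ∉ univ.biUnion s then (1 : ℝ) else 0 := by
      intro s _
      rw [← Finset.sum_filter, Finset.sum_const, nsmul_eq_mul, mul_one]
    have e2 : ∀ i ∈ D \ B, (#(all.filter (fun s => i ∉ univ.biUnion s)) : ℝ) =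
        ∑ s ∈ all, if i ∉ univ.biUnion s then (1 : ℝ) else 0 := by
      intro i _
      rw [← Finset.sum_filter, Finset.sum_const, nsmul_eq_mul, mul_one]
    rw [Finset.sum_congr rfl e1, Finset.sum_congr rfl e2, Finset.sum_comm]
  have h4 : ∑ i ∈ D \ B, (#(all.filter (fun s => i ∉ univ.biUnion s)) : ℝ) ≤
      (#D : ℝ) * ((#M : ℝ) ^ r * (μ / 4)) := by
    calc ∑ i ∈ D \ B, (#(all.filter (fun s => i ∉ univ.biUnion s)) : ℝ)
        ≤ ∑ i ∈ D \ B, ((#M : ℝ) ^ r * (μ / 4)) := by
          apply Finset.sum_le_sum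
          intro i hi
          obtain ⟨hi1, hi2⟩ := Finset.mem_sdiff.mp hi
          apply card_uncovered D k r μ M hk hkm hμ hr i
          by_contra hc
          exact hi2 (Finset.mem_filter.mpr ⟨hi1, not_le.mp hc⟩)
      _ = (#(D \ B) : ℝ) * ((#M : ℝ) ^ r * (μ / 4)) := by rw [Finset.sum_const, nsmul_eq_mul]
      _ ≤ _ := by
          apply mul_le_mul_of_nonneg_right _ (by positivity)
          exact_mod_cast Finset.card_le_card Finset.sdiff_subset
  have h5 : (bad.card : ℝ) * (μ * #D / 2) ≤ (#D : ℝ) * ((#M : ℝ) ^ r * (μ / 4)) := by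
    rw [h3] at h2
    exact le_trans h2 h4
  have h6 : 2 * (bad.card : ℝ) ≤ (#M : ℝ) ^ r := by
    have hp : 0 < μ * #D / 4 := by positivity
    have : (2 * (bad.card : ℝ)) * (μ * #D / 4) ≤ (#M : ℝ) ^ r * (μ * #D / 4) := by
      nlinarith [h5]
    exact le_of_mul_le_mul_right this hp
  exact_mod_cast h6

end Pool.Agent.R982.KS.Cover
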