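import Mathlib

/-!
# Waiter-Client and Client-Waiter k-SAT games (MP_fefad7_co): definitions and statements
-/

open Finset

namespace Pool.Agent.R982.KS

section Games

variable {α : Type} [DecidableEq α]

/-- The `(1:q)` Waiter-Client game.  `WCWaiter P q U S` : from the position in which `U` is the set
of unclaimed elements and `S` is the set of Client, Waiter can force that at the end of the game the
set of Client has the property `P`.  In each round Waiter offers exactly `q + 1` unclaimed elements,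
Client takes one of them, Waiter takes the others; if fewer than `q + 1` elements are unclaimed the
game is over (Waiter takes them all). -/
inductive WCWaiter (P : Finset α → Prop) (q : ℕ) : Finset α → Finset α → Prop
  | done (U S : Finset α) : #U < q + 1 → P S → WCWaiter P q U S
  | step (U S X : Finset α) : X ⊆ U → #X = q + 1 →
      (∀ c ∈ X, WCWaiter P q (U \ X) (insert c S)) → WCWaiter P q U S

/-- The `(1:q)` Client-Waiter game.  `CWWaiter P q U S` : from the position in which `U` is the set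
of unclaimed elements and `S` is the set of Client, Waiter can force that at the end of the game the
set of Client does not have the property `P`.  In each round Waiter offers between `1` and `q + 1`
unclaimed elements, Client takes one of them, Waiter takes the others; the game is over when all
elements are claimed. -/
inductive CWWaiter (P : Finset α → Prop) (q : ℕ) : Finset α → Finset α → Prop
  | done (S : Finset α) : ¬ P S → CWWaiter P q ∅ S
  | step (U S X : Finset α) : X ⊆ U → X.Nonempty → #X ≤ q + 1 →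
      (∀ c ∈ X, CWWaiter P q (U \ X) (insert c S)) → CWWaiter P q U S

/-- `S` meets all the sets `F ω`. -/
def Hit {Ω : Type} (F : Ω → Finset α) (S : Finset α) : Prop := ∀ ω, ∃ c ∈ S, c ∈ F ω

end Games

/-- Literals: `(i, true)` is `x_i`, `(i, false)` is `¬ x_i`. -/
abbrev Lit (n : ℕ) := Fin n × Bool

/-- The board: the `k`-clauses, sets of `k` literals with pairwise distinct variables. -/
def board (n k : ℕ) : Finset (Finset (Lit n)) :=
  (univ.powersetCard k).filter (fun c => ∀ x ∈ c, ∀ y ∈ c, x.1 = y.1 → x = y)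

/-- The assignment `a` satisfies the clause `c`. -/
def SatC {n : ℕ} (a : Fin n → Bool) (c : Finset (Lit n)) : Prop := ∃ x ∈ c, a x.1 = x.2

instance {n : ℕ} (a : Fin n → Bool) (c : Finset (Lit n)) : Decidable (SatC a c) := by
  unfold SatC; infer_instance

/-- The conjunction of the clauses of `S` is unsatisfiable. -/
def Unsat {n : ℕ} (S : Finset (Finset (Lit n))) : Prop := ∀ a : Fin n → Bool, ∃ c ∈ S, ¬ SatC a c

/-- The threshold bias of the Waiter-Client game: the least `q ≥ 1` for which Client wins. -/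
noncomputable def bWC (n k : ℕ) : ℕ := sInf {q | 1 ≤ q ∧ ¬ WCWaiter Unsat q (board n k) ∅}

/-- The threshold bias of the Client-Waiter game: the least `q ≥ 1` for which Waiter wins. -/
noncomputable def bCW (n k : ℕ) : ℕ := sInf {q | 1 ≤ q ∧ CWWaiter Unsat q (board n k) ∅}

/-- `(1/n) * (n choose k) * b⁻¹ / ln 2` for the Waiter-Client game. -/
noncomputable def ratioWC (n k : ℕ) : ℝ :=
  (1 / (n : ℝ)) * (n.choose k : ℝ) * ((bWC n k : ℝ)⁻¹ / Real.log 2)

/-- `(1/n) * (n choose k) * b⁻¹ / ln 2` for the Client-Waiter game. -/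
noncomputable def ratioCW (n k : ℕ) : ℝ :=
  (1 / (n : ℝ)) * (n.choose k : ℝ) * ((bCW n k : ℝ)⁻¹ / Real.log 2)

/-- The clauses (arbitrary sets of literals) falsified by `a`. -/
def Fal {n : ℕ} (a : Fin n → Bool) : Finset (Finset (Lit n)) := univ.filter (fun c => ¬ SatC a c)

/-! ## Statements -/

/-- KS-1 -/
def St_Mono : Prop :=
  (∀ (α : Type) [DecidableEq α] (P : Finset α → Prop) (_ : ∀ S S' : Finset α, S ⊆ S' → P S → P S')
      (q : ℕ) (U S : Finset α), P S → WCWaiter P q U S) ∧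
  (∀ (α : Type) [DecidableEq α] (P : Finset α → Prop) (_ : ∀ S S' : Finset α, S ⊆ S' → P S → P S')
      (q : ℕ) (U S : Finset α), WCWaiter P (q + 1) U S →
      ∀ U' S' : Finset α, U ⊆ U' → S ⊆ S' → WCWaiter P q U' S')

/-- KS-2 -/
def St_CWpot : Prop :=
  ∀ (α Ω : Type) [DecidableEq α] [Fintype Ω] [DecidableEq Ω] (F : Ω → Finset α) (q : ℕ)
    (U S : Finset α), CWWaiter (Hit F) q U S →
    1 ≤ ∑ ω with Disjoint (F ω) S, (1 - 1 / ((q : ℝ) + 1)) ^ #(F ω ∩ U)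

/-- KS-3 -/
def St_CWup : Prop :=
  ∀ n k q : ℕ, 1 ≤ k → 2 * (n - 1).choose (k - 1) ≤ q + 1 → CWWaiter Unsat q (board n k) ∅

/-- KS-4 -/
def St_Sample : Prop :=
  ∀ (α Ω : Type) [DecidableEq α] [Fintype Ω] (F : Ω → Finset α) (p : Ω → ℝ) (W : Finset α)
    (t : ℕ), (∀ ω, 0 ≤ p ω) → ∑ ω, p ω = 1 → 1 ≤ t → t ≤ #W →
    ∃ T ⊆ W, #T = t ∧
      ∑ ω, p ω * |(#(F ω ∩ T) : ℝ) / t - (#(F ω ∩ W) : ℝ) / #W| ≤ 1 / Real.sqrt t

/-- KS-5 -/
def St_Extremal : Prop :=
  ∀ (α Ω : Type) [DecidableEq α] [Fintype Ω] (F : Ω → Finset α) (p : Ω → ℝ) (R : Finset α)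
    (t : ℕ) (η : ℝ), (∀ ω, 0 ≤ p ω) → ∑ ω, p ω = 1 → 1 ≤ t → 0 < η →
    (t : ℝ) * Real.exp (2 / η) ≤ #R →
    ∃ W ⊆ R, t ≤ #W ∧ ∀ c ∈ W,
      ∑ ω, p ω * (((#(F ω ∩ W) : ℝ) / #W) * Real.exp ((#(F ω ∩ W) : ℝ) / #W)) - η ≤
        ∑ ω with c ∈ F ω, p ω * Real.exp ((#(F ω ∩ W) : ℝ) / #W)

/-- KS-6 -/
def St_Step : Prop :=
  ∀ (α Ω : Type) [DecidableEq α] [Fintype Ω] (F : Ω → Finset α) (w : Ω → ℝ) (R : Finset α)
    (t : ℕ) (δ : ℝ), (∀ ω, 0 ≤ w ω) → 1 ≤ t → 0 < δ → δ ≤ 1 → 144 / δ ^ 2 ≤ (t : ℝ) →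
    (t : ℝ) * Real.exp (4 / δ) ≤ #R →
    ∃ T ⊆ R, #T = t ∧ ∀ c ∈ T,
      ∑ ω with c ∉ F ω, w ω * Real.exp ((#(F ω ∩ T) : ℝ) / t) ≤ (1 + δ) * ∑ ω, w ω

/-- KS-7 -/
def St_WCpot : Prop :=
  ∀ (α Ω : Type) [DecidableEq α] [Fintype Ω] [DecidableEq Ω] (F : Ω → Finset α) (q : ℕ) (δ : ℝ)
    (U S : Finset α), 0 < δ → δ ≤ 1 → 144 / δ ^ 2 ≤ (q : ℝ) + 1 →
    (∑ ω with Disjoint (F ω) S, Real.exp (-((#(F ω ∩ U) : ℝ) / ((q : ℝ) + 1)))) *
      Real.exp (δ * (#U / ((q : ℝ) + 1)) + Real.exp (4 / δ)) < 1 →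
    WCWaiter (Hit F) q U S

/-- KS-8 -/
def St_Count : Prop :=
  ∀ n k : ℕ, #(board n k) = 2 ^ k * n.choose k ∧
    ∀ a : Fin n → Bool, #(Fal a ∩ board n k) = n.choose k

/-- KS-9 -/
def St_WCbig : Prop :=
  ∀ k : ℕ, 2 ≤ k → ∀ ε : ℝ, 0 < ε → ε < 1 → ∃ n0 : ℕ, ∀ n ≥ n0, ∀ q : ℕ,
    ((q : ℝ) + 1) * (n * Real.log 2) ≤ (1 - ε) * (n.choose k : ℝ) →
    WCWaiter Unsat q (board n k) ∅

/-- KS-10 -/
def St_Final : Prop :=
  ∀ k : ℕ, 2 ≤ k → ∀ ε : ℝ, 0 < ε → ∃ n0 : ℕ, ∀ n ≥ n0,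
    ratioWC n k ≤ 1 + ε ∧ ratioCW n k ≤ 1 + ε ∧ 1 / (2 * k * Real.log 2) ≤ ratioCW n k

end Pool.Agent.R982.KS
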