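import Pool.Agent.R982.KS.Defs

/-!
# Client-Waiter k-SAT game, the matching upper bound for the threshold bias (MP_fefad7_co):
statements
-/

open Finset

namespace Pool.Agent.R982.KS

/-- KT-1 (one compensated round).  `N = (J+1)^#Y` classes. -/
def St_R1 : Prop :=
  ∀ (α Ω Y : Type) [DecidableEq α] [Fintype Ω] [DecidableEq Ω] [Fintype Y] [DecidableEq Y]
    (F : Ω → Finset α) (π : Ω → Y) (w : Ω → ℝ) (R : Finset α) (t J : ℕ) (e τ : ℝ),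
    (∀ ω, 0 ≤ w ω) → 1 ≤ t → 0 < e → e ≤ 1 / 10 → 0 < τ → τ ≤ 1 / 6 → 1 ≤ (1 + e) ^ J * τ →
    36 * (Fintype.card Y : ℝ) ^ 2 / τ ^ 2 ≤ t →
    ((J + 1) ^ Fintype.card Y) * t ≤ #R →
    (∀ ω, w ω ≠ 0 → (#(F ω ∩ R) : ℝ) * ((J : ℝ) + 1) ^ Fintype.card Y ≤ e / 2 * #R) →
    ∃ T ⊆ R, #T = t ∧ ∀ c ∈ T, ∀ y,
      (1 - 3 * τ) * ∑ ω with π ω = y, w ω ≤
        ∑ ω with (π ω = y ∧ c ∉ F ω), w ω * Real.exp ((1 + 4 * e) * (#(F ω ∩ T) : ℝ) / t)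

section

variable {α Ω Y : Type} [DecidableEq α] [Fintype Ω] [DecidableEq Ω] [DecidableEq Y]

/-- The potential of the class `y` in the position `(U, S)`. -/
noncomputable def Psi (F : Ω → Finset α) (π : Ω → Y) (b t : ℝ) (y : Y) (U S : Finset α) : ℝ :=
  ∑ ω with (π ω = y ∧ Disjoint (F ω) S), Real.exp (-(b * (#(F ω ∩ U) : ℝ) / t))

/-- The part of the potential of the class `y` coming from the `ω` with `c ∈ F ω`. -/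
noncomputable def Psic (F : Ω → Finset α) (π : Ω → Y) (b t : ℝ) (y : Y) (U S : Finset α) (c : α) :
    ℝ :=
  ∑ ω with (π ω = y ∧ Disjoint (F ω) S ∧ c ∈ F ω), Real.exp (-(b * (#(F ω ∩ U) : ℝ) / t))

/-- `c` is light in the position `(U, S)`. -/
def Light (F : Ω → Finset α) (π : Ω → Y) (b t κ : ℝ) (U S : Finset α) (c : α) : Prop :=
  ∀ y, Psic F π b t y U S c ≤ κ * Psi F π b t y U S

end

open Classical in
/-- KT-2 (the light game). -/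
def St_Light : Prop :=
  ∀ (α Ω Y : Type) [DecidableEq α] [Fintype Ω] [DecidableEq Ω] [Fintype Y] [DecidableEq Y]
    (F : Ω → Finset α) (π : Ω → Y) (P : Finset α → Prop) (q J : ℕ) (e τ κ G : ℝ)
    (U0 V S : Finset α),
    0 < e → e ≤ 1 / 10 → 0 < τ → τ ≤ 1 / 6 → 1 ≤ (1 + e) ^ J * τ → 0 < κ → κ ≤ 1 / 2 →
    36 * (Fintype.card Y : ℝ) ^ 2 / τ ^ 2 ≤ (q : ℝ) + 1 →
    (∀ ω, (#(F ω ∩ U0) : ℝ) ≤ G) → Disjoint U0 V →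
    (∀ R S' : Finset α, R ⊆ U0 → S ⊆ S' → S' ⊆ S ∪ U0 →
      (∀ y, Real.exp (-(6 * τ * #U0 / ((q : ℝ) + 1) +
          8 * κ * (((J : ℝ) + 1) ^ Fintype.card Y * (1 + 2 / e * (G / ((q : ℝ) + 1)))))) *
          Psi F π (1 + 4 * e) ((q : ℝ) + 1) y U0 S ≤ Psi F π (1 + 4 * e) ((q : ℝ) + 1) y R S') →
      4 * #(R.filter (fun c => Light F π (1 + 4 * e) ((q : ℝ) + 1) κ R S' c)) ≤ q + 1 →
      CWWaiter P q (R ∪ V) S') →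
    CWWaiter P q (U0 ∪ V) S

/-- KT-3 -/
def St_Esymm : Prop :=
  ∀ (ι : Type) [DecidableEq ι] (D B : Finset ι) (k : ℕ), B ⊆ D → D.Nonempty →
    ∑ V ∈ D.powersetCard k, ((1 : ℝ) / 2) ^ #(V ∩ B) ≤
      ((#D).choose k : ℝ) * (1 - ((#B : ℝ) - k) / (2 * #D)) ^ k

/-- KT-4 (random sequences from a dense family of `k`-sets cover almost everything). -/
def St_Cover : Prop :=
  ∀ (ι : Type) [DecidableEq ι] (D : Finset ι) (k r : ℕ) (γ μ : ℝ) (M : Finset (Finset ι)),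
    (∀ V ∈ M, V ⊆ D ∧ #V = k) → 1 ≤ k → k ^ 2 ≤ #D → 0 < γ → γ ≤ 1 →
    γ * ((#D).choose k : ℝ) ≤ #M → 14 * Real.log (4 / γ) ≤ μ * k → 0 < μ → μ ≤ 1 →
    4 * (#D : ℝ) / k * Real.log (4 / μ) ≤ r →
    2 * #((Fintype.piFinset (fun _ : Fin r => M)).filter
      (fun s => ((#(univ.biUnion s) : ℕ) : ℝ) < (1 - μ) * #D)) ≤ #M ^ r

/-- The clauses with all variables `< m`. -/
def below (n k m : ℕ) : Finset (Finset (Lit n)) :=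
  (board n k).filter (fun c => ∀ x ∈ c, (x.1 : ℕ) < m)

/-- KT-5 (many heavy clauses force few assignments; finite form). -/
def St_HeavyFin : Prop :=
  ∀ (n m k r : ℕ) (η δ μ L : ℝ) (w : (Fin n → Bool) → ℝ) (z : Fin n → Bool)
    (H : Finset (Finset (Lit n))),
    m ≤ n → 1 ≤ k → k ^ 2 ≤ m → 0 < η → η ≤ 1 → 0 < δ → δ ≤ 1 → 0 < μ → μ ≤ 1 →
    (∀ a, 0 ≤ w a) → (∀ a, w a ≤ 1) → (∀ a, w a ≠ 0 → ∀ i : Fin n, m ≤ (i : ℕ) → a i = z i) →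
    L ≤ ∑ a, w a → 0 < L → H ⊆ below n k m →
    (∀ c ∈ H, η * ∑ a, w a ≤ ∑ a with c ∈ Fal a, w a) → δ * (m.choose k : ℝ) ≤ #H →
    14 * Real.log (8 / (η * δ)) ≤ μ * k → 4 * (m : ℝ) / k * Real.log (4 / μ) ≤ r →
    L * (η / 2) ^ (r + 1) / 2 ≤ (2 : ℝ) ^ (μ * m)

/-- KT-6 (few heavy clauses). -/
def St_Heavy : Prop :=
  ∀ (A : ℕ) (c0 : ℝ), 0 < c0 → ∃ K0 : ℕ, ∀ k ≥ K0, ∃ m0 : ℕ, ∀ m ≥ m0, ∀ n ≥ m,
    ∀ (w : (Fin n → Bool) → ℝ) (z : Fin n → Bool),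
    (∀ a, 0 ≤ w a) → (∀ a, w a ≤ 1) → (∀ a, w a ≠ 0 → ∀ i : Fin n, m ≤ (i : ℕ) → a i = z i) →
    Real.exp (c0 * m) ≤ ∑ a, w a →
    (#((below n k m).filter
      (fun c => (1 / (k : ℝ) ^ A) * ∑ a, w a ≤ ∑ a with c ∈ Fal a, w a)) : ℝ) ≤
      1 / (k : ℝ) ^ A * (m.choose k : ℝ)

/-- clauses inside `[0, m+g)` with exactly one variable `≥ m` -/
def one (n k m g : ℕ) : Finset (Finset (Lit n)) :=
  (below n k (m + g)).filter (fun c => #(c.filter (fun x => m ≤ (x.1 : ℕ))) = 1)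

/-- clauses inside `[0, m+g)` with at least two variables `≥ m` -/
def two (n k m g : ℕ) : Finset (Finset (Lit n)) :=
  (below n k (m + g)).filter (fun c => 2 ≤ #(c.filter (fun x => m ≤ (x.1 : ℕ))))

/-- the clauses with a variable `≥ m` -/
def above (n k m : ℕ) : Finset (Finset (Lit n)) :=
  (board n k).filter (fun c => ∃ x ∈ c, m ≤ (x.1 : ℕ))

/-- KT-7 (counting). -/
def St_BCount : Prop :=
  ∀ n k m g : ℕ, 2 ≤ k → m + g ≤ n →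
    #(one n k m g) ≤ 2 ^ k * (g * m.choose (k - 1)) ∧
    (∀ a : Fin n → Bool, #(Fal a ∩ one n k m g) ≤ g * m.choose (k - 1)) ∧
    #(two n k m g) ≤ 2 ^ k * (g ^ 2 * (m + g).choose (k - 2)) ∧
    (∀ (Hv : Finset (Finset (Lit n))),
      #((one n k m g).filter (fun c => c.filter (fun x => (x.1 : ℕ) < m) ∈ Hv)) ≤
        2 * g * #(Hv ∩ below n (k - 1) m))

/-- the assignments which vanish from `m` on and satisfy `S` -/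
def alive {n : ℕ} (m : ℕ) (S : Finset (Finset (Lit n))) : Finset (Fin n → Bool) :=
  univ.filter (fun a => (∀ i : Fin n, m ≤ (i : ℕ) → a i = false) ∧ ∀ c ∈ S, SatC a c)

/-- From the beginning of stage `m`, with at least `s` living assignments, Waiter wins. -/
def Pos (n k q m : ℕ) (s : ℝ) : Prop :=
  ∀ S : Finset (Finset (Lit n)), (∀ c ∈ S, ∀ x ∈ c, (x.1 : ℕ) < m) → s ≤ #(alive m S) →
    CWWaiter Unsat q (above n k m) S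

/-- KT-8 (a batch of `g` variables), `A = 2^g + 3`, `e = ε'`. -/
def St_Batch : Prop :=
  ∀ (g : ℕ) (e c0 : ℝ), 1 ≤ g → 0 < e → e ≤ 1 / 10 → 0 < c0 → ∃ K0 : ℕ, ∀ k ≥ K0, ∃ m0 : ℕ,
    ∀ (n m q : ℕ) (s s' : ℝ), m0 ≤ m → m + g ≤ n → (n.choose (k - 1) : ℝ) ≤ k * ((q : ℝ) + 1) →
    (m0 : ℝ) ≤ (q : ℝ) + 1 → (m0 : ℝ) * (n.choose (k - 2) : ℝ) ≤ (q : ℝ) + 1 →
    Real.exp (c0 * m) ≤
      s * Real.exp (-((1 + 10 * e) * (g * m.choose (k - 1)) / ((q : ℝ) + 1) + e * g)) →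
    s' ≤ 2 ^ (g - 1) *
      (s * Real.exp (-((1 + 10 * e) * (g * m.choose (k - 1)) / ((q : ℝ) + 1) + e * g))) →
    Pos n k q (m + g) s' → Pos n k q m s

/-- KT-8a (choice of parameters). -/
def St_Param : Prop :=
  ∀ (g : ℕ) (e : ℝ), 1 ≤ g → 0 < e → e ≤ 1 / 10 → ∃ K0 : ℕ, 2 ≤ K0 ∧ ∀ k ≥ K0, ∃ J : ℕ,
    1 ≤ (1 + e) ^ J * (e / 2 ^ k) ∧
    8 * (1 / ((k - 1 : ℕ) : ℝ) ^ (2 ^ g + 3)) *
      (((J : ℝ) + 1) ^ (2 ^ g) * (1 + 2 / e * (g * k))) ≤ e * g ∧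
    (2 : ℝ) ^ g * (2 * g) * (1 / ((k - 1 : ℕ) : ℝ) ^ (2 ^ g + 3)) * k ≤ 1 / 4

/-- KT-9a (start and iteration). -/
def St_Iter : Prop :=
  ∀ (n k q g M : ℕ) (σ : ℕ → ℝ), 1 ≤ g → 1 ≤ k → 1 ≤ M → M ≤ n → g ∣ (n - M) →
    2 ^ k * M.choose k ≤ q + 1 → σ M ≤ 2 ^ (M - 1) → 0 < σ n →
    (∀ m, M ≤ m → m + g ≤ n → Pos n k q (m + g) (σ (m + g)) → Pos n k q m (σ m)) →
    CWWaiter Unsat q (board n k) ∅

/-- KT-9 -/
def St_CWbig : Prop :=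
  ∀ ε : ℝ, 0 < ε → ε ≤ 1 → ∃ k0 : ℕ, ∀ k ≥ k0, ∃ n0 : ℕ, ∀ n ≥ n0, ∀ q : ℕ,
    (1 + ε) * (n.choose k : ℝ) ≤ ((q : ℝ) + 1) * (n * Real.log 2) →
    CWWaiter Unsat q (board n k) ∅

/-- KT-10 -/
def St_FinalCW : Prop :=
  ∀ ε : ℝ, 0 < ε → ∃ k0 : ℕ, ∀ k ≥ k0, ∃ n0 : ℕ, ∀ n ≥ n0, 1 - ε ≤ ratioCW n k

end Pool.Agent.R982.KS
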