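import Pool.Agent.R982.KS.Defs2

/-!
Piece KT-3: an inequality for elementary symmetric functions.
-/

open Finset

namespace Pool.Agent.R982.KS.Esymm

open Pool.Agent.R982.KS

variable {ι : Type} [DecidableEq ι]

/-- double counting -/
lemma double_count (D : Finset ι) (j : ℕ) (f : Finset ι → ℝ) :
    ∑ W ∈ D.powersetCard (j + 1), ∑ _v ∈ W, f W = ∑ V ∈ D.powersetCard j, ∑ v ∈ D \ V, f (insert v V) := by
  rw [Finset.sum_sigma', Finset.sum_sigma']
  refine Finset.sum_bij' (fun p _ => (⟨p.1.erase p.2, p.2⟩ : Σ _ : Finset ι, ι))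
    (fun p _ => (⟨insert p.2 p.1, p.2⟩ : Σ _ : Finset ι, ι)) ?_ ?_ ?_ ?_ ?_
  · rintro ⟨W, v⟩ h
    rw [Finset.mem_sigma, Finset.mem_powersetCard] at h
    obtain ⟨⟨h1, h2⟩, h3⟩ := h
    rw [Finset.mem_sigma, Finset.mem_powersetCard, Finset.mem_sdiff]
    refine ⟨⟨(Finset.erase_subset _ _).trans h1, ?_⟩, h1 h3, Finset.notMem_erase _ _⟩
    have := Finset.card_erase_of_mem h3
    simp only at *
    omega
  · rintro ⟨V, v⟩ h
    rw [Finset.mem_sigma, Finset.mem_powersetCard, Finset.mem_sdiff] at h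
    obtain ⟨⟨h1, h2⟩, h3, h4⟩ := h
    rw [Finset.mem_sigma, Finset.mem_powersetCard]
    refine ⟨⟨Finset.insert_subset h3 h1, ?_⟩, Finset.mem_insert_self _ _⟩
    have := Finset.card_insert_of_notMem h4
    simp only at *
    omega
  · rintro ⟨W, v⟩ h
    rw [Finset.mem_sigma] at h
    simp only [Finset.insert_erase h.2]
  · rintro ⟨V, v⟩ h
    rw [Finset.mem_sigma, Finset.mem_sdiff] at h
    simp only [Finset.erase_insert h.2.2]
  · rintro ⟨W, v⟩ h
    rw [Finset.mem_sigma] at h
    simp only [Finset.insert_erase h.2]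

lemma term_insert (B V : Finset ι) (v : ι) (hv : v ∉ V) :
    ((1 : ℝ) / 2) ^ #(insert v V ∩ B) = (1 / 2) ^ #(V ∩ B) * (if v ∈ B then 1 / 2 else 1) := by
  by_cases h : v ∈ B
  · rw [if_pos h, Finset.insert_inter_of_mem h, Finset.card_insert_of_notMem
      (fun h' => hv (Finset.mem_inter.1 h').1), pow_succ]
  · rw [if_neg h, Finset.insert_inter_of_notMem h, mul_one]

lemma sum_x (D B V : Finset ι) (hB : B ⊆ D) (hV : V ⊆ D) :
    ∑ v ∈ D \ V, (if v ∈ B then (1 : ℝ) / 2 else 1) = (#D : ℝ) - #V - (#(B \ V) : ℝ) / 2 := by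
  have h1 : ∀ v ∈ D \ V, (if v ∈ B then (1 : ℝ) / 2 else 1) = 1 - (if v ∈ B then (1 : ℝ) / 2 else 0) := by
    intro v _
    split_ifs <;> norm_num
  rw [Finset.sum_congr rfl h1, Finset.sum_sub_distrib, Finset.sum_const, nsmul_eq_mul, mul_one,
    ← Finset.sum_filter, Finset.sum_const, nsmul_eq_mul]
  have h2 : (D \ V).filter (fun v => v ∈ B) = B \ V := by
    ext v
    simp only [Finset.mem_filter, Finset.mem_sdiff]
    constructor
    · rintro ⟨⟨-, h⟩, h'⟩; exact ⟨h', h⟩
    · rintro ⟨h, h'⟩; exact ⟨⟨hB h, h'⟩, h⟩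
  have h3 : (#(D \ V) : ℝ) = #D - #V := by
    rw [Finset.card_sdiff_of_subset hV, Nat.cast_sub (Finset.card_le_card hV)]
  rw [h2, h3]
  ring

theorem esymm_ok : St_Esymm := by
  intro ι _ D B k hB hD
  have hm0 : 0 < #D := Finset.card_pos.2 hD
  have hm : (0 : ℝ) < #D := by exact_mod_cast hm0
  rcases lt_or_ge (#B) k with hk | hk
  · -- the easy case
    have hk' : (#B : ℝ) - k ≤ 0 := by
      have : (#B : ℝ) < k := by exact_mod_cast hk
      linarith
    have h1 : (1 : ℝ) ≤ 1 - ((#B : ℝ) - k) / (2 * #D) := by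
      have : ((#B : ℝ) - k) / (2 * #D) ≤ 0 := div_nonpos_of_nonpos_of_nonneg hk' (by positivity)
      linarith
    calc ∑ V ∈ D.powersetCard k, ((1 : ℝ) / 2) ^ #(V ∩ B) ≤ ∑ V ∈ D.powersetCard k, (1 : ℝ) :=
          Finset.sum_le_sum fun V _ => pow_le_one₀ (by norm_num) (by norm_num)
      _ = ((#D).choose k : ℝ) := by
          rw [Finset.sum_const, Finset.card_powersetCard, nsmul_eq_mul, mul_one]
      _ ≤ _ := le_mul_of_one_le_right (Nat.cast_nonneg _) (one_le_pow₀ h1)
  · have hk' : (0 : ℝ) ≤ (#B : ℝ) - k := by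
      have : (k : ℝ) ≤ #B := by exact_mod_cast hk
      linarith
    have hBD : #B ≤ #D := Finset.card_le_card hB
    have hBD' : (#B : ℝ) ≤ #D := by exact_mod_cast hBD
    obtain ⟨ρ, hρ⟩ : ∃ ρ : ℝ, ρ = 1 - ((#B : ℝ) - k) / (2 * #D) := ⟨_, rfl⟩
    have hρ0 : 0 ≤ ρ := by
      rw [hρ]
      have : ((#B : ℝ) - k) / (2 * #D) ≤ 1 := by
        rw [div_le_one (by positivity)]
        have : (0 : ℝ) ≤ k := Nat.cast_nonneg k
        linarith
      linarith
    rw [← hρ]
    have key : ∀ j : ℕ, j ≤ k → ∑ V ∈ D.powersetCard j, ((1 : ℝ) / 2) ^ #(V ∩ B) ≤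
        ((#D).choose j : ℝ) * ρ ^ j := by
      intro j
      induction j with
      | zero =>
        intro _
        simp
      | succ j ih =>
        intro hj
        have ih' := ih (by omega)
        have hjD : j ≤ #D := by omega
        have h1 : ((j : ℝ) + 1) * ∑ W ∈ D.powersetCard (j + 1), ((1 : ℝ) / 2) ^ #(W ∩ B)
            = ∑ V ∈ D.powersetCard j, ((1 : ℝ) / 2) ^ #(V ∩ B) *
              ∑ v ∈ D \ V, (if v ∈ B then (1 : ℝ) / 2 else 1) := by
          have h2 := double_count D j (fun W => ((1 : ℝ) / 2) ^ #(W ∩ B))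
          have h3 : ∑ W ∈ D.powersetCard (j + 1), ∑ _v ∈ W, ((1 : ℝ) / 2) ^ #(W ∩ B)
              = ((j : ℝ) + 1) * ∑ W ∈ D.powersetCard (j + 1), ((1 : ℝ) / 2) ^ #(W ∩ B) := by
            rw [Finset.mul_sum]
            refine Finset.sum_congr rfl fun W hW => ?_
            rw [Finset.sum_const, nsmul_eq_mul, (Finset.mem_powersetCard.1 hW).2]
            push_cast
            ring
          rw [← h3, h2]
          refine Finset.sum_congr rfl fun V _ => ?_
          rw [Finset.mul_sum]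
          refine Finset.sum_congr rfl fun v hv => ?_
          exact term_insert B V v (Finset.mem_sdiff.1 hv).2
        have h4 : ∀ V ∈ D.powersetCard j, ((1 : ℝ) / 2) ^ #(V ∩ B) *
            ∑ v ∈ D \ V, (if v ∈ B then (1 : ℝ) / 2 else 1) ≤
            ((1 : ℝ) / 2) ^ #(V ∩ B) * (((#D : ℝ) - j) * ρ) := by
          intro V hV
          rw [Finset.mem_powersetCard] at hV
          refine mul_le_mul_of_nonneg_left ?_ (by positivity)
          rw [sum_x D B V hB hV.1, hV.2]
          have h5 : #B ≤ #(B \ V) + j := by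
            have := Finset.card_le_card_sdiff_add_card (s := B) (t := V)
            omega
          have h5' : (#B : ℝ) ≤ #(B \ V) + j := by exact_mod_cast h5
          have hj' : (j : ℝ) ≤ k := by
            have : j ≤ k := by omega
            exact_mod_cast this
          have hjD' : (j : ℝ) ≤ #D := by exact_mod_cast hjD
          have h6 : ((#D : ℝ) - j) * ρ = ((#D : ℝ) - j) - (((#D : ℝ) - j) / #D) * (((#B : ℝ) - k) / 2) := by
            rw [hρ]; field_simp
          have h7 : ((#D : ℝ) - j) / #D ≤ 1 := by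
            rw [div_le_one hm]
            have : (0 : ℝ) ≤ j := Nat.cast_nonneg j
            linarith
          have h8 : (((#D : ℝ) - j) / #D) * (((#B : ℝ) - k) / 2) ≤ 1 * (((#B : ℝ) - k) / 2) :=
            mul_le_mul_of_nonneg_right h7 (by linarith)
          rw [h6]
          linarith
        have h9 := Finset.sum_le_sum h4
        rw [← h1, ← Finset.sum_mul] at h9
        have h10 : (((#D).choose (j + 1) : ℕ) : ℝ) * ((j : ℝ) + 1) = ((#D).choose j : ℝ) * ((#D : ℝ) - j) := by
          have h11 := Nat.choose_succ_right_eq (#D) j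
          have h12 : (((#D).choose (j + 1) * (j + 1) : ℕ) : ℝ) = (((#D).choose j * (#D - j) : ℕ) : ℝ) := by
            rw [h11]
          rw [Nat.cast_mul, Nat.cast_mul, Nat.cast_sub hjD] at h12
          push_cast at h12
          exact h12
        have hjD' : (j : ℝ) ≤ #D := by exact_mod_cast hjD
        have h13 : (∑ V ∈ D.powersetCard j, ((1 : ℝ) / 2) ^ #(V ∩ B)) * (((#D : ℝ) - j) * ρ)
            ≤ (((#D).choose j : ℝ) * ρ ^ j) * (((#D : ℝ) - j) * ρ) :=
          mul_le_mul_of_nonneg_right ih' (mul_nonneg (by linarith) hρ0)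
        have h14 : (((#D).choose j : ℝ) * ρ ^ j) * (((#D : ℝ) - j) * ρ)
            = ((j : ℝ) + 1) * ((((#D).choose (j + 1) : ℕ) : ℝ) * ρ ^ (j + 1)) := by
          calc (((#D).choose j : ℝ) * ρ ^ j) * (((#D : ℝ) - j) * ρ)
              = (((#D).choose j : ℝ) * ((#D : ℝ) - j)) * ρ ^ (j + 1) := by ring
            _ = _ := by rw [← h10]; ring
        have h15 : (0 : ℝ) < (j : ℝ) + 1 := by positivity
        exact le_of_mul_le_mul_left ((h9.trans h13).trans (le_of_eq h14)) h15
    exact key k le_rfl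

end Pool.Agent.R982.KS.Esymm
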