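import Pool.Agent.R982.KS.Defs

/-! # Project KS, piece KS-5: an extremal set -/

set_option autoImplicit false

open Finset

namespace Pool.Agent.R982.KS.Extremal

theorem extremal_ok : St_Extremal := by
  classical
  intro α Ω _ _ F p R t η hp hp1 ht hη hR
  -- notation
  let u : Finset α → Ω → ℝ := fun W ω => (#(F ω ∩ W) : ℝ) / #W
  let G : Finset α → ℝ := fun W => ∑ ω, p ω * Real.exp (u W ω)
  let Φ : Finset α → ℝ := fun W => G W + η * Real.log #W
  have htr : (1 : ℝ) ≤ t := by exact_mod_cast ht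
  have hexp1 : (1 : ℝ) ≤ Real.exp (2 / η) := Real.one_le_exp (by positivity)
  have htR' : (t : ℝ) ≤ #R := by nlinarith
  have htR : t ≤ #R := by exact_mod_cast htR'
  have hu0 : ∀ W ω, 0 ≤ u W ω := fun W ω => by positivity
  have hu1 : ∀ W ω, u W ω ≤ 1 := by
    intro W ω
    apply div_le_one_of_le₀
    · exact_mod_cast card_le_card inter_subset_right
    · positivity
  have hG1 : ∀ W, 1 ≤ G W := by
    intro W
    calc (1 : ℝ) = ∑ ω, p ω * 1 := by simp only [mul_one, hp1]
      _ ≤ G W := sum_le_sum fun ω _ =>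
          mul_le_mul_of_nonneg_left (Real.one_le_exp (hu0 W ω)) (hp ω)
  have hGe : ∀ W, G W ≤ Real.exp 1 := by
    intro W
    calc G W ≤ ∑ ω, p ω * Real.exp 1 := sum_le_sum fun ω _ =>
          mul_le_mul_of_nonneg_left (Real.exp_le_exp.2 (hu1 W ω)) (hp ω)
      _ = Real.exp 1 := by rw [← sum_mul, hp1, one_mul]
  -- the maximal set
  obtain ⟨W, hW, hmax⟩ := exists_max_image (R.powerset.filter (fun W => t ≤ #W)) Φ
    ⟨R, mem_filter.2 ⟨mem_powerset.2 (Subset.refl _), htR⟩⟩
  rw [mem_filter, mem_powerset] at hW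
  obtain ⟨hWR, htW⟩ := hW
  have hWt : t + 1 ≤ #W := by
    by_contra hcon
    have hWeq : #W = t := by omega
    have h1 := hmax R (mem_filter.2 ⟨mem_powerset.2 (Subset.refl _), htR⟩)
    have h2 : Φ W ≤ Real.exp 1 + η * Real.log t := by
      change G W + η * Real.log #W ≤ _
      rw [hWeq]
      linarith [hGe W]
    have h3 : Real.log t + 2 / η ≤ Real.log #R := by
      have h4 : Real.log ((t : ℝ) * Real.exp (2 / η)) ≤ Real.log #R :=
        Real.log_le_log (by positivity) hR
      rwa [Real.log_mul (by positivity) (by positivity), Real.log_exp] at h4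
    have h5 : η * Real.log t + 2 ≤ η * Real.log #R := by
      have h6 := mul_le_mul_of_nonneg_left h3 hη.le
      have h7 : η * (Real.log t + 2 / η) = η * Real.log t + 2 := by
        field_simp
      linarith
    have h8 : 1 + (η * Real.log t + 2) ≤ Φ R := by
      change _ ≤ G R + η * Real.log #R
      linarith [hG1 R]
    have h9 := Real.exp_one_lt_d9
    linarith
  refine ⟨W, hWR, htW, ?_⟩
  intro c hc
  have hNcard : #(W.erase c) = #W - 1 := card_erase_of_mem hc
  have hN1 : ((#(W.erase c) : ℕ) : ℝ) = (#W : ℝ) - 1 := by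
    rw [hNcard, Nat.cast_sub (by omega), Nat.cast_one]
  obtain ⟨N, hN⟩ : ∃ N : ℝ, N = (#W : ℝ) := ⟨_, rfl⟩
  have hN2 : 2 ≤ N := by
    rw [hN]
    have : 2 ≤ #W := by omega
    exact_mod_cast this
  have h1 := hmax (W.erase c) (mem_filter.2 ⟨mem_powerset.2 ((erase_subset _ _).trans hWR),
    by rw [hNcard]; omega⟩)
  -- change of `u`
  have hcard : ∀ ω, ((#(F ω ∩ W.erase c) : ℕ) : ℝ) =
      (#(F ω ∩ W) : ℝ) - (if c ∈ F ω then 1 else 0) := by
    intro ω
    have h2 : F ω ∩ W.erase c = (F ω ∩ W).erase c := by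
      ext x
      simp only [mem_inter, mem_erase]
      tauto
    rw [h2]
    by_cases hcF : c ∈ F ω
    · have h3 : c ∈ F ω ∩ W := mem_inter.2 ⟨hcF, hc⟩
      rw [card_erase_of_mem h3, if_pos hcF, Nat.cast_sub (card_pos.2 ⟨c, h3⟩), Nat.cast_one]
    · rw [erase_eq_of_notMem (fun h => hcF (mem_inter.1 h).1), if_neg hcF, sub_zero]
  have hdu : ∀ ω, u (W.erase c) ω - u W ω =
      (u W ω - (if c ∈ F ω then 1 else 0)) / (N - 1) := by
    intro ω
    change ((#(F ω ∩ W.erase c) : ℕ) : ℝ) / ((#(W.erase c) : ℕ) : ℝ) - (#(F ω ∩ W) : ℝ) / #W =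
      ((#(F ω ∩ W) : ℝ) / #W - (if c ∈ F ω then 1 else 0)) / (N - 1)
    rw [hcard ω, hN1, ← hN]
    have h3 : N ≠ 0 := by linarith
    have h4 : N - 1 ≠ 0 := by linarith
    field_simp
    ring
  have hstep : ∀ ω, p ω * Real.exp (u W ω) +
      (p ω * (u W ω * Real.exp (u W ω)) -
        (if c ∈ F ω then p ω * Real.exp (u W ω) else 0)) / (N - 1) ≤
        p ω * Real.exp (u (W.erase c) ω) := by
    intro ω
    have h3 : Real.exp (u W ω) * (1 + (u (W.erase c) ω - u W ω)) ≤ Real.exp (u (W.erase c) ω) := by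
      have h4 := Real.add_one_le_exp (u (W.erase c) ω - u W ω)
      have h5 : Real.exp (u (W.erase c) ω) =
          Real.exp (u W ω) * Real.exp (u (W.erase c) ω - u W ω) := by
        rw [← Real.exp_add]; congr 1; ring
      rw [h5]
      exact mul_le_mul_of_nonneg_left (by linarith) (Real.exp_pos _).le
    have h6 := mul_le_mul_of_nonneg_left h3 (hp ω)
    refine le_trans (le_of_eq ?_) h6
    rw [hdu ω]
    by_cases hcF : c ∈ F ω
    · rw [if_pos hcF, if_pos hcF]; ring
    · rw [if_neg hcF, if_neg hcF]; ring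
  have hsum : G W + ((∑ ω, p ω * (u W ω * Real.exp (u W ω))) -
      ∑ ω, (if c ∈ F ω then p ω * Real.exp (u W ω) else 0)) / (N - 1) ≤ G (W.erase c) := by
    have h2 := sum_le_sum (s := (univ : Finset Ω)) fun ω _ => hstep ω
    rw [sum_add_distrib, ← sum_div, sum_sub_distrib] at h2
    exact h2
  have hlog : Real.log N - Real.log (N - 1) ≤ 1 / (N - 1) := by
    have h3 : 0 < N - 1 := by linarith
    rw [← Real.log_div (by linarith) h3.ne']
    have h4 := Real.log_le_sub_one_of_pos (x := N / (N - 1)) (div_pos (by linarith) h3)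
    refine h4.trans (le_of_eq ?_)
    field_simp
    ring
  have h1' : G (W.erase c) + η * Real.log (N - 1) ≤ G W + η * Real.log N := by
    have h2 : G (W.erase c) + η * Real.log ((#(W.erase c) : ℕ) : ℝ) ≤
      G W + η * Real.log (#W : ℝ) := h1
    rwa [hN1, ← hN] at h2
  have hfin : ((∑ ω, p ω * (u W ω * Real.exp (u W ω))) -
      ∑ ω, (if c ∈ F ω then p ω * Real.exp (u W ω) else 0)) / (N - 1) ≤ η / (N - 1) := by
    have h3 := mul_le_mul_of_nonneg_left hlog hη.le
    have h4 : η * (1 / (N - 1)) = η / (N - 1) := by ring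
    have h5 : η * (Real.log N - Real.log (N - 1)) = η * Real.log N - η * Real.log (N - 1) := by
      ring
    linarith
  have hN0 : 0 < N - 1 := by linarith
  have hfin2 := (div_le_div_iff_of_pos_right hN0).1 hfin
  have hfil : ∑ ω with c ∈ F ω, p ω * Real.exp ((#(F ω ∩ W) : ℝ) / #W) =
      ∑ ω, (if c ∈ F ω then p ω * Real.exp (u W ω) else 0) := by
    rw [sum_filter]
  rw [hfil]
  change (∑ ω, p ω * (u W ω * Real.exp (u W ω))) - η ≤ _
  linarith

end Pool.Agent.R982.KS.Extremal
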