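import Pool.Agent.R982.KS.Defs

/-! KS-10 (helper451): assembly -/

open Finset

namespace Pool.Agent.R982.KS.Final

open Pool.Agent.R982.KS

lemma log2_pos : 0 < Real.log 2 := Real.log_pos (by norm_num)

lemma log2_le : Real.log 2 ≤ 1 := by
  have := Real.log_two_lt_d9
  linarith

lemma choose_large (k : ℕ) (hk : 2 ≤ k) (B : ℝ) :
    ∃ n0 : ℕ, ∀ n ≥ n0, B * (n * Real.log 2) ≤ (n.choose k : ℝ) := by
  obtain ⟨m, hm⟩ := exists_nat_ge (4 * (k.factorial : ℝ) * |B|)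
  refine ⟨max (max m (2 * k)) 4, fun n hn => ?_⟩
  have hnm : m ≤ n := le_trans (le_trans (le_max_left _ _) (le_max_left _ _)) hn
  have hn2 : 2 * k ≤ n := le_trans (le_trans (le_max_right _ _) (le_max_left _ _)) hn
  have hn4 : 4 ≤ n := le_trans (le_max_right _ _) hn
  have hf : (0 : ℝ) < k.factorial := by exact_mod_cast Nat.factorial_pos k
  have h1 : (((n + 1 - k : ℕ) : ℝ)) ^ k ≤ k.factorial * n.choose k := by
    have h0 : (((n + 1 - k : ℕ) : ℝ)) ^ k / (k.factorial : ℝ) ≤ n.choose k := Nat.pow_le_choose k n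
    rw [div_le_iff₀ hf] at h0
    linarith
  have hx : (n : ℝ) / 2 ≤ ((n + 1 - k : ℕ) : ℝ) := by
    have h2 : n ≤ 2 * (n + 1 - k) := by omega
    have h3 : (n : ℝ) ≤ 2 * ((n + 1 - k : ℕ) : ℝ) := by exact_mod_cast h2
    linarith
  have hnr : (4 : ℝ) ≤ n := by exact_mod_cast hn4
  set x : ℝ := ((n + 1 - k : ℕ) : ℝ) with hxd
  have hx1 : 1 ≤ x := by linarith
  have h2 : x ^ 2 ≤ x ^ k := pow_le_pow_right₀ hx1 hk
  have h3 : (n : ℝ) ^ 2 / 4 ≤ x ^ 2 := by nlinarith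
  have h4 : (n : ℝ) ^ 2 / 4 ≤ k.factorial * n.choose k := le_trans h3 (le_trans h2 h1)
  have hmn : (m : ℝ) ≤ n := by exact_mod_cast hnm
  have h5 : 4 * (k.factorial : ℝ) * |B| ≤ n := le_trans hm hmn
  have h6 : (k.factorial : ℝ) * (|B| * n) ≤ k.factorial * n.choose k := by
    refine le_trans ?_ h4
    nlinarith
  have h7 : |B| * n ≤ n.choose k := le_of_mul_le_mul_left h6 hf
  refine le_trans ?_ h7
  have hl := log2_le
  have hl0 := log2_pos
  have hB := le_abs_self B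
  have hB0 := abs_nonneg B
  have h8 : (n : ℝ) * Real.log 2 ≤ n := by nlinarith
  calc B * (n * Real.log 2) ≤ |B| * (n * Real.log 2) :=
        mul_le_mul_of_nonneg_right hB (by positivity)
    _ ≤ |B| * n := mul_le_mul_of_nonneg_left h8 hB0

lemma ratio_le {C L e b : ℝ} (he : 0 < e) (he1 : e ≤ 1) (hL : 0 < L) (hb : 1 ≤ b)
    (hC : ((1 + 4 / e) * 2) * L ≤ C) (h : (1 - e / 4) * C ≤ (b + 1) * L) :
    C / (L * b) ≤ 1 + e := by
  have hb0 : 0 < b := by linarith
  have h1 : 4 / e ≤ b := by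
    have h2 : (1 + 4 / e) * L ≤ (b + 1) * L := by
      have h3 : 0 ≤ (1 + 4 / e) * L := by positivity
      nlinarith
    have h4 := le_of_mul_le_mul_right h2 hL
    linarith
  have h5 : 4 ≤ b * e := by
    rw [div_le_iff₀ he] at h1
    exact h1
  rw [div_le_iff₀ (by positivity)]
  -- C (1 - e/4) ≤ (b+1) L ≤ (1+e)(1-e/4) b L
  have h6 : b + 1 ≤ (1 + e) * (1 - e / 4) * b := by
    nlinarith
  have h7 : (1 - e / 4) * C ≤ (1 - e / 4) * ((1 + e) * (L * b)) := by
    calc (1 - e / 4) * C ≤ (b + 1) * L := h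
      _ ≤ ((1 + e) * (1 - e / 4) * b) * L := mul_le_mul_of_nonneg_right h6 hL.le
      _ = (1 - e / 4) * ((1 + e) * (L * b)) := by ring
  exact le_of_mul_le_mul_left h7 (by linarith)

lemma hit_eq {n : ℕ} : (Unsat : Finset (Finset (Lit n)) → Prop) = Hit (Fal (n := n)) := by
  funext S
  apply propext
  unfold Unsat Hit Fal
  simp

lemma unsat_empty {n : ℕ} : ¬ Unsat (∅ : Finset (Finset (Lit n))) := by
  intro h
  obtain ⟨c, hc, -⟩ := h (fun _ => true)
  simp at hc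

lemma wc_mem (n k : ℕ) : 1 ≤ bWC n k ∧ ¬ WCWaiter Unsat (bWC n k) (board n k) ∅ := by
  have hne : {q | 1 ≤ q ∧ ¬ WCWaiter Unsat q (board n k) ∅}.Nonempty := by
    refine ⟨#(board n k) + 1, by omega, ?_⟩
    intro h
    cases h with
    | done _ _ _ h2 => exact unsat_empty h2
    | step _ _ X h1 h2 _ =>
      have := card_le_card h1
      omega
  exact Nat.sInf_mem hne

lemma cw_mem (h3 : St_CWup) (n k : ℕ) (hk : 1 ≤ k) (hn : k ≤ n) :
    1 ≤ bCW n k ∧ CWWaiter Unsat (bCW n k) (board n k) ∅ ∧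
      bCW n k ≤ 2 * (n - 1).choose (k - 1) := by
  have hc : 1 ≤ (n - 1).choose (k - 1) := Nat.choose_pos (by omega)
  have hmem : (2 * (n - 1).choose (k - 1) - 1) ∈ {q | 1 ≤ q ∧ CWWaiter Unsat q (board n k) ∅} := by
    refine ⟨by omega, h3 n k _ hk (by omega)⟩
  have h4 := Nat.sInf_mem ⟨_, hmem⟩
  refine ⟨h4.1, h4.2, ?_⟩
  have h5 : bCW n k ≤ 2 * (n - 1).choose (k - 1) - 1 := Nat.sInf_le hmem
  omega

lemma cw_bound (h2 : St_CWpot) (h8 : St_Count) (n k b : ℕ)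
    (h : CWWaiter Unsat b (board n k) ∅) :
    (n.choose k : ℝ) ≤ ((b : ℝ) + 1) * (n * Real.log 2) := by
  rw [hit_eq] at h
  have h4 := h2 (Finset (Lit n)) (Fin n → Bool) Fal b (board n k) ∅ h
  have hb : (0 : ℝ) < (b : ℝ) + 1 := by positivity
  have hx0 : 0 ≤ 1 - 1 / ((b : ℝ) + 1) := by
    rw [sub_nonneg, div_le_one hb]
    have : (0 : ℝ) ≤ b := Nat.cast_nonneg b
    linarith
  have h5 : ∑ ω with Disjoint (Fal ω) (∅ : Finset (Finset (Lit n))),
      (1 - 1 / ((b : ℝ) + 1)) ^ #(Fal ω ∩ board n k) ≤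
      ∑ _ω : Fin n → Bool, Real.exp (-((n.choose k : ℝ) / ((b : ℝ) + 1))) := by
    refine le_trans (sum_le_sum_of_subset_of_nonneg (subset_univ _) (fun _ _ _ => pow_nonneg hx0 _)) ?_
    apply sum_le_sum
    intro ω _
    rw [(h8 n k).2 ω]
    have h6 : 1 - 1 / ((b : ℝ) + 1) ≤ Real.exp (-(1 / ((b : ℝ) + 1))) := Real.one_sub_le_exp_neg _
    refine le_trans (pow_le_pow_left₀ hx0 h6 _) (le_of_eq ?_)
    rw [← Real.exp_nat_mul]
    congr 1
    ring
  have h7 : (1 : ℝ) ≤ 2 ^ n * Real.exp (-((n.choose k : ℝ) / ((b : ℝ) + 1))) := by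
    refine le_trans h4 (le_trans h5 (le_of_eq ?_))
    rw [sum_const, card_univ, Fintype.card_fun, Fintype.card_bool, Fintype.card_fin, nsmul_eq_mul]
    push_cast
    ring
  have h8' : (2 : ℝ) ^ n = Real.exp (n * Real.log 2) := by
    rw [mul_comm, Real.exp_mul, Real.exp_log (by norm_num), Real.rpow_natCast]
  rw [h8', ← Real.exp_add, Real.one_le_exp_iff] at h7
  have h9 : (n.choose k : ℝ) / ((b : ℝ) + 1) ≤ n * Real.log 2 := by linarith
  rw [div_le_iff₀ hb] at h9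
  linarith

theorem final_of (h2 : St_CWpot) (h3 : St_CWup) (h8 : St_Count) (h9 : St_WCbig) : St_Final := by
  intro k hk ε hε
  set e : ℝ := min ε 1 with he
  have he0 : 0 < e := lt_min hε one_pos
  have he1 : e ≤ 1 := min_le_right _ _
  have heε : e ≤ ε := min_le_left _ _
  obtain ⟨n1, hn1⟩ := choose_large k hk ((1 + 4 / e) * 2)
  obtain ⟨n2, hn2⟩ := h9 k hk (e / 4) (by positivity) (by linarith)
  refine ⟨max (max n1 n2) (k + 1), fun n hn => ?_⟩
  have hnn1 : n1 ≤ n := le_trans (le_trans (le_max_left _ _) (le_max_left _ _)) hn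
  have hnn2 : n2 ≤ n := le_trans (le_trans (le_max_right _ _) (le_max_left _ _)) hn
  have hnk : k + 1 ≤ n := le_trans (le_max_right _ _) hn
  have hnpos : (0 : ℝ) < n := by
    have : 0 < n := by omega
    exact_mod_cast this
  have hl0 := log2_pos
  have hL : 0 < (n : ℝ) * Real.log 2 := by positivity
  have hCL := hn1 n hnn1
  have hC0 : (0 : ℝ) ≤ n.choose k := Nat.cast_nonneg _
  have hrat : ∀ b : ℝ, 1 ≤ b → (1 / (n : ℝ)) * (n.choose k : ℝ) * (b⁻¹ / Real.log 2)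
      = (n.choose k : ℝ) / ((n * Real.log 2) * b) := by
    intro b hb
    have : b ≠ 0 := by linarith
    field_simp
  obtain ⟨hw1, hw2⟩ := wc_mem n k
  obtain ⟨hc1, hc2, hc3⟩ := cw_mem h3 n k (by omega) (by omega)
  have hw1' : (1 : ℝ) ≤ (bWC n k : ℝ) := by exact_mod_cast hw1
  have hc1' : (1 : ℝ) ≤ (bCW n k : ℝ) := by exact_mod_cast hc1
  refine ⟨?_, ?_, ?_⟩
  · unfold ratioWC
    rw [hrat _ hw1']
    refine le_trans (ratio_le he0 he1 hL hw1' hCL ?_) (by linarith)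
    by_contra hcon
    push Not at hcon
    exact hw2 (hn2 n hnn2 _ hcon.le)
  · unfold ratioCW
    rw [hrat _ hc1']
    refine le_trans (ratio_le he0 he1 hL hc1' hCL ?_) (by linarith)
    have h10 := cw_bound h2 h8 n k _ hc2
    refine le_trans ?_ h10
    nlinarith
  · unfold ratioCW
    rw [hrat _ hc1']
    have hk0 : (0 : ℝ) < k := by
      have : 0 < k := by omega
      exact_mod_cast this
    rw [div_le_div_iff₀ (by positivity) (by positivity), one_mul]
    have h11 : n * (n - 1).choose (k - 1) = k * n.choose k := by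
      obtain ⟨n', rfl⟩ : ∃ n', n = n' + 1 := ⟨n - 1, by omega⟩
      obtain ⟨k', rfl⟩ : ∃ k', k = k' + 1 := ⟨k - 1, by omega⟩
      have h12 := Nat.add_one_mul_choose_eq n' k'
      simp only [Nat.add_sub_cancel]
      rw [h12]
      ring
    have h12 : n * bCW n k ≤ 2 * (k * n.choose k) := by
      rw [← h11]
      calc n * bCW n k ≤ n * (2 * (n - 1).choose (k - 1)) := Nat.mul_le_mul_left _ hc3
        _ = 2 * (n * (n - 1).choose (k - 1)) := by ring
    have h13 : (n : ℝ) * (bCW n k : ℝ) ≤ 2 * ((k : ℝ) * (n.choose k : ℝ)) := by exact_mod_cast h12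
    calc (n : ℝ) * Real.log 2 * (bCW n k : ℝ) = (n * (bCW n k : ℝ)) * Real.log 2 := by ring
      _ ≤ (2 * ((k : ℝ) * (n.choose k : ℝ))) * Real.log 2 := mul_le_mul_of_nonneg_right h13 hl0.le
      _ = (n.choose k : ℝ) * (2 * k * Real.log 2) := by ring

end Pool.Agent.R982.KS.Final
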