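import Pool.Agent.R982.KS.Defs2
import Pool.Agent.R982.KS.Final

/-! KT-10 (helper850): the ratio for the Client-Waiter game -/

open Finset

namespace Pool.Agent.R982.KS.FinalCW

open Pool.Agent.R982.KS

theorem finalcw_of (h9 : St_CWbig) : St_FinalCW := by
  intro ε hε
  obtain ⟨e, he⟩ : ∃ e, e = min ε 1 := ⟨_, rfl⟩
  have he0 : 0 < e := by rw [he]; exact lt_min hε one_pos
  have he1 : e ≤ 1 := by rw [he]; exact min_le_right _ _
  have heε : e ≤ ε := by rw [he]; exact min_le_left _ _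
  obtain ⟨k0, hk0⟩ := h9 (e / 4) (by linarith) (by linarith)
  refine ⟨max k0 2, fun k hk => ?_⟩
  obtain ⟨n0, hn0⟩ := hk0 k (le_trans (le_max_left _ _) hk)
  obtain ⟨n1, hn1⟩ := Final.choose_large k (le_trans (le_max_right _ _) hk) 2
  refine ⟨max (max n0 n1) 1, fun n hn => ?_⟩
  have hnn0 : n0 ≤ n := le_trans (le_trans (le_max_left _ _) (le_max_left _ _)) hn
  have hnn1 : n1 ≤ n := le_trans (le_trans (le_max_right _ _) (le_max_left _ _)) hn
  have hnn2 : 1 ≤ n := le_trans (le_max_right _ _) hn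
  have hnr : (0 : ℝ) < n := by exact_mod_cast hnn2
  have hlog := Final.log2_pos
  have hC := hn1 n hnn1
  obtain ⟨L, hL⟩ : ∃ L : ℝ, L = n * Real.log 2 := ⟨_, rfl⟩
  have hL0 : 0 < L := by rw [hL]; positivity
  rw [← hL] at hC
  obtain ⟨C, hCd⟩ : ∃ C : ℝ, C = (n.choose k : ℝ) := ⟨_, rfl⟩
  rw [← hCd] at hC
  have hC0 : 0 < C := by linarith [mul_pos (by norm_num : (0 : ℝ) < 2) hL0]
  -- the bias `q`
  obtain ⟨x, hx⟩ : ∃ x : ℝ, x = (1 + e / 4) * C / L := ⟨_, rfl⟩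
  have hxL : x * L = (1 + e / 4) * C := by
    rw [hx, div_mul_cancel₀ _ hL0.ne']
  have hx2 : 2 ≤ x := by
    rw [hx, le_div_iff₀ hL0]
    nlinarith
  have hceil : 2 ≤ ⌈x⌉₊ := by
    have h1 := Nat.le_ceil x
    have h2 : (2 : ℝ) ≤ (⌈x⌉₊ : ℝ) := hx2.trans h1
    exact_mod_cast h2
  obtain ⟨q, hq⟩ : ∃ q : ℕ, ⌈x⌉₊ = q + 1 := ⟨⌈x⌉₊ - 1, by omega⟩
  have hq1 : 1 ≤ q := by omega
  have hqx : x ≤ (q : ℝ) + 1 := by
    have h1 := Nat.le_ceil x
    rw [hq] at h1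
    exact_mod_cast h1
  have hqx' : (q : ℝ) ≤ x := by
    have h1 := Nat.ceil_lt_add_one (by linarith : 0 ≤ x)
    rw [hq] at h1
    push_cast at h1
    linarith
  have hwin : CWWaiter Unsat q (board n k) ∅ := by
    apply hn0 n hnn0 q
    rw [← hL, ← hCd]
    nlinarith
  have hmem : q ∈ {q | 1 ≤ q ∧ CWWaiter Unsat q (board n k) ∅} := ⟨hq1, hwin⟩
  have hb1 : 1 ≤ bCW n k := (Nat.sInf_mem ⟨_, hmem⟩).1
  have hbq : bCW n k ≤ q := Nat.sInf_le hmem
  obtain ⟨b, hb⟩ : ∃ b : ℝ, b = (bCW n k : ℝ) := ⟨_, rfl⟩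
  have hb0 : 0 < b := by
    rw [hb]
    exact_mod_cast hb1
  have hbx : b ≤ x := by
    rw [hb]
    have : (bCW n k : ℝ) ≤ q := by exact_mod_cast hbq
    linarith
  have hratio : ratioCW n k = C / (L * b) := by
    unfold ratioCW
    rw [hCd, hL, hb]
    have h1 : (bCW n k : ℝ) ≠ 0 := by rw [← hb]; exact hb0.ne'
    field_simp
  rw [hratio, le_div_iff₀ (by positivity)]
  have h2 : L * b ≤ (1 + e / 4) * C := by
    rw [← hxL]
    nlinarith
  have h3 : 0 < L * b := by positivity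
  have h4 : (1 - ε) * (L * b) ≤ (1 - e) * (L * b) :=
    mul_le_mul_of_nonneg_right (by linarith) h3.le
  have h5 : (1 - e) * (L * b) ≤ (1 - e) * ((1 + e / 4) * C) :=
    mul_le_mul_of_nonneg_left h2 (by linarith)
  have h6 : (1 - e) * ((1 + e / 4) * C) ≤ C := by
    have : (1 - e) * (1 + e / 4) ≤ 1 := by nlinarith
    calc (1 - e) * ((1 + e / 4) * C) = ((1 - e) * (1 + e / 4)) * C := by ring
      _ ≤ 1 * C := mul_le_mul_of_nonneg_right this hC0.le
      _ = C := one_mul C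
  linarith

end Pool.Agent.R982.KS.FinalCW
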