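import Pool.Agent.R982.KS.Defs2

/-!
# KT-6: few heavy clauses (the asymptotic form of KT-5)
-/

set_option autoImplicit false

open Finset Filter Topology

namespace Pool.Agent.R982.KS.Heavy

open Pool.Agent.R982.KS

theorem lim (a0 a1 a2 : ℝ) : Tendsto (fun x : ℕ =>
    (a0 + a1 * Real.log x + a2 * Real.log x ^ 2) / (x : ℝ)) atTop (𝓝 0) := by
  have h0 := Real.tendsto_pow_log_div_mul_add_atTop 1 0 0 one_ne_zero
  have h1 := Real.tendsto_pow_log_div_mul_add_atTop 1 0 1 one_ne_zero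
  have h2 := Real.tendsto_pow_log_div_mul_add_atTop 1 0 2 one_ne_zero
  have h := ((h0.const_mul a0).add ((h1.const_mul a1).add (h2.const_mul a2))).comp
    (tendsto_natCast_atTop_atTop (R := ℝ))
  simp only [mul_zero, add_zero] at h
  refine h.congr (fun x => ?_)
  simp only [Function.comp]
  ring

theorem heavy_of (h : St_HeavyFin) : St_Heavy := by
  intro A c0 hc0
  have l1 := (lim (14 * Real.log 8) (28 * A) 0).eventually
    (gt_mem_nhds (show (0 : ℝ) < 1 by norm_num))
  have l2 := (lim (14 * Real.log 8 * Real.log 2) (28 * A * Real.log 2 + 4 * Real.log 2)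
    (4 * A)).eventually (gt_mem_nhds (show (0 : ℝ) < c0 / 2 by positivity))
  obtain ⟨K0, hK0⟩ := eventually_atTop.1 (l1.and l2)
  refine ⟨max K0 2, fun k hk => ?_⟩
  obtain ⟨e1, e2⟩ := hK0 k (le_trans (le_max_left _ _) hk)
  have hk2 : 2 ≤ k := le_trans (le_max_right _ _) hk
  have hkR : (2 : ℝ) ≤ (k : ℝ) := by exact_mod_cast hk2
  have hk0 : (0 : ℝ) < (k : ℝ) := by linarith
  have hlk : 0 ≤ Real.log k := Real.log_nonneg (by linarith)
  have hl2 : 0 < Real.log 2 := Real.log_pos (by norm_num)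
  have hl8 : Real.log 8 = 3 * Real.log 2 := by
    rw [show (8 : ℝ) = 2 ^ 3 by norm_num, Real.log_pow]
    norm_num
  have hl2' : (0.6931471803 : ℝ) < Real.log 2 := Real.log_two_gt_d9
  have hpA : (1 : ℝ) ≤ (k : ℝ) ^ A := one_le_pow₀ (by linarith)
  have hpA0 : (0 : ℝ) < (k : ℝ) ^ A := by linarith
  set μ : ℝ := (14 * Real.log 8 + 28 * A * Real.log k) / (k : ℝ) with hμ
  have hμ1 : μ ≤ 1 := by
    have : (14 * Real.log 8 + 28 * (A : ℝ) * Real.log k + 0 * Real.log k ^ 2) / (k : ℝ) = μ := by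
      rw [hμ]; ring
    rw [this] at e1
    exact e1.le
  have hAk : 0 ≤ 28 * (A : ℝ) * Real.log k := by positivity
  have hμlow : 4 / (k : ℝ) ≤ μ := by
    rw [hμ]
    apply div_le_div_of_nonneg_right _ hk0.le
    rw [hl8]
    nlinarith
  have hμ0 : 0 < μ := lt_of_lt_of_le (by positivity) hμlow
  have hlμ : Real.log (4 / μ) ≤ Real.log k := by
    apply Real.log_le_log (by positivity)
    rw [div_le_iff₀ hμ0]
    rw [div_le_iff₀ hk0] at hμlow
    linarith
  have hlμ0 : 0 ≤ Real.log (4 / μ) := by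
    apply Real.log_nonneg
    rw [le_div_iff₀ hμ0]
    linarith
  have hl2k : Real.log (2 * (k : ℝ) ^ A) = Real.log 2 + A * Real.log k := by
    rw [Real.log_mul (by norm_num) hpA0.ne', Real.log_pow]
  have hX0 : 0 ≤ Real.log 2 + A * Real.log k := by positivity
  -- the quantity `Q`
  have hQ : μ * Real.log 2 + 4 / k * Real.log (4 / μ) * (Real.log 2 + A * Real.log k) <
      c0 / 2 := by
    refine lt_of_le_of_lt ?_ e2
    have : μ * Real.log 2 + 4 / k * Real.log k * (Real.log 2 + A * Real.log k) =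
        (14 * Real.log 8 * Real.log 2 + (28 * ↑A * Real.log 2 + 4 * Real.log 2) * Real.log ↑k +
          4 * ↑A * Real.log ↑k ^ 2) / (k : ℝ) := by
      rw [hμ]
      field_simp
      ring
    rw [← this]
    have h4 : 4 / (k : ℝ) * Real.log (4 / μ) ≤ 4 / k * Real.log k :=
      mul_le_mul_of_nonneg_left hlμ (by positivity)
    have := mul_le_mul_of_nonneg_right h4 hX0
    linarith
  obtain ⟨m1, hm1⟩ := exists_nat_gt
    ((Real.log 2 + 2 * (Real.log 2 + A * Real.log k)) / (c0 / 2))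
  refine ⟨max (k ^ 2) m1, fun m hm n hn w z hw0 hw1 hwz hL => ?_⟩
  have hmk : k ^ 2 ≤ m := le_trans (le_max_left _ _) hm
  have hmm1 : m1 ≤ m := le_trans (le_max_right _ _) hm
  have hm1' : (Real.log 2 + 2 * (Real.log 2 + A * Real.log k)) < (c0 / 2) * m := by
    have h1 : (m1 : ℝ) ≤ (m : ℝ) := by exact_mod_cast hmm1
    have h2 := (div_lt_iff₀ (by positivity)).1 hm1
    nlinarith
  by_contra hcon
  push Not at hcon
  have hηδ : (8 : ℝ) / (1 / (k : ℝ) ^ A * (1 / (k : ℝ) ^ A)) = 8 * ((k : ℝ) ^ A * (k : ℝ) ^ A) := by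
    field_simp
  have key := h n m k ⌈4 * (m : ℝ) / k * Real.log (4 / μ)⌉₊ (1 / (k : ℝ) ^ A) (1 / (k : ℝ) ^ A) μ
    (Real.exp (c0 * m)) w z _ hn (by omega) hmk (by positivity)
    (by rw [div_le_one hpA0]; exact hpA) (by positivity)
    (by rw [div_le_one hpA0]; exact hpA) hμ0 hμ1 hw0 hw1 hwz hL (Real.exp_pos _)
    (Finset.filter_subset _ _) (fun c hc => (Finset.mem_filter.1 hc).2) hcon.le
    (by
      rw [hηδ, Real.log_mul (by norm_num) (by positivity), Real.log_mul hpA0.ne' hpA0.ne',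
        Real.log_pow, hμ, div_mul_cancel₀ _ hk0.ne']
      linarith)
    (Nat.le_ceil _)
  -- take logarithms
  set r := ⌈4 * (m : ℝ) / k * Real.log (4 / μ)⌉₊ with hr
  have hr2 : (r : ℝ) < 4 * (m : ℝ) / k * Real.log (4 / μ) + 1 :=
    Nat.ceil_lt_add_one (by positivity)
  have hlog := Real.log_le_log (by positivity) key
  have hl1 : Real.log (1 / (k : ℝ) ^ A / 2) = -(Real.log 2 + A * Real.log k) := by
    rw [← hl2k, ← Real.log_inv]
    congr 1
    field_simp
  rw [Real.log_div (by positivity) (by norm_num), Real.log_mul (by positivity) (by positivity),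
    Real.log_exp, Real.log_pow, hl1, Real.log_rpow (by norm_num)] at hlog
  push_cast at hlog
  have h5 : ((r : ℝ) + 1) * (Real.log 2 + A * Real.log k) ≤
      (4 * (m : ℝ) / k * Real.log (4 / μ) + 2) * (Real.log 2 + A * Real.log k) :=
    mul_le_mul_of_nonneg_right (by linarith) hX0
  have h6 : (μ * Real.log 2 + 4 / k * Real.log (4 / μ) * (Real.log 2 + A * Real.log k)) * m ≤
      c0 / 2 * m := mul_le_mul_of_nonneg_right hQ.le (by positivity)
  have h7 : (4 * (m : ℝ) / k * Real.log (4 / μ) + 2) * (Real.log 2 + A * Real.log k) =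
      4 / k * Real.log (4 / μ) * (Real.log 2 + A * Real.log k) * m +
        2 * (Real.log 2 + A * Real.log k) := by ring
  nlinarith

end Pool.Agent.R982.KS.Heavy
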