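import Pool.Agent.R982.KS.Defs2

/-!
# KT-5: many heavy clauses force few assignments (double counting)
-/

open Finset

namespace Pool.Agent.R982.KS.HeavyFin

open Pool.Agent.R982.KS

/-- the variables of a clause -/
def vars {n : ℕ} (c : Finset (Lit n)) : Finset (Fin n) := c.image Prod.fst

theorem fal_iff {n : ℕ} {a : Fin n → Bool} {c : Finset (Lit n)} :
    c ∈ Fal a ↔ ∀ x ∈ c, a x.1 ≠ x.2 := by
  unfold Fal
  rw [mem_filter]
  constructor
  · rintro ⟨_, h⟩ x hx hxa
    exact h ⟨x, hx, hxa⟩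
  · intro h
    exact ⟨mem_univ _, fun ⟨x, hx, hxa⟩ => h x hx hxa⟩

theorem bool_aux (p q s : Bool) (h1 : p ≠ q) (h2 : p ≠ s) : s = q := by
  revert h1 h2
  cases p <;> cases q <;> cases s <;> simp

theorem vars_inj {n : ℕ} (a : Fin n → Bool) {c c' : Finset (Lit n)} (h : c ∈ Fal a)
    (h' : c' ∈ Fal a) (hv : vars c = vars c') : c = c' := by
  have key : ∀ {d d' : Finset (Lit n)}, d ∈ Fal a → d' ∈ Fal a → vars d ⊆ vars d' → d ⊆ d' := by
    intro d d' hd hd' hdd x hx
    have hx1 : x.1 ∈ vars d' := hdd (mem_image_of_mem _ hx)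
    obtain ⟨y, hy, hyx⟩ := mem_image.1 hx1
    have e1 := fal_iff.1 hd x hx
    have e2 := fal_iff.1 hd' y hy
    have : y = x := by
      refine Prod.ext hyx ?_
      rw [hyx] at e2
      exact bool_aux _ _ _ e1 e2
    rwa [← this]
  exact Subset.antisymm (key h h' hv.subset) (key h' h hv.symm.subset)

theorem heavyfin_of (h : St_Cover) : St_HeavyFin := by
  classical
  intro n m k r η δ μ L w z H hmn hk hkm hη hη1 hδ hδ1 hμ hμ1 hw0 hw1 hwz hLW hL hH hheavy hHc
    hlog hr
  set W := ∑ a, w a with hW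
  have hWpos : 0 < W := lt_of_lt_of_le hL hLW
  have hkm' : k ≤ m := le_trans (Nat.le_self_pow two_ne_zero k) hkm
  have hchoose : 0 < m.choose k := Nat.choose_pos hkm'
  have hHpos : (0 : ℝ) < #H := lt_of_lt_of_le (mul_pos hδ (by exact_mod_cast hchoose)) hHc
  set A : Finset (Fin n → Bool) :=
    univ.filter (fun a => w a ≠ 0 ∧ η / 2 * #H ≤ (#(Fal a ∩ H) : ℝ)) with hA
  -- step 1
  have step1 : η / 2 * L ≤ #A := by
    have e1 : η * W * #H ≤ ∑ c ∈ H, ∑ a with c ∈ Fal a, w a := by
      have := Finset.card_nsmul_le_sum H (fun c => ∑ a with c ∈ Fal a, w a) (η * W) hheavy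
      rw [nsmul_eq_mul] at this
      linarith
    have e2 : ∑ c ∈ H, ∑ a with c ∈ Fal a, w a = ∑ a, w a * #(Fal a ∩ H) := by
      simp_rw [Finset.sum_filter]
      rw [Finset.sum_comm]
      refine Finset.sum_congr rfl fun a _ => ?_
      rw [← Finset.sum_filter, Finset.sum_const, nsmul_eq_mul, mul_comm,
        Finset.filter_mem_eq_inter, Finset.inter_comm]
    have e3 : ∀ a, w a * #(Fal a ∩ H) ≤ (if a ∈ A then (#H : ℝ) else 0) + w a * (η / 2 * #H) := by
      intro a
      have hle : (#(Fal a ∩ H) : ℝ) ≤ #H := by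
        exact_mod_cast Finset.card_le_card Finset.inter_subset_right
      have h0 : (0 : ℝ) ≤ #(Fal a ∩ H) := Nat.cast_nonneg _
      have h00 : 0 ≤ w a * (η / 2 * #H) := mul_nonneg (hw0 a) (by positivity)
      by_cases ha : a ∈ A
      · rw [if_pos ha]
        have : w a * #(Fal a ∩ H) ≤ 1 * #H := mul_le_mul (hw1 a) hle h0 zero_le_one
        linarith
      · rw [if_neg ha, zero_add]
        by_cases hwa : w a = 0
        · rw [hwa, zero_mul, zero_mul]
        · refine mul_le_mul_of_nonneg_left ?_ (hw0 a)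
          by_contra hcon
          exact ha (mem_filter.2 ⟨mem_univ _, hwa, (not_le.1 hcon).le⟩)
    have e4 : ∑ a, w a * #(Fal a ∩ H) ≤ #A * #H + W * (η / 2 * #H) := by
      refine (Finset.sum_le_sum fun a _ => e3 a).trans (le_of_eq ?_)
      rw [Finset.sum_add_distrib, Finset.sum_ite_mem, Finset.univ_inter, Finset.sum_const,
        nsmul_eq_mul, ← Finset.sum_mul]
    have e5 : η / 2 * W * #H ≤ #A * #H := by
      rw [e2] at e1
      nlinarith
    have e6 : η / 2 * W ≤ #A := le_of_mul_le_mul_right e5 hHpos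
    have e7 : η / 2 * L ≤ η / 2 * W := mul_le_mul_of_nonneg_left hLW (by positivity)
    linarith
  set D : Finset (Fin n) := univ.filter (fun i => (i : ℕ) < m) with hD
  have hDc : #D = m := by
    have e1 : D.image Fin.val = range m := by
      ext i
      rw [mem_image, mem_range]
      constructor
      · rintro ⟨j, hj, rfl⟩
        exact (mem_filter.1 hj).2
      · intro hi
        exact ⟨⟨i, by omega⟩, mem_filter.2 ⟨mem_univ _, hi⟩, rfl⟩
    rw [← card_range m, ← e1, card_image_of_injective _ Fin.val_injective]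
  have hbel : ∀ c ∈ H, #c = k ∧ (∀ x ∈ c, ∀ y ∈ c, x.1 = y.1 → x = y) ∧
      ∀ x ∈ c, (x.1 : ℕ) < m := by
    intro c hc
    have := hH hc
    unfold below board at this
    rw [mem_filter, mem_filter, mem_powersetCard] at this
    exact ⟨this.1.1.2, this.1.2, this.2⟩
  have hvars : ∀ c ∈ H, vars c ⊆ D ∧ #(vars c) = k := by
    intro c hc
    obtain ⟨h1, h2, h3⟩ := hbel c hc
    constructor
    · intro i hi
      obtain ⟨x, hx, rfl⟩ := mem_image.1 hi
      exact mem_filter.2 ⟨mem_univ _, h3 x hx⟩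
    · rw [← h1]
      exact card_image_of_injOn (fun x hx y hy e => h2 x hx y hy e)
  set PH : Finset (Fin r → Finset (Lit n)) := Fintype.piFinset (fun _ : Fin r => H) with hPH
  set rl : (Fin n → Bool) → (Fin r → Finset (Lit n)) → Prop := fun a s =>
    (∀ j, s j ∈ Fal a) ∧ (1 - μ) * m ≤ (#(univ.biUnion (fun j => vars (s j))) : ℝ) with hrl
  -- step 2
  have step2 : ∀ a ∈ A, (1 / 2 : ℝ) * (η / 2 * #H) ^ r ≤ #(PH.filter (rl a)) := by
    intro a ha
    have ha2 := (mem_filter.1 ha).2.2
    set N := Fal a ∩ H with hN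
    have hinj : Set.InjOn (vars (n := n)) (N : Set (Finset (Lit n))) := fun c hc c' hc' e =>
      vars_inj a (mem_of_mem_inter_left (mem_coe.1 hc)) (mem_of_mem_inter_left (mem_coe.1 hc')) e
    set M := N.image vars with hM
    have hMc : #M = #N := card_image_of_injOn hinj
    have c1 : ∀ V ∈ M, V ⊆ D ∧ #V = k := by
      intro V hV
      obtain ⟨c, hc, rfl⟩ := mem_image.1 hV
      exact hvars c (mem_of_mem_inter_right hc)
    have c2 : η * δ / 2 * ((#D).choose k : ℝ) ≤ #M := by
      rw [hMc, hDc]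
      have : η / 2 * (δ * (m.choose k : ℝ)) ≤ η / 2 * #H :=
        mul_le_mul_of_nonneg_left hHc (by positivity)
      nlinarith
    have c3 : 14 * Real.log (4 / (η * δ / 2)) ≤ μ * k := by
      have : 4 / (η * δ / 2) = 8 / (η * δ) := by
        field_simp
        norm_num
      rw [this]
      exact hlog
    have c4 : η * δ / 2 ≤ 1 := by nlinarith
    have hcov := h (Fin n) D k r (η * δ / 2) μ M c1 hk (by rw [hDc]; exact hkm) (by positivity)
      c4 c2 c3 hμ hμ1 (by rw [hDc]; exact hr)
    set PN : Finset (Fin r → Finset (Lit n)) := Fintype.piFinset (fun _ : Fin r => N) with hPN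
    have hPNc : #PN = #N ^ r := by
      rw [hPN, Fintype.card_piFinset, prod_const, card_univ, Fintype.card_fin]
    have hbad : #(PN.filter (fun s =>
        ¬ ((1 - μ) * m ≤ (#(univ.biUnion (fun j => vars (s j))) : ℝ)))) ≤
        #((Fintype.piFinset (fun _ : Fin r => M)).filter
          (fun s => ((#(univ.biUnion s) : ℕ) : ℝ) < (1 - μ) * #D)) := by
      refine Finset.card_le_card_of_injOn (fun s j => vars (s j)) ?_ ?_
      · intro s hs
        have hs' := mem_filter.1 (mem_coe.1 hs)
        refine mem_coe.2 (mem_filter.2 ⟨Fintype.mem_piFinset.2 fun j =>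
          mem_image_of_mem _ (Fintype.mem_piFinset.1 hs'.1 j), ?_⟩)
        rw [hDc]
        exact not_le.1 hs'.2
      · intro s hs s' hs' e
        have h1 := mem_filter.1 (mem_coe.1 hs)
        have h2 := mem_filter.1 (mem_coe.1 hs')
        funext j
        exact hinj (mem_coe.2 (Fintype.mem_piFinset.1 h1.1 j))
          (mem_coe.2 (Fintype.mem_piFinset.1 h2.1 j)) (congrFun e j)
    have hgood : #(PN.filter (fun s =>
        ((1 - μ) * m ≤ (#(univ.biUnion (fun j => vars (s j))) : ℝ)))) ≤ #(PH.filter (rl a)) := by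
      refine Finset.card_le_card ?_
      intro s hs
      have hs' := mem_filter.1 hs
      refine mem_filter.2 ⟨Fintype.mem_piFinset.2 fun j =>
        mem_of_mem_inter_right (Fintype.mem_piFinset.1 hs'.1 j), fun j =>
        mem_of_mem_inter_left (Fintype.mem_piFinset.1 hs'.1 j), hs'.2⟩
    have hsplit := Finset.card_filter_add_card_filter_not (s := PN) (fun s =>
        ((1 - μ) * m ≤ (#(univ.biUnion (fun j => vars (s j))) : ℝ)))
    rw [hPNc] at hsplit
    rw [hMc] at hcov
    have h2 : #N ^ r ≤ 2 * #(PH.filter (rl a)) := by omega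
    have h3 : ((#N : ℝ)) ^ r ≤ 2 * #(PH.filter (rl a)) := by exact_mod_cast h2
    have h4 : (η / 2 * #H) ^ r ≤ (#N : ℝ) ^ r := pow_le_pow_left₀ (by positivity) ha2 r
    linarith
  -- step 3
  have step3 : ∀ s ∈ PH, (#(A.filter (fun a => rl a s)) : ℝ) ≤ (2 : ℝ) ^ (μ * m) := by
    intro s hs
    set U := univ.biUnion (fun j => vars (s j)) with hU
    by_cases hcase : (1 - μ) * m ≤ (#U : ℝ)
    · have hUD : U ⊆ D := by
        intro i hi
        obtain ⟨j, _, hj⟩ := mem_biUnion.1 hi
        exact (hvars _ (Fintype.mem_piFinset.1 hs j)).1 hj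
      have hT : #(A.filter (fun a => rl a s)) ≤ 2 ^ #(D \ U) := by
        rw [← card_powerset]
        refine Finset.card_le_card_of_injOn (fun a => (D \ U).filter (fun i => a i = true)) ?_ ?_
        · intro a _
          exact mem_coe.2 (mem_powerset.2 (filter_subset _ _))
        · intro a ha a' ha' e
          have h1 := mem_filter.1 (mem_coe.1 ha)
          have h2 := mem_filter.1 (mem_coe.1 ha')
          have w1 := (mem_filter.1 h1.1).2.1
          have w2 := (mem_filter.1 h2.1).2.1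
          funext i
          by_cases hi : (i : ℕ) < m
          · by_cases hiU : i ∈ U
            · obtain ⟨j, _, hj⟩ := mem_biUnion.1 hiU
              obtain ⟨x, hx, rfl⟩ := mem_image.1 hj
              have f1 := fal_iff.1 (h1.2.1 j) x hx
              have f2 := fal_iff.1 (h2.2.1 j) x hx
              exact bool_aux _ _ _ f2.symm f1.symm
            · have hiD : i ∈ D \ U := mem_sdiff.2 ⟨mem_filter.2 ⟨mem_univ _, hi⟩, hiU⟩
              have e' : (D \ U).filter (fun i => a i = true) =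
                (D \ U).filter (fun i => a' i = true) := e
              have e1 : i ∈ (D \ U).filter (fun i => a i = true) ↔
                i ∈ (D \ U).filter (fun i => a' i = true) := by rw [e']
              rw [mem_filter, mem_filter] at e1
              have e2 : a i = true ↔ a' i = true :=
                ⟨fun q => (e1.1 ⟨hiD, q⟩).2, fun q => (e1.2 ⟨hiD, q⟩).2⟩
              revert e2
              cases a i <;> cases a' i <;> simp
          · rw [hwz a w1 i (not_lt.1 hi), hwz a' w2 i (not_lt.1 hi)]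
      have hc : (#(D \ U) : ℝ) ≤ μ * m := by
        have e1 := card_sdiff_add_card_eq_card hUD
        rw [hDc] at e1
        have e2 : (#(D \ U) : ℝ) + #U = m := by exact_mod_cast e1
        nlinarith
      calc (#(A.filter (fun a => rl a s)) : ℝ) ≤ (2 : ℝ) ^ #(D \ U) := by exact_mod_cast hT
        _ = (2 : ℝ) ^ ((#(D \ U) : ℕ) : ℝ) := (Real.rpow_natCast _ _).symm
        _ ≤ (2 : ℝ) ^ (μ * m) := Real.rpow_le_rpow_of_exponent_le one_le_two hc
    · have : A.filter (fun a => rl a s) = ∅ := by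
        rw [filter_eq_empty_iff]
        intro a _ hrs
        exact hcase hrs.2
      rw [this, card_empty, Nat.cast_zero]
      positivity
  have hdc : ∑ a ∈ A, #(PH.filter (rl a)) = ∑ s ∈ PH, #(A.filter (fun a => rl a s)) :=
    Finset.sum_card_bipartiteAbove_eq_sum_card_bipartiteBelow rl
  have hdc' : ∑ a ∈ A, (#(PH.filter (rl a)) : ℝ) =
      ∑ s ∈ PH, (#(A.filter (fun a => rl a s)) : ℝ) := by exact_mod_cast hdc
  have i1 : (#A : ℝ) * ((1 / 2 : ℝ) * (η / 2 * #H) ^ r) ≤ ∑ a ∈ A, (#(PH.filter (rl a)) : ℝ) := by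
    have := Finset.card_nsmul_le_sum A (fun a => (#(PH.filter (rl a)) : ℝ)) _ step2
    rwa [nsmul_eq_mul] at this
  have i2 : ∑ s ∈ PH, (#(A.filter (fun a => rl a s)) : ℝ) ≤ (#H : ℝ) ^ r * (2 : ℝ) ^ (μ * m) := by
    have := Finset.sum_le_card_nsmul PH (fun s => (#(A.filter (fun a => rl a s)) : ℝ)) _ step3
    rw [nsmul_eq_mul, hPH, Fintype.card_piFinset, prod_const, card_univ, Fintype.card_fin] at this
    rw [hPH]
    exact_mod_cast this
  have i3 : (η / 2 * L) * ((1 / 2 : ℝ) * (η / 2 * #H) ^ r) ≤ (#H : ℝ) ^ r * (2 : ℝ) ^ (μ * m) := by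
    have : (η / 2 * L) * ((1 / 2 : ℝ) * (η / 2 * #H) ^ r) ≤
        (#A : ℝ) * ((1 / 2 : ℝ) * (η / 2 * #H) ^ r) :=
      mul_le_mul_of_nonneg_right step1 (by positivity)
    linarith
  have hHr : (0 : ℝ) < (#H : ℝ) ^ r := pow_pos hHpos r
  have i4 : (#H : ℝ) ^ r * (L * (η / 2) ^ (r + 1) / 2) ≤ (#H : ℝ) ^ r * (2 : ℝ) ^ (μ * m) := by
    have : (#H : ℝ) ^ r * (L * (η / 2) ^ (r + 1) / 2) =
        (η / 2 * L) * ((1 / 2 : ℝ) * (η / 2 * #H) ^ r) := by
      rw [mul_pow, pow_succ]
      ring
    rw [this]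
    exact i3
  exact le_of_mul_le_mul_left i4 hHr

end Pool.Agent.R982.KS.HeavyFin
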