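import Pool.Agent.R982.KS.Defs2

/-!
# KT-9a: start and iteration of the batches (MP_fefad7_co)
-/

open Finset

namespace Pool.Agent.R982.KS.Iter

open Pool.Agent.R982.KS

lemma cnt {n M : ℕ} (h : M ≤ n) : #(univ.filter (fun i : Fin n => (i : ℕ) < M)) = M := by
  have h1 : univ.filter (fun i : Fin n => (i : ℕ) < M) =
      (univ : Finset (Fin M)).map (Fin.castLEEmb h) := by
    ext i
    simp only [mem_filter, mem_univ, true_and, mem_map]
    constructor
    · intro hi
      exact ⟨⟨i, hi⟩, Fin.ext rfl⟩
    · rintro ⟨j, rfl⟩
      exact j.2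
  rw [h1, card_map, card_univ, Fintype.card_fin]

lemma alive_ge {n M : ℕ} (hM : M ≤ n) (i0 : Fin n) (h0 : (i0 : ℕ) < M) (b : Bool)
    (S : Finset (Finset (Lit n)))
    (hS : ∀ a : Fin n → Bool, a i0 = b → ∀ c ∈ S, SatC a c) :
    2 ^ (M - 1) ≤ #(alive M S) := by
  classical
  set t : Fin n → Finset Bool := fun i =>
    if i = i0 then {b} else if (i : ℕ) < M then univ else {false} with ht
  set E := (univ.filter (fun i : Fin n => (i : ℕ) < M)).erase i0 with hE
  have hEc : #E = M - 1 := by
    rw [hE, card_erase_of_mem (by simp [h0]), cnt hM]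
  have hsub : Fintype.piFinset t ⊆ alive M S := by
    intro a ha
    rw [Fintype.mem_piFinset] at ha
    unfold alive
    rw [mem_filter]
    refine ⟨mem_univ _, fun i hi => ?_, hS a ?_⟩
    · have h1 := ha i
      have h2 : i ≠ i0 := by
        rintro rfl
        omega
      rw [ht] at h1
      simp only [if_neg h2, if_neg (not_lt.2 hi), mem_singleton] at h1
      exact h1
    · have h1 := ha i0
      rw [ht] at h1
      simp only [if_true, mem_singleton] at h1
      exact h1
  refine le_trans (le_of_eq ?_) (card_le_card hsub)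
  rw [Fintype.card_piFinset]
  have h2 : ∏ i, #(t i) = ∏ i, if i ∈ E then 2 else 1 := by
    refine prod_congr rfl fun i _ => ?_
    rw [ht, hE]
    simp only [mem_erase, mem_filter, mem_univ, true_and]
    by_cases h3 : i = i0
    · simp [h3]
    · by_cases h4 : (i : ℕ) < M
      · simp [h3, h4]
      · simp [h3, h4]
  rw [h2, prod_ite, prod_const, prod_const_one, mul_one, filter_univ_mem, hEc]

/-- clauses of a smaller board -/
lemma below_card (hc : St_Count) {n k M : ℕ} (h : M ≤ n) :
    #(below n k M) ≤ 2 ^ k * M.choose k := by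
  classical
  rw [← (hc M k).1]
  set φ : Lit M → Lit n := fun x => (Fin.castLE h x.1, x.2) with hφ
  have hinj : Function.Injective φ := by
    rintro ⟨i, b⟩ ⟨j, c⟩ hij
    simp only [hφ, Prod.mk.injEq] at hij
    obtain ⟨h1, h2⟩ := hij
    have h3 : (i : ℕ) = j := by
      have := congrArg (fun z : Fin n => (z : ℕ)) h1
      simpa using this
    rw [Prod.mk.injEq]
    exact ⟨Fin.ext h3, h2⟩
  have hsub : below n k M ⊆ (board M k).image (fun c => c.image φ) := by
    intro c hcb
    unfold below board at hcb
    simp only [mem_filter, mem_powersetCard] at hcb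
    obtain ⟨⟨⟨-, hck⟩, hv⟩, hM⟩ := hcb
    rw [mem_image]
    set c' : Finset (Lit M) := univ.filter (fun x => φ x ∈ c) with hc'
    have him : c'.image φ = c := by
      ext x
      rw [mem_image]
      constructor
      · rintro ⟨y, hy, rfl⟩
        exact (mem_filter.1 hy).2
      · intro hx
        have hy : φ (⟨x.1, hM x hx⟩, x.2) = x := by
          simp only [hφ]
          exact Prod.ext (Fin.ext rfl) rfl
        exact ⟨_, mem_filter.2 ⟨mem_univ _, by rw [hy]; exact hx⟩, hy⟩
    refine ⟨c', ?_, him⟩
    unfold board
    simp only [mem_filter, mem_powersetCard]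
    refine ⟨⟨subset_univ _, ?_⟩, fun x hx y hy hxy => ?_⟩
    · rw [← hck, ← him, card_image_of_injective _ hinj]
    · apply hinj
      refine hv _ (mem_filter.1 hx).2 _ (mem_filter.1 hy).2 ?_
      simp only [hφ]
      rw [hxy]
  exact (card_le_card hsub).trans card_image_le

theorem iter_ok (hc : St_Count) : St_Iter := by
  classical
  intro n k q g M σ hg hk hM hMn hdvd hT hσM hσn hstep
  -- the end
  have hend : Pos n k q n (σ n) := by
    intro S _ hS
    have h1 : above n k n = ∅ := by
      unfold above
      rw [filter_eq_empty_iff]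
      rintro c - ⟨x, -, hx⟩
      have := x.1.2
      omega
    rw [h1]
    apply CWWaiter.done
    intro hU
    have h2 : (0 : ℝ) < #(alive n S) := lt_of_lt_of_le hσn hS
    have h3 : 0 < #(alive n S) := by exact_mod_cast h2
    obtain ⟨a, ha⟩ := card_pos.1 h3
    unfold alive at ha
    obtain ⟨c, hcS, hcn⟩ := hU a
    exact hcn ((mem_filter.1 ha).2.2 c hcS)
  obtain ⟨J, hJ⟩ := hdvd
  have hind : ∀ j, j ≤ J → Pos n k q (n - g * j) (σ (n - g * j)) := by
    intro j
    induction j with
    | zero => intro _; simpa using hend
    | succ j ih =>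
      intro hj
      have h1 := ih (by omega)
      have h2 : g * (j + 1) ≤ g * J := Nat.mul_le_mul_left g hj
      have h3 : g * (j + 1) = g * j + g := by ring
      have h4 : n - g * (j + 1) + g = n - g * j := by omega
      apply hstep
      · omega
      · omega
      · rw [h4]
        exact h1
  have hPM : Pos n k q M (σ M) := by
    have h1 := hind J le_rfl
    have h2 : n - g * J = M := by omega
    rwa [h2] at h1
  -- the start
  have hdiff : board n k \ below n k M = above n k M := by
    ext c
    unfold below above
    simp only [mem_sdiff, mem_filter, not_and, not_forall, not_lt]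
    constructor
    · rintro ⟨h1, h2⟩
      obtain ⟨x, hx, hxM⟩ := h2 h1
      exact ⟨h1, x, hx, hxM⟩
    · rintro ⟨h1, x, hx, hxM⟩
      exact ⟨h1, fun _ => ⟨x, hx, hxM⟩⟩
  have hsub : below n k M ⊆ board n k := filter_subset _ _
  have hcard : #(below n k M) ≤ q + 1 := (below_card hc hMn).trans hT
  by_cases hne : (below n k M).Nonempty
  · refine CWWaiter.step _ _ (below n k M) hsub hne hcard fun c hcT => ?_
    rw [hdiff]
    have hcM : ∀ x ∈ c, (x.1 : ℕ) < M := (mem_filter.1 hcT).2
    have hcb := (mem_filter.1 hcT).1
    unfold board at hcb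
    simp only [mem_filter, mem_powersetCard] at hcb
    have hcne : c.Nonempty := by
      rw [← card_pos, hcb.1.2]
      omega
    obtain ⟨x0, hx0⟩ := hcne
    apply hPM
    · intro d hd
      rw [mem_insert] at hd
      rcases hd with rfl | hd
      · exact hcM
      · exact absurd hd (notMem_empty d)
    · have h1 := alive_ge hMn x0.1 (hcM x0 hx0) x0.2 (insert c ∅) (by
        intro a ha d hd
        rw [mem_insert] at hd
        rcases hd with rfl | hd
        · exact ⟨x0, hx0, ha⟩
        · exact absurd hd (notMem_empty d))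
      refine hσM.trans ?_
      exact_mod_cast h1
  · rw [not_nonempty_iff_eq_empty] at hne
    have h2 : board n k = above n k M := by
      rw [← hdiff, hne, sdiff_empty]
    rw [h2]
    apply hPM
    · intro d hd
      exact absurd hd (notMem_empty d)
    · have h1 := alive_ge hMn (⟨0, by omega⟩ : Fin n) (by show 0 < M; omega) false ∅ (by
        intro a _ d hd
        exact absurd hd (notMem_empty d))
      refine hσM.trans ?_
      exact_mod_cast h1

end Pool.Agent.R982.KS.Iter
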