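import Pool.Agent.R982.KS.Defs2

/-! KT-2, the light game (helper608 for helper982). -/

open Finset

namespace Pool.Agent.R982.KS.LightGame

theorem exp_le (x : ℝ) (h0 : 0 ≤ x) (h1 : x ≤ 1 / 2) : Real.exp (-(2 * x)) ≤ 1 - x := by
  have h2 : 1 + 2 * x ≤ Real.exp (2 * x) := by
    have := Real.add_one_le_exp (2 * x)
    linarith
  have h3 : 0 < 1 + 2 * x := by linarith
  have h4 : Real.exp (-(2 * x)) * Real.exp (2 * x) = 1 := by
    rw [← Real.exp_add]
    simp
  have h5 : 0 < Real.exp (-(2 * x)) := Real.exp_pos _
  have h6 : Real.exp (-(2 * x)) * (1 + 2 * x) ≤ 1 :=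
    (mul_le_mul_of_nonneg_left h2 h5.le).trans h4.le
  have h7 : (1 : ℝ) ≤ (1 - x) * (1 + 2 * x) := by nlinarith
  by_contra hcon
  push Not at hcon
  have h8 := mul_lt_mul_of_pos_right hcon h3
  linarith

section

variable {α Ω Y : Type} [DecidableEq α] [Fintype Ω] [DecidableEq Ω] [DecidableEq Y]
  (F : Ω → Finset α) (π : Ω → Y) (b t : ℝ)

theorem Psi_nonneg (y : Y) (U S : Finset α) : 0 ≤ Psi F π b t y U S :=
  sum_nonneg fun _ _ => (Real.exp_pos _).le

theorem Psi_eq (y : Y) (U S : Finset α) : Psi F π b t y U S = ∑ ω with π ω = y,
    (if Disjoint (F ω) S then Real.exp (-(b * (#(F ω ∩ U) : ℝ) / t)) else 0) := by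
  unfold Psi
  rw [← Finset.sum_filter, Finset.filter_filter]

theorem card_sub (T R A : Finset α) (hT : T ⊆ R) :
    (#(A ∩ (R \ T)) : ℝ) = #(A ∩ R) - #(A ∩ T) := by
  have h : #(A ∩ (R \ T)) + #(A ∩ T) = #(A ∩ R) := by
    rw [← card_union_of_disjoint]
    · congr 1
      ext x
      simp only [mem_union, mem_inter, mem_sdiff]
      constructor
      · rintro (⟨h1, h2, -⟩ | ⟨h1, h2⟩)
        · exact ⟨h1, h2⟩
        · exact ⟨h1, hT h2⟩
      · rintro ⟨h1, h2⟩
        by_cases h3 : x ∈ T
        · exact Or.inr ⟨h1, h3⟩
        · exact Or.inl ⟨h1, h2, h3⟩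
    · rw [disjoint_left]
      intro x hx hx'
      exact (mem_sdiff.1 (mem_inter.1 hx).2).2 (mem_inter.1 hx').2
  have h' : (#(A ∩ (R \ T)) : ℝ) + #(A ∩ T) = #(A ∩ R) := by exact_mod_cast h
  linarith

theorem Psi_insert (y : Y) (R T S : Finset α) (c : α) (hT : T ⊆ R) :
    Psi F π b t y (R \ T) (insert c S) = ∑ ω with (π ω = y ∧ c ∉ F ω),
      (if Disjoint (F ω) S then Real.exp (-(b * (#(F ω ∩ R) : ℝ) / t)) else 0) *
        Real.exp (b * (#(F ω ∩ T) : ℝ) / t) := by
  unfold Psi
  have h1 : (univ.filter fun ω => π ω = y ∧ Disjoint (F ω) (insert c S)) =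
      (univ.filter fun ω => π ω = y ∧ c ∉ F ω).filter fun ω => Disjoint (F ω) S := by
    ext ω
    simp only [mem_filter, mem_univ, true_and, disjoint_insert_right]
    tauto
  rw [h1, sum_filter]
  refine sum_congr rfl fun ω _ => ?_
  split_ifs with hd
  · rw [card_sub T R (F ω) hT, ← Real.exp_add]
    congr 1
    ring
  · rw [zero_mul]

theorem Psi_light (ht : 0 < t) (hb : 0 ≤ b) (y : Y) (R T S : Finset α) (c : α) :
    Psi F π b t y R S - Psic F π b t y R S c ≤ Psi F π b t y (R \ T) (insert c S) := by
  have h1 : Psi F π b t y R S = Psic F π b t y R S c +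
      ∑ ω with (π ω = y ∧ Disjoint (F ω) (insert c S)),
        Real.exp (-(b * (#(F ω ∩ R) : ℝ) / t)) := by
    unfold Psi Psic
    rw [← Finset.sum_filter_add_sum_filter_not (univ.filter fun ω => π ω = y ∧ Disjoint (F ω) S)
      (fun ω => c ∈ F ω)]
    congr 1
    · apply sum_congr _ fun _ _ => rfl
      ext ω
      simp only [mem_filter, mem_univ, true_and]
      tauto
    · apply sum_congr _ fun _ _ => rfl
      ext ω
      simp only [mem_filter, mem_univ, true_and, disjoint_insert_right]
      tauto
  rw [h1, add_sub_cancel_left]
  unfold Psi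
  apply sum_le_sum
  intro ω _
  apply Real.exp_le_exp.2
  have h2 : (#(F ω ∩ (R \ T)) : ℝ) ≤ #(F ω ∩ R) := by
    exact_mod_cast card_le_card (inter_subset_inter_left sdiff_subset)
  apply neg_le_neg
  gcongr

end

theorem light_of (h : St_R1) : St_Light := by
  classical
  intro α Ω Y _ _ _ _ _ F π P q J e τ κ G U0 V S he he1 hτ hτ1 hJ hκ hκ1 hY hG hUV hend
  obtain ⟨t, ht⟩ : ∃ t : ℝ, t = (q : ℝ) + 1 := ⟨_, rfl⟩
  obtain ⟨b, hb⟩ : ∃ b : ℝ, b = 1 + 4 * e := ⟨_, rfl⟩
  obtain ⟨B, hB⟩ : ∃ B : ℝ, B = ((J : ℝ) + 1) ^ Fintype.card Y := ⟨_, rfl⟩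
  obtain ⟨G', hG'⟩ : ∃ G' : ℝ, G' = max G 0 := ⟨_, rfl⟩
  obtain ⟨Thr, hThr⟩ : ∃ Thr : ℝ, Thr = B * (t + 2 / e * G') := ⟨_, rfl⟩
  have ht0 : 0 < t := by rw [ht]; positivity
  have hb0 : 0 ≤ b := by rw [hb]; positivity
  have hB0 : 0 < B := by rw [hB]; positivity
  have hG0 : 0 ≤ G' := by rw [hG']; exact le_max_right _ _
  have hGG : ∀ ω, (#(F ω ∩ U0) : ℝ) ≤ G' := fun ω => by
    rw [hG']; exact (hG ω).trans (le_max_left _ _)
  have hThr0 : 0 ≤ Thr := by rw [hThr]; positivity
  rw [← ht, ← hb] at hend
  rw [← hB] at hend
  have main : ∀ n : ℕ, ∀ R S' : Finset α, #R = n → R ⊆ U0 → S ⊆ S' → S' ⊆ S ∪ U0 →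
      (∀ y, Real.exp (-(6 * τ * (#U0 - #R) / t + 8 * κ * max (Thr - #R) 0 / t)) *
        Psi F π b t y U0 S ≤ Psi F π b t y R S') → CWWaiter P q (R ∪ V) S' := by
    intro n
    induction n using Nat.strong_induction_on with
    | _ n ih =>
      intro R S' hn hRU hSS hSU hinv
      have hR0 : (0 : ℝ) ≤ #R := Nat.cast_nonneg _
      have hRU' : (#R : ℝ) ≤ #U0 := by exact_mod_cast card_le_card hRU
      by_cases hl : 4 * #(R.filter (fun c => Light F π b t κ R S' c)) ≤ q + 1
      · refine hend R S' hRU hSS hSU (fun y => ?_) (by convert hl)
        rcases isEmpty_or_nonempty Ω with hΩ | ⟨⟨ω0⟩⟩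
        · have h1 : ∀ U S : Finset α, Psi F π b t y U S = 0 := by
            intro U S
            unfold Psi
            apply Finset.sum_eq_zero
            intro ω
            exact hΩ.elim ω
          rw [h1, h1, mul_zero]
        · refine le_trans ?_ (hinv y)
          apply mul_le_mul_of_nonneg_right _ (Psi_nonneg F π b t y U0 S)
          apply Real.exp_le_exp.2
          apply neg_le_neg
          have hGe : G' = G := by
            rw [hG']
            exact max_eq_left ((Nat.cast_nonneg _).trans (hG ω0))
          have e1 : 8 * κ * (B * (1 + 2 / e * (G / t))) = 8 * κ * Thr / t := by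
            rw [hThr, hGe]
            field_simp
          rw [e1]
          apply add_le_add
          · apply div_le_div_of_nonneg_right _ ht0.le
            apply mul_le_mul_of_nonneg_left _ (by positivity)
            linarith
          · apply div_le_div_of_nonneg_right _ ht0.le
            apply mul_le_mul_of_nonneg_left _ (by positivity)
            exact max_le (by linarith) hThr0
      · push Not at hl
        -- common step
        have step : ∀ T : Finset α, T ⊆ R → T.Nonempty → #T ≤ q + 1 →
            (∀ c ∈ T, ∀ y, Real.exp (-(6 * τ * (#U0 - #(R \ T)) / t +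
              8 * κ * max (Thr - #(R \ T)) 0 / t)) * Psi F π b t y U0 S ≤
                Psi F π b t y (R \ T) (insert c S')) → CWWaiter P q (R ∪ V) S' := by
          intro T hTR hTne hTq hT
          refine CWWaiter.step _ _ T (hTR.trans subset_union_left) hTne hTq fun c hc => ?_
          have hset : (R ∪ V) \ T = (R \ T) ∪ V := by
            ext x
            simp only [mem_sdiff, mem_union]
            constructor
            · rintro ⟨h1 | h1, h2⟩
              · exact Or.inl ⟨h1, h2⟩
              · exact Or.inr h1
            · rintro (⟨h1, h2⟩ | h1)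
              · exact ⟨Or.inl h1, h2⟩
              · exact ⟨Or.inr h1, fun h2 => disjoint_left.1 hUV (hRU (hTR h2)) h1⟩
          rw [hset]
          have hcard : #(R \ T) < n := by
            rw [← hn]
            apply card_lt_card
            rw [ssubset_iff_subset_ne]
            refine ⟨sdiff_subset, fun h1 => ?_⟩
            obtain ⟨x, hx⟩ := hTne
            have h2 : x ∈ R \ T := by
              rw [h1]
              exact hTR hx
            exact (mem_sdiff.1 h2).2 hx
          refine ih _ hcard (R \ T) (insert c S') rfl (sdiff_subset.trans hRU)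
            (hSS.trans (subset_insert _ _)) ?_ (hT c hc)
          intro x hx
          rcases mem_insert.1 hx with rfl | hx
          · exact mem_union_right _ (hRU (hTR hc))
          · exact hSU hx
        by_cases hRT : Thr ≤ #R
        · -- many elements
          have hBt : B * t ≤ #R := by
            have : 0 ≤ B * (2 / e * G') := by positivity
            rw [hThr] at hRT
            linarith [mul_add B t (2 / e * G')]
          have hBG : B * G' ≤ e / 2 * #R := by
            have h1 : B * (2 / e * G') ≤ #R := by
              have : 0 ≤ B * t := by positivity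
              rw [hThr] at hRT
              linarith [mul_add B t (2 / e * G')]
            have h2 : B * G' = e / 2 * (B * (2 / e * G')) := by field_simp
            rw [h2]
            exact mul_le_mul_of_nonneg_left h1 (by positivity)
          obtain ⟨T, hTR, hTc, hT⟩ := h α Ω Y F π
            (fun ω => if Disjoint (F ω) S' then Real.exp (-(b * (#(F ω ∩ R) : ℝ) / t)) else 0)
            R (q + 1) J e τ
            (fun ω => by
              split_ifs
              · exact (Real.exp_pos _).le
              · exact le_rfl) (by omega) he he1 hτ hτ1 hJ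
            (by push_cast; exact hY)
            (by
              have : (((J + 1) ^ Fintype.card Y * (q + 1) : ℕ) : ℝ) ≤ #R := by
                push_cast
                rw [← hB, ← ht]
                exact hBt
              exact_mod_cast this)
            (fun ω _ => by
              rw [← hB]
              have h1 : (#(F ω ∩ R) : ℝ) ≤ G' := by
                refine le_trans ?_ (hGG ω)
                exact_mod_cast card_le_card (inter_subset_inter_left hRU)
              calc (#(F ω ∩ R) : ℝ) * B ≤ G' * B := mul_le_mul_of_nonneg_right h1 hB0.le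
                _ = B * G' := mul_comm _ _
                _ ≤ _ := hBG)
          have hTne : T.Nonempty := by
            rw [← card_pos, hTc]
            omega
          refine step T hTR hTne hTc.le fun c hc y => ?_
          have h1 := hT c hc y
          rw [← Psi_eq F π b t y R S'] at h1
          have hcast : ((q + 1 : ℕ) : ℝ) = t := by
            rw [ht]
            push_cast
            rfl
          rw [hcast, ← hb, ← Psi_insert F π b t y R T S' c hTR] at h1
          refine le_trans ?_ h1
          have h2 : Real.exp (-(2 * (3 * τ))) ≤ 1 - 3 * τ := exp_le _ (by positivity) (by linarith)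
          have h3 := hinv y
          have hPs := Psi_nonneg F π b t y R S'
          have hPs0 := Psi_nonneg F π b t y U0 S
          calc Real.exp (-(6 * τ * (#U0 - #(R \ T)) / t + 8 * κ * max (Thr - #(R \ T)) 0 / t)) *
                Psi F π b t y U0 S
              ≤ Real.exp (-(2 * (3 * τ))) *
                (Real.exp (-(6 * τ * (#U0 - #R) / t + 8 * κ * max (Thr - #R) 0 / t)) *
                  Psi F π b t y U0 S) := by
                rw [← mul_assoc, ← Real.exp_add]
                apply mul_le_mul_of_nonneg_right _ hPs0
                apply Real.exp_le_exp.2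
                have hc1 : (#(R \ T) : ℝ) = #R - t := by
                  rw [card_sdiff_of_subset hTR, Nat.cast_sub (card_le_card hTR), hTc, hcast]
                rw [hc1]
                have e1 : 6 * τ * ((#U0 : ℝ) - (#R - t)) / t = 6 * τ * (#U0 - #R) / t + 6 * τ := by
                  field_simp
                  ring
                have e2 : 8 * κ * max (Thr - #R) 0 / t ≤ 8 * κ * max (Thr - (#R - t)) 0 / t := by
                  apply div_le_div_of_nonneg_right _ ht0.le
                  apply mul_le_mul_of_nonneg_left _ (by positivity)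
                  apply max_le_max _ le_rfl
                  linarith
                rw [e1]
                linarith
            _ ≤ (1 - 3 * τ) * Psi F π b t y R S' :=
                mul_le_mul h2 h3 (by positivity) (by linarith)
        · -- few elements
          push Not at hRT
          obtain ⟨T, hTL, hTc⟩ := exists_subset_card_eq
            (s := R.filter (fun c => Light F π b t κ R S' c)) (n := (q + 4) / 4) (by omega)
          have hTR : T ⊆ R := hTL.trans (filter_subset _ _)
          have hTne : T.Nonempty := by
            rw [← card_pos, hTc]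
            omega
          refine step T hTR hTne (by omega) fun c hc y => ?_
          have hlight : Psic F π b t y R S' c ≤ κ * Psi F π b t y R S' :=
            (mem_filter.1 (hTL hc)).2 y
          have h1 := Psi_light F π b t ht0 hb0 y R T S' c
          have h2 : Real.exp (-(2 * κ)) ≤ 1 - κ := exp_le _ hκ.le hκ1
          have h3 := hinv y
          have hPs := Psi_nonneg F π b t y R S'
          have hPs0 := Psi_nonneg F π b t y U0 S
          have hTt : t ≤ 4 * (#T : ℝ) := by
            have : q + 1 ≤ 4 * #T := by omega
            rw [ht]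
            exact_mod_cast this
          calc Real.exp (-(6 * τ * (#U0 - #(R \ T)) / t + 8 * κ * max (Thr - #(R \ T)) 0 / t)) *
                Psi F π b t y U0 S
              ≤ Real.exp (-(2 * κ)) *
                (Real.exp (-(6 * τ * (#U0 - #R) / t + 8 * κ * max (Thr - #R) 0 / t)) *
                  Psi F π b t y U0 S) := by
                rw [← mul_assoc, ← Real.exp_add]
                apply mul_le_mul_of_nonneg_right _ hPs0
                apply Real.exp_le_exp.2
                have hc1 : (#(R \ T) : ℝ) = #R - #T := by
                  rw [card_sdiff_of_subset hTR, Nat.cast_sub (card_le_card hTR)]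
                rw [hc1]
                have e1 : 6 * τ * ((#U0 : ℝ) - #R) / t ≤ 6 * τ * (#U0 - (#R - #T)) / t := by
                  apply div_le_div_of_nonneg_right _ ht0.le
                  apply mul_le_mul_of_nonneg_left _ (by positivity)
                  have : (0 : ℝ) ≤ #T := Nat.cast_nonneg _
                  linarith
                have e2 : 8 * κ * max (Thr - #R) 0 / t + 2 * κ ≤
                    8 * κ * max (Thr - (#R - #T)) 0 / t := by
                  have e3 : max (Thr - (#R : ℝ)) 0 = Thr - #R := max_eq_left (by linarith)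
                  have e4 : Thr - #R + #T ≤ max (Thr - ((#R : ℝ) - #T)) 0 := by
                    refine le_trans (le_of_eq ?_) (le_max_left _ _)
                    ring
                  rw [e3, div_add' _ _ _ ht0.ne']
                  apply div_le_div_of_nonneg_right _ ht0.le
                  have e5 : 8 * κ * (Thr - #R + #T) ≤ 8 * κ * max (Thr - ((#R : ℝ) - #T)) 0 :=
                    mul_le_mul_of_nonneg_left e4 (by positivity)
                  have e6 : 2 * κ * t ≤ 2 * κ * (4 * #T) :=
                    mul_le_mul_of_nonneg_left hTt (by positivity)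
                  linarith
                linarith
            _ ≤ (1 - κ) * Psi F π b t y R S' :=
                mul_le_mul h2 h3 (by positivity) (by linarith)
            _ ≤ Psi F π b t y (R \ T) (insert c S') := by linarith
  refine main _ U0 S rfl (Subset.refl _) (Subset.refl _) subset_union_left fun y => ?_
  have hPs0 := Psi_nonneg F π b t y U0 S
  have h1 : Real.exp (-(6 * τ * ((#U0 : ℝ) - #U0) / t + 8 * κ * max (Thr - #U0) 0 / t)) ≤ 1 := by
    apply Real.exp_le_one_iff.2
    have : 0 ≤ 8 * κ * max (Thr - #U0) 0 / t := by positivity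
    rw [sub_self, mul_zero, zero_div]
    linarith
  calc _ ≤ 1 * Psi F π b t y U0 S := mul_le_mul_of_nonneg_right h1 hPs0
    _ = _ := one_mul _

end Pool.Agent.R982.KS.LightGame
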