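import Pool.Agent.R982.KS.Defs

/-! # KS-1: monotonicity of the Waiter-Client game (helper466) -/

open Finset

namespace Pool.Agent.R982.KS.Mono

theorem mono_a {α : Type} [DecidableEq α] (P : Finset α → Prop)
    (hP : ∀ S S' : Finset α, S ⊆ S' → P S → P S') (q : ℕ) :
    ∀ (m : ℕ) (U S : Finset α), #U = m → P S → WCWaiter P q U S := by
  intro m
  induction m using Nat.strong_induction_on with
  | _ m ih =>
    intro U S hm hS
    by_cases h : #U < q + 1
    · exact WCWaiter.done U S h hS
    · obtain ⟨X, hXU, hX⟩ := exists_subset_card_eq (s := U) (n := q + 1) (by omega)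
      refine WCWaiter.step U S X hXU hX fun c _ => ?_
      refine ih #(U \ X) ?_ (U \ X) (insert c S) rfl (hP S _ (subset_insert c S) hS)
      rw [card_sdiff_of_subset hXU]
      omega

theorem mono_b {α : Type} [DecidableEq α] (P : Finset α → Prop)
    (hP : ∀ S S' : Finset α, S ⊆ S' → P S → P S') (q : ℕ) (U S : Finset α)
    (h : WCWaiter P (q + 1) U S) :
    ∀ U' S' : Finset α, U ⊆ U' → S ⊆ S' → WCWaiter P q U' S' := by
  induction h with
  | done U S _ hS =>
    intro U' S' _ hS'
    exact mono_a P hP q _ U' S' rfl (hP S S' hS' hS)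
  | step U S X hXU hX _ ih =>
    intro U' S' hU hS
    obtain ⟨Y, hYX, hY⟩ := exists_subset_card_eq (s := X) (n := q + 1) (by omega)
    refine WCWaiter.step U' S' Y ((hYX.trans hXU).trans hU) hY fun c hc => ?_
    exact ih c (hYX hc) (U' \ Y) (insert c S') (sdiff_subset_sdiff hU hYX)
      (insert_subset_insert c hS)

theorem mono_ok : St_Mono :=
  ⟨fun _ _ P hP q U S hS => mono_a P hP q _ U S rfl hS,
    fun _ _ P hP q U S h => mono_b P hP q U S h⟩

end Pool.Agent.R982.KS.Mono
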