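import Pool.Agent.R982.KS.Defs2

/-!
# KT-8a: choice of parameters
-/

namespace Pool.Agent.R982.KS.Param

theorem param_ok : St_Param := by
  intro g e hg he he1
  obtain ⟨C, hC⟩ : ∃ C : ℕ, 2 / e ≤ (1 + e) ^ C := by
    obtain ⟨C, hC⟩ := pow_unbounded_of_one_lt (2 / e) (by linarith : 1 < 1 + e)
    exact ⟨C, hC.le⟩
  obtain ⟨K1, hK1⟩ := exists_nat_ge
    ((8 * (2 * ((C : ℝ) + 1)) ^ (2 ^ g) * (1 + 4 * (g / e))) / (e * g))
  have hg' : (1 : ℝ) ≤ g := by exact_mod_cast hg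
  have heg : 0 < e * g := by positivity
  refine ⟨2 + K1 + 2 ^ g * 16 * g, by omega, fun k hk => ⟨C * k, ?_⟩⟩
  have hxk : ((k - 1 : ℕ) : ℝ) + 1 = k := by
    have : k - 1 + 1 = k := by omega
    exact_mod_cast this
  have hx0 : 1 + K1 + 2 ^ g * 16 * g ≤ k - 1 := by omega
  have hx0' : (1 : ℝ) + K1 + 2 ^ g * 16 * g ≤ ((k - 1 : ℕ) : ℝ) := by exact_mod_cast hx0
  generalize hx : ((k - 1 : ℕ) : ℝ) = x at hxk hx0' ⊢
  have hK0 : (0 : ℝ) ≤ K1 := Nat.cast_nonneg K1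
  have hp : (0 : ℝ) ≤ 2 ^ g * 16 * g := by positivity
  have hx1 : 1 ≤ x := by linarith
  have hxpos : 0 < x := by linarith
  have hkx : (k : ℝ) = x + 1 := hxk.symm
  have hC0 : (0 : ℝ) ≤ C := Nat.cast_nonneg C
  refine ⟨?_, ?_, ?_⟩
  · have h1 : (1 + e) ^ (C * k) = ((1 + e) ^ C) ^ k := pow_mul _ _ _
    have h2 : (2 / e) ^ k ≤ ((1 + e) ^ C) ^ k := pow_le_pow_left₀ (by positivity) hC k
    have h3 : (2 / e) ^ k * (e / 2 ^ k) = e / e ^ k := by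
      rw [div_pow]
      have : (2 : ℝ) ^ k ≠ 0 := by positivity
      have : e ^ k ≠ 0 := by positivity
      field_simp
    have h4 : e ^ k ≤ e := pow_le_of_le_one he.le (by linarith) (by omega)
    have h5 : 1 ≤ e / e ^ k := (one_le_div (by positivity)).mpr h4
    rw [h1]
    calc (1 : ℝ) ≤ (2 / e) ^ k * (e / 2 ^ k) := by rw [h3]; exact h5
      _ ≤ ((1 + e) ^ C) ^ k * (e / 2 ^ k) := mul_le_mul_of_nonneg_right h2 (by positivity)
  · have ha : ((C * k : ℕ) : ℝ) + 1 ≤ 2 * ((C : ℝ) + 1) * x := by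
      push_cast
      rw [hkx]
      nlinarith
    have ha0 : (0 : ℝ) ≤ ((C * k : ℕ) : ℝ) + 1 := by positivity
    have hy : 0 ≤ (g : ℝ) / e := by positivity
    have hb : 1 + 2 / e * (g * k) ≤ (1 + 4 * (g / e)) * x := by
      have : 2 / e * (g * (k : ℝ)) = 2 * (g / e) * (x + 1) := by rw [hkx]; ring
      rw [this]
      nlinarith
    have hb0 : 0 ≤ 1 + 2 / e * (g * (k : ℝ)) := by positivity
    have hc : (((C * k : ℕ) : ℝ) + 1) ^ (2 ^ g) ≤ (2 * ((C : ℝ) + 1)) ^ (2 ^ g) * x ^ (2 ^ g) := by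
      rw [← mul_pow]
      exact pow_le_pow_left₀ ha0 ha _
    have hd : (((C * k : ℕ) : ℝ) + 1) ^ (2 ^ g) * (1 + 2 / e * (g * k)) ≤
        ((2 * ((C : ℝ) + 1)) ^ (2 ^ g) * x ^ (2 ^ g)) * ((1 + 4 * (g / e)) * x) :=
      mul_le_mul hc hb hb0 (by positivity)
    have hD : 8 * (2 * ((C : ℝ) + 1)) ^ (2 ^ g) * (1 + 4 * (g / e)) ≤ x * (e * g) := by
      have h6 : (8 * (2 * ((C : ℝ) + 1)) ^ (2 ^ g) * (1 + 4 * (g / e))) / (e * g) ≤ x :=
        hK1.trans (by linarith)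
      rwa [div_le_iff₀ heg] at h6
    have hxp : x ^ (2 ^ g + 3) = x ^ (2 ^ g) * x * (x * x) := by ring
    have hxpp : 0 < x ^ (2 ^ g + 3) := by positivity
    have hmain : 8 * ((((C * k : ℕ) : ℝ) + 1) ^ (2 ^ g) * (1 + 2 / e * (g * k))) ≤
        e * g * x ^ (2 ^ g + 3) := by
      calc 8 * ((((C * k : ℕ) : ℝ) + 1) ^ (2 ^ g) * (1 + 2 / e * (g * k)))
          ≤ 8 * (((2 * ((C : ℝ) + 1)) ^ (2 ^ g) * x ^ (2 ^ g)) * ((1 + 4 * (g / e)) * x)) := by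
            linarith
        _ = (8 * (2 * ((C : ℝ) + 1)) ^ (2 ^ g) * (1 + 4 * (g / e))) * (x ^ (2 ^ g) * x) := by ring
        _ ≤ (x * (e * g)) * (x ^ (2 ^ g) * x) := mul_le_mul_of_nonneg_right hD (by positivity)
        _ = (e * g * (x ^ (2 ^ g) * x)) * x := by ring
        _ ≤ (e * g * (x ^ (2 ^ g) * x)) * (x * x) := by
            apply mul_le_mul_of_nonneg_left _ (by positivity)
            nlinarith
        _ = e * g * x ^ (2 ^ g + 3) := by rw [hxp]; ring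
    have hfin : 8 * (1 / x ^ (2 ^ g + 3)) *
        ((((C * k : ℕ) : ℝ) + 1) ^ (2 ^ g) * (1 + 2 / e * (g * k))) =
        (8 * ((((C * k : ℕ) : ℝ) + 1) ^ (2 ^ g) * (1 + 2 / e * (g * k)))) / x ^ (2 ^ g + 3) := by
      ring
    rw [hfin, div_le_iff₀ hxpp]
    exact hmain
  · have hxpp : 0 < x ^ (2 ^ g + 3) := by positivity
    have hx2 : x ^ 2 ≤ x ^ (2 ^ g + 3) := pow_le_pow_right₀ hx1
      (le_trans (by norm_num) (Nat.le_add_left 3 (2 ^ g)))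
    have hfin : (2 : ℝ) ^ g * (2 * g) * (1 / x ^ (2 ^ g + 3)) * k =
        ((2 : ℝ) ^ g * (2 * g) * k) / x ^ (2 ^ g + 3) := by ring
    rw [hfin, div_le_iff₀ hxpp]
    have h7 : (2 : ℝ) ^ g * 16 * g ≤ x := by linarith
    calc (2 : ℝ) ^ g * (2 * g) * k ≤ (2 : ℝ) ^ g * (2 * g) * (2 * x) := by
          apply mul_le_mul_of_nonneg_left _ (by positivity)
          rw [hkx]; linarith
      _ = 1 / 4 * (((2 : ℝ) ^ g * 16 * g) * x) := by ring
      _ ≤ 1 / 4 * (x * x) := by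
          apply mul_le_mul_of_nonneg_left _ (by norm_num)
          exact mul_le_mul_of_nonneg_right h7 hxpos.le
      _ = 1 / 4 * x ^ 2 := by ring
      _ ≤ 1 / 4 * x ^ (2 ^ g + 3) := mul_le_mul_of_nonneg_left hx2 (by norm_num)

end Pool.Agent.R982.KS.Param
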