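import Pool.Agent.R982.KS.Defs2

set_option autoImplicit false

open Finset

namespace Pool.Agent.R982.KS.R1

theorem idx (J : ℕ) (e : ℝ) (x : ℝ) (hx : x ≤ 1) :
    ∃ j : Fin (J + 1), x * (1 + e) ^ (j : ℕ) ≤ 1 ∧
      ((j : ℕ) < J → 1 < x * (1 + e) ^ ((j : ℕ) + 1)) := by
  classical
  have h0 : x * (1 + e) ^ 0 ≤ 1 := by simpa using hx
  refine ⟨⟨Nat.findGreatest (fun j => x * (1 + e) ^ j ≤ 1) J,
    Nat.lt_succ_of_le (Nat.findGreatest_le J)⟩, ?_, ?_⟩
  · exact Nat.findGreatest_spec (P := fun j => x * (1 + e) ^ j ≤ 1) (Nat.zero_le J) h0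
  · intro hj
    simp only at hj ⊢
    have h1 := Nat.findGreatest_is_greatest (P := fun j => x * (1 + e) ^ j ≤ 1)
      (Nat.lt_succ_self (Nat.findGreatest (fun j => x * (1 + e) ^ j ≤ 1) J)) hj
    exact not_le.1 h1

theorem exp_up {u v b : ℝ} (hb : 0 ≤ b) (hu : u ≤ 1) :
    Real.exp (b * u) ≤ Real.exp (b * v) + b * Real.exp b * |u - v| := by
  rcases le_total u v with h | h
  · have h1 : Real.exp (b * u) ≤ Real.exp (b * v) :=
      Real.exp_le_exp.2 (mul_le_mul_of_nonneg_left h hb)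
    have h2 : 0 ≤ b * Real.exp b * |u - v| := by positivity
    linarith
  · rw [abs_of_nonneg (by linarith)]
    have h1 : Real.exp (b * v) = Real.exp (b * u) * Real.exp (-(b * (u - v))) := by
      rw [← Real.exp_add]
      congr 1
      ring
    have h2 : 1 - b * (u - v) ≤ Real.exp (-(b * (u - v))) := Real.one_sub_le_exp_neg _
    have h3 : Real.exp (b * u) ≤ Real.exp b := Real.exp_le_exp.2 (by nlinarith)
    have h4 : 0 < Real.exp (b * u) := Real.exp_pos _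
    have h5 : Real.exp (b * u) * (1 - b * (u - v)) ≤ Real.exp (b * v) := by
      rw [h1]
      exact mul_le_mul_of_nonneg_left h2 h4.le
    have h6 : 0 ≤ b * (u - v) := mul_nonneg hb (by linarith)
    have h7 : Real.exp (b * u) * (b * (u - v)) ≤ Real.exp b * (b * (u - v)) :=
      mul_le_mul_of_nonneg_right h3 h6
    nlinarith

theorem bexp {e : ℝ} (he : 0 < e) (he1 : e ≤ 1 / 10) :
    (1 + 4 * e) * Real.exp (1 + 4 * e) ≤ 6 := by
  have h1 : Real.exp (1 + 4 * e) ≤ Real.exp (7 / 5) := Real.exp_le_exp.2 (by linarith)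
  have h2 : Real.exp (7 / 5) = Real.exp 1 * (Real.exp (1 / 5) * Real.exp (1 / 5)) := by
    rw [← Real.exp_add, ← Real.exp_add]
    norm_num
  have h3 : Real.exp (1 / 5) ≤ 5 / 4 := by
    have h4 : 1 - (1 : ℝ) / 5 ≤ Real.exp (-(1 / 5)) := Real.one_sub_le_exp_neg _
    have h5 : Real.exp (1 / 5) * Real.exp (-(1 / 5)) = 1 := by
      rw [← Real.exp_add]
      norm_num
    have h6 : 0 < Real.exp (1 / 5) := Real.exp_pos _
    nlinarith
  have h7 : Real.exp 1 < 2.7182818286 := Real.exp_one_lt_d9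
  have h8 : 0 < Real.exp (1 / 5) := Real.exp_pos _
  have h9 : Real.exp (1 / 5) * Real.exp (1 / 5) ≤ 25 / 16 := by nlinarith
  have h10 : Real.exp (7 / 5) ≤ 2.7182818286 * (25 / 16) := by
    rw [h2]
    exact mul_le_mul h7.le h9 (by positivity) (by norm_num)
  have h11 : 0 < Real.exp (1 + 4 * e) := Real.exp_pos _
  calc (1 + 4 * e) * Real.exp (1 + 4 * e) ≤ (7 / 5) * Real.exp (1 + 4 * e) := by
        apply mul_le_mul_of_nonneg_right _ h11.le
        linarith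
    _ ≤ (7 / 5) * (2.7182818286 * (25 / 16)) := by
        apply mul_le_mul_of_nonneg_left (h1.trans h10) (by norm_num)
    _ ≤ 6 := by norm_num

theorem exp_small {e : ℝ} (he : 0 < e) (he1 : e ≤ 1 / 10) :
    Real.exp ((1 + 4 * e) * (e / 2)) ≤ 1 + e := by
  have h1 : Real.exp ((1 + 4 * e) * (e / 2)) ≤ Real.exp (7 / 10 * e) :=
    Real.exp_le_exp.2 (by nlinarith)
  have h4 : 1 - 7 / 10 * e ≤ Real.exp (-(7 / 10 * e)) := Real.one_sub_le_exp_neg _
  have h5 : Real.exp (7 / 10 * e) * Real.exp (-(7 / 10 * e)) = 1 := by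
    rw [← Real.exp_add]
    simp
  have h6 : 0 < Real.exp (7 / 10 * e) := Real.exp_pos _
  have h7 : Real.exp (7 / 10 * e) * (1 - 7 / 10 * e) ≤ 1 := by
    have h := mul_le_mul_of_nonneg_left h4 h6.le
    rw [h5] at h
    exact h
  have h8 : 1 ≤ (1 + e) * (1 - 7 / 10 * e) := by nlinarith
  have h9 : 0 < 1 - 7 / 10 * e := by linarith
  have h10 : Real.exp (7 / 10 * e) ≤ 1 + e := by
    by_contra hc
    push Not at hc
    have : (1 + e) * (1 - 7 / 10 * e) < Real.exp (7 / 10 * e) * (1 - 7 / 10 * e) :=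
      mul_lt_mul_of_pos_right hc h9
    linarith
  exact h1.trans h10

theorem core {α Ω : Type} [DecidableEq α] (s : Finset Ω) (F : Ω → Finset α) (w : Ω → ℝ)
    (T : Finset α) (uW : Ω → ℝ) (t : ℕ) (e τ : ℝ) (c : α)
    (hw : ∀ ω, 0 ≤ w ω) (ht : 1 ≤ t) (hT : #T = t) (he : 0 < e) (he1 : e ≤ 1 / 10)
    (hτ : 0 < τ) (hu : ∀ ω, w ω ≠ 0 → uW ω ≤ e / 2)
    (hD : ∑ ω ∈ s, w ω * |(#(F ω ∩ T) : ℝ) / t - uW ω| ≤ τ / 6 * ∑ ω ∈ s, w ω)
    (hcase : ∑ ω ∈ s with c ∈ F ω, w ω ≤ τ * ∑ ω ∈ s, w ω ∨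
      ∀ c' ∈ T, ∑ ω ∈ s with c ∈ F ω, w ω ≤ (1 + e) * ∑ ω ∈ s with c' ∈ F ω, w ω) :
    (1 - 3 * τ) * ∑ ω ∈ s, w ω ≤
      ∑ ω ∈ s with c ∉ F ω, w ω * Real.exp ((1 + 4 * e) * (#(F ω ∩ T) : ℝ) / t) := by
  have htp : (0 : ℝ) < t := by exact_mod_cast ht
  obtain ⟨b, hb⟩ : ∃ b, b = 1 + 4 * e := ⟨_, rfl⟩
  have hb0 : 0 < b := by rw [hb]; linarith
  obtain ⟨uT, huT⟩ : ∃ uT : Ω → ℝ, ∀ ω, uT ω = (#(F ω ∩ T) : ℝ) / t := ⟨_, fun _ => rfl⟩
  have hE : ∀ ω, Real.exp ((1 + 4 * e) * (#(F ω ∩ T) : ℝ) / t) = Real.exp (b * uT ω) := by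
    intro ω
    rw [huT, hb, mul_div_assoc]
  simp_rw [hE]
  simp_rw [← huT] at hD
  have huT1 : ∀ ω, uT ω ≤ 1 := by
    intro ω
    rw [huT, div_le_one htp]
    have : #(F ω ∩ T) ≤ t := by
      rw [← hT]
      exact card_le_card inter_subset_right
    exact_mod_cast this
  have huT0 : ∀ ω, 0 ≤ uT ω := fun ω => by rw [huT]; positivity
  obtain ⟨M, hM⟩ : ∃ M, M = ∑ ω ∈ s, w ω := ⟨_, rfl⟩
  have hM0 : 0 ≤ M := by rw [hM]; exact sum_nonneg fun i _ => hw i
  obtain ⟨k, hk⟩ : ∃ k : α → ℝ, ∀ c, k c = ∑ ω ∈ s with c ∈ F ω, w ω := ⟨_, fun _ => rfl⟩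
  have hk0 : ∀ c, 0 ≤ k c := fun c => by rw [hk]; exact sum_nonneg fun i _ => hw i
  rw [← hM] at hD hcase ⊢
  rw [← hk] at hcase
  -- splitting
  have h1 : ∑ ω ∈ s with c ∈ F ω, w ω * Real.exp (b * uT ω) +
      ∑ ω ∈ s with c ∉ F ω, w ω * Real.exp (b * uT ω) = ∑ ω ∈ s, w ω * Real.exp (b * uT ω) :=
    sum_filter_add_sum_filter_not s (fun ω => c ∈ F ω) _
  have h2 : M + b * ∑ ω ∈ s, w ω * uT ω ≤ ∑ ω ∈ s, w ω * Real.exp (b * uT ω) := by
    rw [hM, mul_sum, ← sum_add_distrib]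
    refine sum_le_sum fun ω _ => ?_
    have h3 := Real.add_one_le_exp (b * uT ω)
    have h4 := hw ω
    nlinarith [mul_le_mul_of_nonneg_left h3 h4]
  have h3 : (t : ℝ) * ∑ ω ∈ s, w ω * uT ω = ∑ c' ∈ T, k c' := by
    have h4 : ∀ c', k c' = ∑ ω ∈ s, if c' ∈ F ω then w ω else 0 := by
      intro c'
      rw [hk, sum_filter]
    simp_rw [h4]
    rw [sum_comm, mul_sum]
    refine sum_congr rfl fun ω _ => ?_
    have h5 : ∑ c' ∈ T, (if c' ∈ F ω then w ω else 0) = (#(F ω ∩ T) : ℝ) * w ω := by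
      rw [← sum_filter, sum_const, nsmul_eq_mul]
      congr 2
      congr 1
      ext x
      simp [and_comm]
    rw [h5, huT]
    field_simp
  have h4 : ∑ ω ∈ s with c ∈ F ω, w ω * Real.exp (b * uT ω) ≤ (1 + e) * k c + τ * M := by
    have h5 : ∀ ω ∈ s.filter (fun ω => c ∈ F ω), w ω * Real.exp (b * uT ω) ≤
        (1 + e) * w ω + 6 * (w ω * |uT ω - uW ω|) := by
      intro ω _
      by_cases hω : w ω = 0
      · simp [hω]
      have h6 : Real.exp (b * uT ω) ≤ Real.exp (b * uW ω) + b * Real.exp b * |uT ω - uW ω| :=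
        exp_up hb0.le (huT1 ω)
      have h7 : Real.exp (b * uW ω) ≤ 1 + e := by
        refine le_trans (Real.exp_le_exp.2 ?_) (exp_small he he1)
        rw [hb]
        exact mul_le_mul_of_nonneg_left (hu ω hω) (by linarith)
      have h8 : b * Real.exp b ≤ 6 := by rw [hb]; exact bexp he he1
      have h9 : b * Real.exp b * |uT ω - uW ω| ≤ 6 * |uT ω - uW ω| :=
        mul_le_mul_of_nonneg_right h8 (abs_nonneg _)
      have h10 : Real.exp (b * uT ω) ≤ (1 + e) + 6 * |uT ω - uW ω| := by linarith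
      have h11 := mul_le_mul_of_nonneg_left h10 (hw ω)
      nlinarith
    refine (sum_le_sum h5).trans ?_
    rw [sum_add_distrib, ← mul_sum, ← mul_sum, ← hk]
    have h6 : ∑ ω ∈ s with c ∈ F ω, w ω * |uT ω - uW ω| ≤ ∑ ω ∈ s, w ω * |uT ω - uW ω| :=
      sum_le_sum_of_subset_of_nonneg (filter_subset _ _)
        fun i _ _ => mul_nonneg (hw i) (abs_nonneg _)
    nlinarith
  have h5 : 0 ≤ ∑ ω ∈ s, w ω * uT ω := sum_nonneg fun ω _ => mul_nonneg (hw ω) (huT0 ω)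
  rcases hcase with hc1 | hc2
  · have h6 : (1 + e) * k c ≤ 2 * (τ * M) := by
      have : 0 ≤ τ * M := by positivity
      nlinarith
    have h7 : 0 ≤ b * ∑ ω ∈ s, w ω * uT ω := by positivity
    nlinarith
  · have h6 : k c ≤ (1 + e) * ∑ ω ∈ s, w ω * uT ω := by
      have h7 : (t : ℝ) * k c ≤ (1 + e) * ∑ c' ∈ T, k c' := by
        rw [mul_sum, ← hT, ← nsmul_eq_mul, ← sum_const]
        refine sum_le_sum fun c' hc' => ?_
        have := hc2 c' hc'
        rw [← hk] at this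
        exact this
      rw [← h3] at h7
      have h8 : (t : ℝ) * k c ≤ t * ((1 + e) * ∑ ω ∈ s, w ω * uT ω) := by linarith
      exact le_of_mul_le_mul_left h8 htp
    have h7 : (1 + e) * k c ≤ b * ∑ ω ∈ s, w ω * uT ω := by
      have h8 : (1 + e) * k c ≤ (1 + e) * ((1 + e) * ∑ ω ∈ s, w ω * uT ω) :=
        mul_le_mul_of_nonneg_left h6 (by linarith)
      have h9 : (1 + e) * (1 + e) ≤ b := by rw [hb]; nlinarith
      have h10 := mul_le_mul_of_nonneg_right h9 h5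
      linarith
    have h8 : 0 ≤ τ * M := by positivity
    nlinarith

theorem r1_of (h : St_Sample) : St_R1 := by
  classical
  intro α Ω Y _ _ _ _ _ F π w R t J e τ hw ht he he1 hτ hτ1 hJ hY hR hu
  have htp : (0 : ℝ) < t := by exact_mod_cast ht
  obtain ⟨Wy, hWy⟩ : ∃ Wy : Y → ℝ, ∀ y, Wy y = ∑ ω with π ω = y, w ω := ⟨_, fun _ => rfl⟩
  have hWy0 : ∀ y, 0 ≤ Wy y := fun y => by rw [hWy]; exact sum_nonneg fun i _ => hw i
  obtain ⟨k, hk⟩ : ∃ k : Y → α → ℝ, ∀ y c, k y c = (∑ ω with (π ω = y ∧ c ∈ F ω), w ω) / Wy y :=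
    ⟨_, fun _ _ => rfl⟩
  have hknum : ∀ y c, ∑ ω with (π ω = y ∧ c ∈ F ω), w ω ≤ Wy y := by
    intro y c
    rw [hWy]
    refine sum_le_sum_of_subset_of_nonneg ?_ fun i _ _ => hw i
    intro ω hω
    simp only [mem_filter, mem_univ, true_and] at hω ⊢
    exact hω.1
  have hk1 : ∀ y c, k y c ≤ 1 := by
    intro y c
    rw [hk]
    exact div_le_one_of_le₀ (hknum y c) (hWy0 y)
  have hkmul : ∀ y c, k y c * Wy y = ∑ ω with (π ω = y ∧ c ∈ F ω), w ω := by
    intro y c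
    rw [hk]
    by_cases h0 : Wy y = 0
    · rw [h0, mul_zero]
      refine le_antisymm (sum_nonneg fun i _ => hw i) ?_
      have := hknum y c
      rw [h0] at this
      exact this
    · exact div_mul_cancel₀ _ h0
  choose jj hj1 hj2 using fun (y : Y) (c : α) => idx J e (k y c) (hk1 y c)
  -- the class
  have hN : (0 : ℝ) < ((J : ℝ) + 1) ^ Fintype.card Y := by positivity
  obtain ⟨cl, -, hcl⟩ : ∃ v ∈ (univ : Finset (Y → Fin (J + 1))),
      (#R : ℝ) / ((J : ℝ) + 1) ^ Fintype.card Y ≤ #(R.filter (fun c => (fun y => jj y c) = v)) := by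
    refine exists_le_card_fiber_of_nsmul_le_card_of_maps_to (fun _ _ => mem_univ _) univ_nonempty ?_
    rw [card_univ, Fintype.card_fun, Fintype.card_fin, nsmul_eq_mul]
    push_cast
    rw [mul_div_cancel₀ _ hN.ne']
  obtain ⟨W, hW⟩ : ∃ W, W = R.filter (fun c => (fun y => jj y c) = cl) := ⟨_, rfl⟩
  rw [← hW] at hcl
  have hWR : W ⊆ R := by rw [hW]; exact filter_subset _ _
  have hWj : ∀ c ∈ W, ∀ y, jj y c = cl y := by
    intro c hc y
    rw [hW, mem_filter] at hc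
    exact congrFun hc.2 y
  have hcl' : (#R : ℝ) ≤ #W * ((J : ℝ) + 1) ^ Fintype.card Y := (div_le_iff₀ hN).1 hcl
  have htW : t ≤ #W := by
    have h1 : ((J : ℝ) + 1) ^ Fintype.card Y * t ≤ #R := by exact_mod_cast hR
    have h2 : (t : ℝ) * ((J : ℝ) + 1) ^ Fintype.card Y ≤ #W * ((J : ℝ) + 1) ^ Fintype.card Y := by
      linarith
    exact_mod_cast le_of_mul_le_mul_right h2 hN
  have hWp : (0 : ℝ) < #W := by
    have : (t : ℝ) ≤ #W := by exact_mod_cast htW
    linarith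
  have huW : ∀ ω, w ω ≠ 0 → (#(F ω ∩ W) : ℝ) / #W ≤ e / 2 := by
    intro ω hω
    rw [div_le_iff₀ hWp]
    have h1 := hu ω hω
    have h2 : (#(F ω ∩ W) : ℝ) ≤ #(F ω ∩ R) := by
      exact_mod_cast card_le_card (inter_subset_inter_left hWR)
    have h3 : (#(F ω ∩ W) : ℝ) * ((J : ℝ) + 1) ^ Fintype.card Y ≤
        (e / 2 * #W) * ((J : ℝ) + 1) ^ Fintype.card Y := by
      calc (#(F ω ∩ W) : ℝ) * ((J : ℝ) + 1) ^ Fintype.card Y
          ≤ #(F ω ∩ R) * ((J : ℝ) + 1) ^ Fintype.card Y := mul_le_mul_of_nonneg_right h2 hN.le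
        _ ≤ e / 2 * #R := h1
        _ ≤ e / 2 * (#W * ((J : ℝ) + 1) ^ Fintype.card Y) :=
            mul_le_mul_of_nonneg_left hcl' (by linarith)
        _ = _ := by ring
    exact le_of_mul_le_mul_right h3 hN
  -- the classes of positive weight
  obtain ⟨Yp, hYp⟩ : ∃ Yp : Finset Y, Yp = univ.filter (fun y => Wy y ≠ 0) := ⟨_, rfl⟩
  have hz : ∀ y, Wy y = 0 → ∀ ω, π ω = y → w ω = 0 := by
    intro y hy ω hω
    rw [hWy] at hy
    exact (sum_eq_zero_iff_of_nonneg fun i _ => hw i).1 hy ω (by simp [hω])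
  by_cases hYe : Yp = ∅
  · obtain ⟨T, hT, hTt⟩ := Finset.exists_subset_card_eq htW
    refine ⟨T, hT.trans hWR, hTt, fun c _ y => ?_⟩
    have hy : Wy y = 0 := by
      by_contra hne
      have : y ∈ Yp := by rw [hYp]; simp [hne]
      rw [hYe] at this
      simp at this
    rw [← hWy, hy, mul_zero]
    exact sum_nonneg fun ω _ => mul_nonneg (hw ω) (Real.exp_pos _).le
  have hYn : Yp.Nonempty := nonempty_iff_ne_empty.2 hYe
  have hNp : (0 : ℝ) < #Yp := by exact_mod_cast card_pos.2 hYn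
  have hNle : (#Yp : ℝ) ≤ Fintype.card Y := by exact_mod_cast card_le_univ Yp
  obtain ⟨p, hp⟩ : ∃ p : Ω → ℝ, ∀ ω, p ω = w ω / (Wy (π ω) * #Yp) := ⟨_, fun _ => rfl⟩
  have hp0 : ∀ ω, 0 ≤ p ω := fun ω => by
    rw [hp]
    exact div_nonneg (hw ω) (mul_nonneg (hWy0 _) hNp.le)
  have hp1 : ∑ ω, p ω = 1 := by
    rw [← sum_fiberwise_of_maps_to (t := (univ : Finset Y)) (g := π) (fun _ _ => mem_univ _)]
    have h1 : ∀ y ∈ (univ : Finset Y), ∑ ω with π ω = y, p ω =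
        if Wy y ≠ 0 then 1 / (#Yp : ℝ) else 0 := by
      intro y _
      have h2 : ∑ ω with π ω = y, p ω = (∑ ω with π ω = y, w ω) / (Wy y * #Yp) := by
        rw [sum_div]
        refine sum_congr rfl fun ω hω => ?_
        simp only [mem_filter, mem_univ, true_and] at hω
        rw [hp, hω]
      rw [h2, ← hWy]
      by_cases h0 : Wy y = 0
      · simp [h0]
      · rw [if_pos h0]
        field_simp
    rw [sum_congr rfl h1, ← sum_filter, ← hYp, sum_const, nsmul_eq_mul]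
    field_simp
  obtain ⟨T, hTW, hTt, hD⟩ := h α Ω F p W t hp0 hp1 ht htW
  refine ⟨T, hTW.trans hWR, hTt, fun c hc y => ?_⟩
  by_cases hy : Wy y = 0
  · rw [← hWy, hy, mul_zero]
    exact sum_nonneg fun ω _ => mul_nonneg (hw ω) (Real.exp_pos _).le
  have hyp : 0 < Wy y := lt_of_le_of_ne (hWy0 y) (Ne.symm hy)
  have hmain := core (univ.filter (fun ω => π ω = y)) F w T (fun ω => (#(F ω ∩ W) : ℝ) / #W) t e τ c
    hw ht hTt he he1 hτ huW ?_ ?_
  · rw [filter_filter] at hmain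
    exact hmain
  · -- the deviation
    have h1 : ∑ ω with π ω = y, p ω * |(#(F ω ∩ T) : ℝ) / t - (#(F ω ∩ W) : ℝ) / #W| ≤
        1 / Real.sqrt t := by
      refine le_trans ?_ hD
      exact sum_le_sum_of_subset_of_nonneg (filter_subset _ _)
        fun i _ _ => mul_nonneg (hp0 i) (abs_nonneg _)
    have h2 : ∑ ω with π ω = y, w ω * |(#(F ω ∩ T) : ℝ) / t - (#(F ω ∩ W) : ℝ) / #W| =
        (Wy y * #Yp) * ∑ ω with π ω = y, p ω * |(#(F ω ∩ T) : ℝ) / t - (#(F ω ∩ W) : ℝ) / #W| := by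
      rw [mul_sum]
      refine sum_congr rfl fun ω hω => ?_
      simp only [mem_filter, mem_univ, true_and] at hω
      rw [hp, hω]
      field_simp
    rw [h2, ← hWy]
    have hs : 0 < Real.sqrt t := Real.sqrt_pos.2 htp
    have h3 : (Fintype.card Y : ℝ) * (1 / Real.sqrt t) ≤ τ / 6 := by
      have h4 : 6 * (Fintype.card Y : ℝ) / τ ≤ Real.sqrt t := by
        apply Real.le_sqrt_of_sq_le
        have h41 : (6 * (Fintype.card Y : ℝ) / τ) ^ 2 = 36 * (Fintype.card Y : ℝ) ^ 2 / τ ^ 2 := by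
          rw [div_pow, mul_pow]
          norm_num
        rw [h41]
        exact hY
      rw [div_le_iff₀ hτ] at h4
      rw [mul_one_div, div_le_iff₀ hs]
      linarith
    have h5 : (#Yp : ℝ) * (1 / Real.sqrt t) ≤ τ / 6 :=
      (mul_le_mul_of_nonneg_right hNle (by positivity)).trans h3
    calc (Wy y * #Yp) * ∑ ω with π ω = y, p ω * |(#(F ω ∩ T) : ℝ) / t - (#(F ω ∩ W) : ℝ) / #W|
        ≤ (Wy y * #Yp) * (1 / Real.sqrt t) := mul_le_mul_of_nonneg_left h1 (by positivity)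
      _ = Wy y * (#Yp * (1 / Real.sqrt t)) := by ring
      _ ≤ Wy y * (τ / 6) := mul_le_mul_of_nonneg_left h5 hyp.le
      _ = τ / 6 * Wy y := by ring
  · -- the two cases
    have hs : ∀ c', ∑ ω ∈ univ.filter (fun ω => π ω = y) with c' ∈ F ω, w ω = k y c' * Wy y := by
      intro c'
      rw [hkmul, filter_filter]
    rw [← hWy]
    simp_rw [hs]
    by_cases hlt : ((cl y : Fin (J + 1)) : ℕ) < J
    · right
      intro c' hc'
      have e1 := hj1 y c
      have e2 := hj2 y c'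
      rw [hWj c (hTW hc) y] at e1
      rw [hWj c' (hTW hc') y] at e2
      have e3 := e2 hlt
      have hpw : 0 < (1 + e) ^ ((cl y : Fin (J + 1)) : ℕ) := by positivity
      rw [pow_succ] at e3
      have e4 : k y c * (1 + e) ^ ((cl y : Fin (J + 1)) : ℕ) ≤
          ((1 + e) * k y c') * (1 + e) ^ ((cl y : Fin (J + 1)) : ℕ) := by
        nlinarith
      have e5 := le_of_mul_le_mul_right e4 hpw
      calc k y c * Wy y ≤ ((1 + e) * k y c') * Wy y := mul_le_mul_of_nonneg_right e5 hyp.le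
        _ = _ := by ring
    · left
      have hle : ((cl y : Fin (J + 1)) : ℕ) = J := by
        have := (cl y).2
        omega
      have e1 := hj1 y c
      rw [hWj c (hTW hc) y, hle] at e1
      have hpw : 0 < (1 + e) ^ J := by positivity
      have e4 : k y c * (1 + e) ^ J ≤ τ * (1 + e) ^ J := by nlinarith
      exact mul_le_mul_of_nonneg_right (le_of_mul_le_mul_right e4 hpw) hyp.le

end Pool.Agent.R982.KS.R1
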