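import Pool.Agent.R982.KS.Defs

/-!
Project KS, piece KS-4: a balanced subset of prescribed size, greedily (helper606).
-/

set_option autoImplicit false

namespace Pool.Agent.R982.KS.Sample

open Finset Pool.Agent.R982.KS

theorem greedy {α Ω : Type} [DecidableEq α] [Fintype Ω] (h : Ω → α → ℝ) (p : Ω → ℝ)
    (W : Finset α) (hp : ∀ ω, 0 ≤ p ω) (hp1 : ∑ ω, p ω = 1) (hsum : ∀ ω, ∑ c ∈ W, h ω c = 0)
    (hb : ∀ ω c, |h ω c| ≤ 1) : ∀ j : ℕ, j ≤ #W →
    ∃ T ⊆ W, #T = j ∧ ∑ ω, p ω * (∑ c ∈ T, h ω c) ^ 2 ≤ j := by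
  intro j
  induction j with
  | zero =>
    intro _
    exact ⟨∅, Finset.empty_subset _, Finset.card_empty, by simp⟩
  | succ j ih =>
    intro hj
    obtain ⟨T, hTW, hTj, hT⟩ := ih (by omega)
    have hcard : #(W \ T) = #W - j := by rw [Finset.card_sdiff_of_subset hTW, hTj]
    have hne : (W \ T).Nonempty := by
      rw [← Finset.card_pos]
      omega
    have hsq : ∀ ω c, (h ω c) ^ 2 ≤ 1 := fun ω c => by
      rw [sq_le_one_iff_abs_le_one]
      exact hb ω c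
    have hcomp : ∀ ω, ∑ c ∈ W \ T, h ω c = -∑ c ∈ T, h ω c := by
      intro ω
      have h1 := Finset.sum_sdiff (f := h ω) hTW
      rw [hsum] at h1
      linarith
    have key : ∑ c ∈ W \ T, ∑ ω, p ω * (∑ c' ∈ T, h ω c' + h ω c) ^ 2 ≤
        ∑ _c ∈ W \ T, ((j : ℝ) + 1) := by
      rw [Finset.sum_comm]
      have h1 : ∀ ω ∈ (univ : Finset Ω), ∑ c ∈ W \ T, p ω * (∑ c' ∈ T, h ω c' + h ω c) ^ 2 ≤
          (#(W \ T) : ℝ) * (p ω * (∑ c' ∈ T, h ω c') ^ 2) + (#(W \ T) : ℝ) * p ω := by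
        intro ω _
        set S := ∑ c' ∈ T, h ω c' with hS
        have h2 : ∑ c ∈ W \ T, p ω * (S + h ω c) ^ 2 =
            (#(W \ T) : ℝ) * (p ω * S ^ 2) + 2 * (p ω * S) * ∑ c ∈ W \ T, h ω c +
              p ω * ∑ c ∈ W \ T, (h ω c) ^ 2 := by
          have e1 : ∀ c ∈ W \ T, p ω * (S + h ω c) ^ 2 =
              p ω * S ^ 2 + (2 * (p ω * S)) * h ω c + p ω * (h ω c) ^ 2 := fun c _ => by ring
          rw [Finset.sum_congr rfl e1, Finset.sum_add_distrib, Finset.sum_add_distrib,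
            Finset.sum_const, nsmul_eq_mul, ← Finset.mul_sum, ← Finset.mul_sum]
        rw [h2, hcomp ω, ← hS]
        have h3 : ∑ c ∈ W \ T, (h ω c) ^ 2 ≤ (#(W \ T) : ℝ) := by
          refine (Finset.sum_le_sum fun c _ => hsq ω c).trans ?_
          rw [Finset.sum_const, nsmul_eq_mul, mul_one]
        have h4 : p ω * ∑ c ∈ W \ T, (h ω c) ^ 2 ≤ p ω * (#(W \ T) : ℝ) :=
          mul_le_mul_of_nonneg_left h3 (hp ω)
        have h5 : 0 ≤ p ω * S ^ 2 := mul_nonneg (hp ω) (sq_nonneg _)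
        nlinarith
      refine (Finset.sum_le_sum h1).trans ?_
      rw [Finset.sum_add_distrib, ← Finset.mul_sum, ← Finset.mul_sum, hp1, Finset.sum_const,
        nsmul_eq_mul]
      have h6 : (0 : ℝ) ≤ (#(W \ T) : ℝ) := Nat.cast_nonneg _
      nlinarith
    obtain ⟨c, hc, hcle⟩ := Finset.exists_le_of_sum_le hne key
    have hcT : c ∉ T := (Finset.mem_sdiff.1 hc).2
    refine ⟨insert c T, ?_, ?_, ?_⟩
    · intro x hx
      rcases Finset.mem_insert.1 hx with h1 | h1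
      · rw [h1]
        exact (Finset.mem_sdiff.1 hc).1
      · exact hTW h1
    · rw [Finset.card_insert_of_notMem hcT, hTj]
    · have h1 : ∀ ω, ∑ c' ∈ insert c T, h ω c' = ∑ c' ∈ T, h ω c' + h ω c := by
        intro ω
        rw [Finset.sum_insert hcT, add_comm]
      simp only [h1]
      push_cast
      exact hcle

theorem sample_ok : St_Sample := by
  intro α Ω _ _ F p W t hp hp1 ht htW
  have hN : (0 : ℝ) < #W := by
    exact_mod_cast lt_of_lt_of_le ht htW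
  have ht0 : (0 : ℝ) < t := by exact_mod_cast ht
  let u : Ω → ℝ := fun ω => (#(F ω ∩ W) : ℝ) / #W
  have hu0 : ∀ ω, 0 ≤ u ω := fun ω => div_nonneg (Nat.cast_nonneg _) hN.le
  have hu1 : ∀ ω, u ω ≤ 1 := fun ω => by
    change (#(F ω ∩ W) : ℝ) / #W ≤ 1
    rw [div_le_one hN]
    exact_mod_cast Finset.card_le_card Finset.inter_subset_right
  let h : Ω → α → ℝ := fun ω c => (if c ∈ F ω then 1 else 0) - u ω
  have hsumT : ∀ (ω : Ω) (T : Finset α), ∑ c ∈ T, h ω c = (#(F ω ∩ T) : ℝ) - #T * u ω := by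
    intro ω T
    change ∑ c ∈ T, ((if c ∈ F ω then (1 : ℝ) else 0) - u ω) = _
    rw [Finset.sum_sub_distrib, Finset.sum_const, nsmul_eq_mul, Finset.sum_boole,
      Finset.filter_mem_eq_inter, Finset.inter_comm]
  have hsum : ∀ ω, ∑ c ∈ W, h ω c = 0 := by
    intro ω
    rw [hsumT]
    change (#(F ω ∩ W) : ℝ) - #W * ((#(F ω ∩ W) : ℝ) / #W) = 0
    field_simp
    ring
  have hb : ∀ ω c, |h ω c| ≤ 1 := by
    intro ω c
    change |(if c ∈ F ω then (1 : ℝ) else 0) - u ω| ≤ 1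
    rw [abs_le]
    have h1 := hu0 ω
    have h2 := hu1 ω
    split_ifs <;> constructor <;> linarith
  obtain ⟨T, hTW, hTt, hT⟩ := greedy h p W hp hp1 hsum hb t htW
  refine ⟨T, hTW, hTt, ?_⟩
  have hst : 0 < Real.sqrt t := Real.sqrt_pos.2 ht0
  have hst2 : Real.sqrt t * Real.sqrt t = t := Real.mul_self_sqrt ht0.le
  have h1 : ∀ ω ∈ (univ : Finset Ω), p ω * |(#(F ω ∩ T) : ℝ) / t - (#(F ω ∩ W) : ℝ) / #W| ≤
      (1 / (2 * t * Real.sqrt t)) * (p ω * (∑ c ∈ T, h ω c) ^ 2) +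
        (Real.sqrt t / (2 * t)) * p ω := by
    intro ω _
    have h2 : (#(F ω ∩ T) : ℝ) / t - (#(F ω ∩ W) : ℝ) / #W = (∑ c ∈ T, h ω c) / t := by
      rw [hsumT, hTt]
      change _ - u ω = _
      field_simp
    rw [h2, abs_div, abs_of_pos ht0]
    set S := ∑ c ∈ T, h ω c
    have h3 : |S| ≤ (1 / (2 * Real.sqrt t)) * S ^ 2 + Real.sqrt t / 2 := by
      have h4 : 0 ≤ (|S| - Real.sqrt t) ^ 2 := sq_nonneg _
      have h5 : |S| ^ 2 = S ^ 2 := sq_abs S
      have h6 : (1 / (2 * Real.sqrt t)) * S ^ 2 + Real.sqrt t / 2 - |S| =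
          (1 / (2 * Real.sqrt t)) * (|S| - Real.sqrt t) ^ 2 := by
        rw [← h5]
        field_simp
        ring
      have h7 : 0 ≤ (1 / (2 * Real.sqrt t)) * (|S| - Real.sqrt t) ^ 2 := by positivity
      linarith
    have h8 : p ω * (|S| / t) ≤ p ω * (((1 / (2 * Real.sqrt t)) * S ^ 2 + Real.sqrt t / 2) / t) :=
      mul_le_mul_of_nonneg_left (div_le_div_of_nonneg_right h3 ht0.le) (hp ω)
    refine h8.trans (le_of_eq ?_)
    field_simp
  refine (Finset.sum_le_sum h1).trans ?_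
  rw [Finset.sum_add_distrib, ← Finset.mul_sum, ← Finset.mul_sum, hp1, mul_one]
  have h9 : (1 / (2 * t * Real.sqrt t)) * ∑ ω, p ω * (∑ c ∈ T, h ω c) ^ 2 ≤
      (1 / (2 * t * Real.sqrt t)) * t := mul_le_mul_of_nonneg_left hT (by positivity)
  refine (add_le_add_left h9 _).trans (le_of_eq ?_)
  clear h9 h1 hT
  generalize Real.sqrt t = s at *
  rw [← hst2]
  field_simp
  ring

end Pool.Agent.R982.KS.Sample
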