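import Pool.Agent.R982.KS.Defs

set_option autoImplicit false

open Finset

namespace Pool.Agent.R982.KS.Step

theorem exp_lip {x y : ℝ} (hx : x ≤ 1) (hy : y ≤ 1) :
    |Real.exp x - Real.exp y| ≤ Real.exp 1 * |x - y| := by
  have key : ∀ a b : ℝ, a ≤ b → b ≤ 1 → |Real.exp a - Real.exp b| ≤ Real.exp 1 * |a - b| := by
    intro a b hab hb
    have h1 : Real.exp a ≤ Real.exp b := Real.exp_le_exp.2 hab
    rw [abs_of_nonpos (by linarith), abs_of_nonpos (by linarith)]
    have h2 : Real.exp a = Real.exp b * Real.exp (a - b) := by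
      rw [← Real.exp_add]
      congr 1
      ring
    have h3 : a - b + 1 ≤ Real.exp (a - b) := Real.add_one_le_exp _
    have h4 : Real.exp b ≤ Real.exp 1 := Real.exp_le_exp.2 hb
    have h5 : 0 < Real.exp b := Real.exp_pos _
    have h6 : Real.exp b * (a - b + 1) ≤ Real.exp b * Real.exp (a - b) :=
      mul_le_mul_of_nonneg_left h3 h5.le
    have h7 : Real.exp b * (b - a) ≤ Real.exp 1 * (b - a) :=
      mul_le_mul_of_nonneg_right h4 (by linarith)
    rw [h2]
    nlinarith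
  rcases le_total x y with h | h
  · exact key x y h hy
  · rw [abs_sub_comm, abs_sub_comm x y]
    exact key y x h hx

theorem step_of (h4 : St_Sample) (h5 : St_Extremal) : St_Step := by
  intro α Ω _ _ F w R t δ hw ht hδ hδ1 hbig hR
  have htR : t ≤ #R := by
    have h1 : (1 : ℝ) ≤ Real.exp (4 / δ) := Real.one_le_exp (by positivity)
    have h2 : (t : ℝ) ≤ #R := by
      refine le_trans ?_ hR
      exact le_mul_of_one_le_right (Nat.cast_nonneg t) h1
    exact_mod_cast h2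
  by_cases h0 : ∑ ω, w ω = 0
  · obtain ⟨T, hT, hTt⟩ := Finset.exists_subset_card_eq htR
    refine ⟨T, hT, hTt, fun c _ => ?_⟩
    have h1 : ∀ ω, w ω = 0 := by
      intro ω
      exact (Finset.sum_eq_zero_iff_of_nonneg fun i _ => hw i).1 h0 ω (mem_univ _)
    simp [h1]
  have hs : 0 < ∑ ω, w ω := lt_of_le_of_ne (Finset.sum_nonneg fun i _ => hw i) (Ne.symm h0)
  set s : ℝ := ∑ ω, w ω with hsdef
  set p : Ω → ℝ := fun ω => w ω / s with hpdef
  have hp : ∀ ω, 0 ≤ p ω := fun ω => div_nonneg (hw ω) hs.le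
  have hp1 : ∑ ω, p ω = 1 := by
    simp only [hpdef]
    rw [← Finset.sum_div]
    exact div_self hs.ne'
  obtain ⟨W, hWR, htW, hW⟩ := h5 α Ω F p R t (δ / 2) hp hp1 ht (by positivity) (by
    have : 2 / (δ / 2) = 4 / δ := by
      field_simp
      norm_num
    rw [this]
    exact hR)
  obtain ⟨T, hTW, hTt, hD⟩ := h4 α Ω F p W t hp hp1 ht htW
  refine ⟨T, hTW.trans hWR, hTt, fun c hc => ?_⟩
  have hWc := hW c (hTW hc)
  have ht0 : (0 : ℝ) < t := by exact_mod_cast ht
  have hW0 : (0 : ℝ) < #W := by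
    have : 0 < #W := by omega
    exact_mod_cast this
  set u : Ω → ℝ := fun ω => (#(F ω ∩ T) : ℝ) / t with hudef
  set v : Ω → ℝ := fun ω => (#(F ω ∩ W) : ℝ) / #W with hvdef
  have hu1 : ∀ ω, u ω ≤ 1 := by
    intro ω
    rw [hudef]
    refine (div_le_one ht0).2 ?_
    have : #(F ω ∩ T) ≤ t := by
      rw [← hTt]
      exact card_le_card inter_subset_right
    exact_mod_cast this
  have hv1 : ∀ ω, v ω ≤ 1 := by
    intro ω
    rw [hvdef]
    refine (div_le_one hW0).2 ?_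
    have : #(F ω ∩ W) ≤ #W := card_le_card inter_subset_right
    exact_mod_cast this
  change ∑ ω, p ω * |u ω - v ω| ≤ 1 / Real.sqrt t at hD
  change ∑ ω, p ω * (v ω * Real.exp (v ω)) - δ / 2 ≤
    ∑ ω with c ∈ F ω, p ω * Real.exp (v ω) at hWc
  change ∑ ω with c ∉ F ω, w ω * Real.exp (u ω) ≤ (1 + δ) * s
  have hsq : 1 / Real.sqrt t ≤ δ / 12 := by
    have h1 : 12 / δ ≤ Real.sqrt t := by
      apply Real.le_sqrt_of_sq_le
      have : (12 / δ) ^ 2 = 144 / δ ^ 2 := by
        rw [div_pow]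
        norm_num
      rw [this]
      exact hbig
    have h2 : 0 < 12 / δ := by positivity
    calc 1 / Real.sqrt t ≤ 1 / (12 / δ) := one_div_le_one_div_of_le h2 h1
      _ = δ / 12 := by rw [one_div_div]
  set D : ℝ := ∑ ω, p ω * |u ω - v ω| with hDdef
  have hlip : ∀ ω, |p ω * Real.exp (u ω) - p ω * Real.exp (v ω)| ≤
      Real.exp 1 * (p ω * |u ω - v ω|) := by
    intro ω
    rw [← mul_sub, abs_mul, abs_of_nonneg (hp ω)]
    have := mul_le_mul_of_nonneg_left (exp_lip (hu1 ω) (hv1 ω)) (hp ω)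
    linarith
  have hall : ∑ ω, p ω * Real.exp (u ω) ≤ ∑ ω, p ω * Real.exp (v ω) + Real.exp 1 * D := by
    rw [hDdef, Finset.mul_sum, ← Finset.sum_add_distrib]
    refine Finset.sum_le_sum fun ω _ => ?_
    have := (abs_le.1 (hlip ω)).2
    linarith
  have hin : ∑ ω with c ∈ F ω, p ω * Real.exp (v ω) - Real.exp 1 * D ≤
      ∑ ω with c ∈ F ω, p ω * Real.exp (u ω) := by
    have h1 : ∑ ω with c ∈ F ω, Real.exp 1 * (p ω * |u ω - v ω|) ≤ Real.exp 1 * D := by
      rw [hDdef, Finset.mul_sum]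
      refine Finset.sum_le_sum_of_subset_of_nonneg (filter_subset _ _) fun ω _ _ => ?_
      exact mul_nonneg (Real.exp_pos _).le (mul_nonneg (hp ω) (abs_nonneg _))
    have h2 : ∑ ω with c ∈ F ω, p ω * Real.exp (v ω) ≤
        ∑ ω with c ∈ F ω, p ω * Real.exp (u ω) +
          ∑ ω with c ∈ F ω, Real.exp 1 * (p ω * |u ω - v ω|) := by
      rw [← Finset.sum_add_distrib]
      refine Finset.sum_le_sum fun ω _ => ?_
      have := (abs_le.1 (hlip ω)).1
      linarith
    linarith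
  have hsplit : ∑ ω with c ∈ F ω, p ω * Real.exp (u ω) +
      ∑ ω with c ∉ F ω, p ω * Real.exp (u ω) = ∑ ω, p ω * Real.exp (u ω) :=
    Finset.sum_filter_add_sum_filter_not _ _ _
  have hone : ∑ ω, p ω * Real.exp (v ω) - ∑ ω, p ω * (v ω * Real.exp (v ω)) ≤ 1 := by
    rw [← hp1, ← Finset.sum_sub_distrib]
    refine Finset.sum_le_sum fun ω _ => ?_
    have h1 : 1 - v ω ≤ Real.exp (-v ω) := Real.one_sub_le_exp_neg _
    have h2 : (1 - v ω) * Real.exp (v ω) ≤ 1 := by
      calc (1 - v ω) * Real.exp (v ω) ≤ Real.exp (-v ω) * Real.exp (v ω) :=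
            mul_le_mul_of_nonneg_right h1 (Real.exp_pos _).le
        _ = 1 := by rw [← Real.exp_add]; simp
    have h3 := mul_le_mul_of_nonneg_left h2 (hp ω)
    linarith
  have he : Real.exp 1 < 3 := by
    have := Real.exp_one_lt_d9
    linarith
  have hD1 : D ≤ δ / 12 := hD.trans hsq
  have hD0 : 0 ≤ D := Finset.sum_nonneg fun ω _ => mul_nonneg (hp ω) (abs_nonneg _)
  have heD : Real.exp 1 * D ≤ 3 * (δ / 12) :=
    mul_le_mul he.le hD1 hD0 (by norm_num)
  have hfin : ∑ ω with c ∉ F ω, p ω * Real.exp (u ω) ≤ 1 + δ := by linarith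
  have hw2 : ∑ ω with c ∉ F ω, w ω * Real.exp (u ω) =
      s * ∑ ω with c ∉ F ω, p ω * Real.exp (u ω) := by
    rw [Finset.mul_sum]
    refine Finset.sum_congr rfl fun ω _ => ?_
    simp only [hpdef]
    field_simp
  rw [hw2]
  calc s * ∑ ω with c ∉ F ω, p ω * Real.exp (u ω) ≤ s * (1 + δ) :=
        mul_le_mul_of_nonneg_left hfin hs.le
    _ = (1 + δ) * s := mul_comm _ _

end Pool.Agent.R982.KS.Step
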