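import Mathlib
import Pool.Agent.R982.KS.Defs

/-!
# KS-9: choice of parameters in the Waiter-Client game (MP_fefad7_co)
-/

open Finset

namespace Pool.Agent.R982.KS.WCbig

open Pool.Agent.R982.KS

lemma unsat_eq (n : ℕ) : (Unsat : Finset (Finset (Lit n)) → Prop) = Hit Fal := by
  funext S
  apply propext
  unfold Unsat Hit Fal
  constructor
  · intro h a
    obtain ⟨c, hc, h'⟩ := h a
    exact ⟨c, hc, Finset.mem_filter.2 ⟨mem_univ _, h'⟩⟩
  · intro h a
    obtain ⟨c, hc, h'⟩ := h a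
    exact ⟨c, hc, (Finset.mem_filter.1 h').2⟩

lemma unsat_mono (n : ℕ) (S S' : Finset (Finset (Lit n))) (h : S ⊆ S') (hS : Unsat S) :
    Unsat S' := by
  intro a
  obtain ⟨c, hc, h'⟩ := hS a
  exact ⟨c, h hc, h'⟩

lemma descend (h1 : St_Mono) (n k q j : ℕ) (h : WCWaiter Unsat (q + j) (board n k) ∅) :
    WCWaiter Unsat q (board n k) ∅ := by
  induction j with
  | zero => exact h
  | succ j ih =>
    exact ih (h1.2 _ Unsat (unsat_mono n) (q + j) _ _ h _ _ (Finset.Subset.refl _)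
      (Finset.Subset.refl _))

lemma choose_two_le (n k : ℕ) (hk : 2 ≤ k) (hn : 2 * k ≤ n) : n.choose 2 ≤ n.choose k := by
  induction k, hk using Nat.le_induction with
  | base => exact le_rfl
  | succ k hk ih =>
    exact (ih (by omega)).trans (Nat.choose_le_succ_of_lt_half_left (by omega))

lemma big (h7 : St_WCpot) (h8 : St_Count) (n k q : ℕ) (ε δ : ℝ) (hε : 0 < ε)
    (hδ : 0 < δ) (hδ1 : δ ≤ 1) (hδ2 : δ * 2 ^ k = ε / 2) (hq : 144 / δ ^ 2 ≤ (q : ℝ) + 1)
    (hM : Real.exp (4 / δ) < ε / 2 * (n * Real.log 2))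
    (h : ((q : ℝ) + 1) * (n * Real.log 2) ≤ (1 - ε) * (n.choose k : ℝ)) :
    WCWaiter Unsat q (board n k) ∅ := by
  rw [unsat_eq]
  have ht : (0 : ℝ) < (q : ℝ) + 1 := by positivity
  refine h7 (Finset (Lit n)) (Fin n → Bool) Fal q δ (board n k) ∅ hδ hδ1 hq ?_
  have hfil : (univ.filter fun ω : Fin n → Bool => Disjoint (Fal ω) (∅ : Finset (Finset (Lit n))))
      = univ := by
    rw [Finset.filter_eq_self]
    intro ω _
    exact Finset.disjoint_empty_right _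
  have hsum : (∑ ω : Fin n → Bool with Disjoint (Fal ω) (∅ : Finset (Finset (Lit n))),
      Real.exp (-((#(Fal ω ∩ board n k) : ℝ) / ((q : ℝ) + 1)))) =
      Real.exp (n * Real.log 2 - (n.choose k : ℝ) / ((q : ℝ) + 1)) := by
    rw [hfil]
    have : ∀ ω ∈ (univ : Finset (Fin n → Bool)),
        Real.exp (-((#(Fal ω ∩ board n k) : ℝ) / ((q : ℝ) + 1))) =
        Real.exp (-((n.choose k : ℝ) / ((q : ℝ) + 1))) := by
      intro ω _
      rw [(h8 n k).2 ω]
    rw [Finset.sum_congr rfl this, Finset.sum_const, nsmul_eq_mul]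
    have hc : (#(univ : Finset (Fin n → Bool)) : ℝ) = Real.exp (n * Real.log 2) := by
      rw [Finset.card_univ, Fintype.card_fun, Fintype.card_fin, Fintype.card_bool, mul_comm,
        Real.exp_mul, Real.exp_log (by norm_num), Real.rpow_natCast]
      push_cast
      rfl
    rw [hc, ← Real.exp_add]
    congr 1
  rw [hsum, ← Real.exp_add, Real.exp_lt_one_iff, (h8 n k).1]
  set x : ℝ := (n.choose k : ℝ) / ((q : ℝ) + 1) with hx
  have hx0 : 0 ≤ x := by positivity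
  have e1 : (((2 ^ k * n.choose k : ℕ) : ℝ) / ((q : ℝ) + 1)) = 2 ^ k * x := by
    rw [hx]
    push_cast
    ring
  rw [e1]
  have e2 : δ * (2 ^ k * x) = ε / 2 * x := by rw [← mul_assoc, hδ2]
  rw [e2]
  have e3 : n * Real.log 2 ≤ (1 - ε) * x := by
    rw [hx, ← mul_div_assoc, le_div_iff₀ ht]
    linarith
  have e4 : n * Real.log 2 ≤ x := by nlinarith
  nlinarith

theorem wcbig_of (h1 : St_Mono) (h7 : St_WCpot) (h8 : St_Count) : St_WCbig := by
  intro k hk ε hε hε1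
  set δ : ℝ := ε / 2 ^ (k + 1) with hδdef
  have hpow : (1 : ℝ) ≤ 2 ^ (k + 1) := one_le_pow₀ (by norm_num)
  have hδ : 0 < δ := by positivity
  have hδ1 : δ ≤ 1 := by
    rw [hδdef, div_le_one (by positivity)]
    linarith
  have hδ2 : δ * 2 ^ k = ε / 2 := by
    rw [hδdef, pow_succ]
    field_simp
  set q0 : ℕ := ⌈144 / δ ^ 2⌉₊ with hq0
  have hq0' : 144 / δ ^ 2 ≤ (q0 : ℝ) := Nat.le_ceil _
  set L : ℝ := Real.log 2 with hL
  have hLpos : 0 < L := Real.log_pos (by norm_num)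
  set N1 : ℕ := ⌈2 * ((q0 : ℝ) + 1) * L / (1 - ε)⌉₊ with hN1
  set N2 : ℕ := ⌈2 * Real.exp (4 / δ) / (ε * L)⌉₊ with hN2
  refine ⟨2 * k + N1 + N2 + 2, fun n hn q hq => ?_⟩
  have h1ε : 0 < 1 - ε := by linarith
  have hnN1 : (N1 : ℝ) + 1 ≤ n := by exact_mod_cast (by omega : N1 + 1 ≤ n)
  have hnN2 : (N2 : ℝ) + 1 ≤ n := by exact_mod_cast (by omega : N2 + 1 ≤ n)
  have hM : Real.exp (4 / δ) < ε / 2 * (n * L) := by
    have e1 : 2 * Real.exp (4 / δ) / (ε * L) < n := lt_of_le_of_lt (Nat.le_ceil _) (by linarith)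
    rw [div_lt_iff₀ (by positivity)] at e1
    linarith
  have hC : ((q0 : ℝ) + 1) * (n * L) ≤ (1 - ε) * (n.choose k : ℝ) := by
    have e1 : 2 * ((q0 : ℝ) + 1) * L / (1 - ε) ≤ n - 1 :=
      le_trans (Nat.le_ceil _) (by linarith)
    rw [div_le_iff₀ h1ε] at e1
    have e2 : (n.choose 2 : ℝ) ≤ (n.choose k : ℝ) := by
      exact_mod_cast choose_two_le n k hk (by omega)
    rw [Nat.cast_choose_two] at e2
    have e3 : (1 - ε) * ((n : ℝ) * (n - 1) / 2) ≤ (1 - ε) * (n.choose k : ℝ) :=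
      mul_le_mul_of_nonneg_left e2 h1ε.le
    have e4 : (n : ℝ) * (2 * ((q0 : ℝ) + 1) * L) ≤ n * ((n - 1) * (1 - ε)) :=
      mul_le_mul_of_nonneg_left e1 (by positivity)
    linarith
  rcases le_total (144 / δ ^ 2) ((q : ℝ) + 1) with hbig | hsmall
  · exact big h7 h8 n k q ε δ hε hδ hδ1 hδ2 hbig hM hq
  · have hle : q ≤ q0 := by
      have : (q : ℝ) ≤ q0 := by linarith
      exact_mod_cast this
    obtain ⟨j, hj⟩ := Nat.exists_eq_add_of_le hle
    have := big h7 h8 n k q0 ε δ hε hδ hδ1 hδ2 (by linarith) hM hC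
    rw [hj] at this
    exact descend h1 n k q j this

end Pool.Agent.R982.KS.WCbig
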