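import Pool.Agent.R982.KS.Defs

set_option autoImplicit false

open Finset

namespace Pool.Agent.R982.KS.WCpot

open Pool.Agent.R982.KS

theorem hit_mono {α Ω : Type} (F : Ω → Finset α) (S S' : Finset α)
    (h : S ⊆ S') (hS : Hit F S) : Hit F S' := fun ω => by
  obtain ⟨c, hc, hc'⟩ := hS ω
  exact ⟨c, h hc, hc'⟩

theorem card_split {α : Type} [DecidableEq α] (A U T : Finset α) (hT : T ⊆ U) :
    #(A ∩ (U \ T)) + #(A ∩ T) = #(A ∩ U) := by
  rw [← card_union_of_disjoint]
  · congr 1
    ext x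
    simp only [mem_union, mem_inter, mem_sdiff]
    constructor
    · rintro (⟨h1, h2, _⟩ | ⟨h1, h2⟩)
      · exact ⟨h1, h2⟩
      · exact ⟨h1, hT h2⟩
    · rintro ⟨h1, h2⟩
      by_cases h : x ∈ T
      · exact Or.inr ⟨h1, h⟩
      · exact Or.inl ⟨h1, h2, h⟩
  · rw [Finset.disjoint_left]
    intro x hx hx'
    rw [mem_inter, mem_sdiff] at hx
    rw [mem_inter] at hx'
    exact hx.2.2 hx'.2

theorem aux (h1 : St_Mono) (h6 : St_Step) (α Ω : Type) [DecidableEq α] [Fintype Ω]
    [DecidableEq Ω] (F : Ω → Finset α) (q : ℕ) (δ : ℝ) (hδ : 0 < δ) (hδ1 : δ ≤ 1)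
    (hq : 144 / δ ^ 2 ≤ (q : ℝ) + 1) : ∀ (m : ℕ) (U S : Finset α), #U ≤ m →
    (∑ ω with Disjoint (F ω) S, Real.exp (-((#(F ω ∩ U) : ℝ) / ((q : ℝ) + 1)))) *
      Real.exp (δ * (#U / ((q : ℝ) + 1)) + Real.exp (4 / δ)) < 1 →
    WCWaiter (Hit F) q U S := by
  have ht0 : (0 : ℝ) < (q : ℝ) + 1 := by positivity
  have hM0 : 0 < Real.exp (4 / δ) := Real.exp_pos _
  -- the case of few elements
  have small : ∀ (U S : Finset α), (#U : ℝ) < ((q : ℝ) + 1) * Real.exp (4 / δ) →
      (∑ ω with Disjoint (F ω) S, Real.exp (-((#(F ω ∩ U) : ℝ) / ((q : ℝ) + 1)))) *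
        Real.exp (δ * (#U / ((q : ℝ) + 1)) + Real.exp (4 / δ)) < 1 →
      WCWaiter (Hit F) q U S := by
    intro U S hU hlt
    apply h1.1 α (Hit F) (hit_mono F) q U S
    intro ω
    by_contra hcon
    push Not at hcon
    have hdis : Disjoint (F ω) S := by
      rw [Finset.disjoint_left]
      intro c hc hc'
      exact hcon c hc' hc
    have h2 : Real.exp (-((#(F ω ∩ U) : ℝ) / ((q : ℝ) + 1))) ≤
        ∑ ω with Disjoint (F ω) S, Real.exp (-((#(F ω ∩ U) : ℝ) / ((q : ℝ) + 1))) :=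
      Finset.single_le_sum (f := fun ω => Real.exp (-((#(F ω ∩ U) : ℝ) / ((q : ℝ) + 1))))
        (fun _ _ => (Real.exp_pos _).le) (Finset.mem_filter.2 ⟨Finset.mem_univ ω, hdis⟩)
    have h3 : (#(F ω ∩ U) : ℝ) ≤ #U := by
      exact_mod_cast Finset.card_le_card Finset.inter_subset_right
    have h4 : (#(F ω ∩ U) : ℝ) / ((q : ℝ) + 1) ≤ Real.exp (4 / δ) := by
      rw [div_le_iff₀ ht0]
      nlinarith
    have h5 : (1 : ℝ) ≤ Real.exp (-((#(F ω ∩ U) : ℝ) / ((q : ℝ) + 1))) *
        Real.exp (δ * (#U / ((q : ℝ) + 1)) + Real.exp (4 / δ)) := by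
      rw [← Real.exp_add]
      apply Real.one_le_exp
      have : 0 ≤ δ * (#U / ((q : ℝ) + 1)) := by positivity
      linarith
    have h6' := mul_le_mul_of_nonneg_right h2
      (Real.exp_pos (δ * (#U / ((q : ℝ) + 1)) + Real.exp (4 / δ))).le
    linarith
  intro m
  induction m with
  | zero =>
    intro U S hU hlt
    apply small U S _ hlt
    have : #U = 0 := by omega
    rw [this]
    push_cast
    positivity
  | succ m ih =>
    intro U S hU hlt
    by_cases hbig : (#U : ℝ) < ((q : ℝ) + 1) * Real.exp (4 / δ)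
    · exact small U S hbig hlt
    · rw [not_lt] at hbig
      obtain ⟨T, hTU, hTc, hT⟩ := h6 α Ω F
        (fun ω => if Disjoint (F ω) S then Real.exp (-((#(F ω ∩ U) : ℝ) / ((q : ℝ) + 1))) else 0)
        U (q + 1) δ (fun ω => by split_ifs; exacts [(Real.exp_pos _).le, le_rfl]) (by omega)
        hδ hδ1 (by push_cast; exact hq) (by push_cast; exact hbig)
      refine WCWaiter.step U S T hTU hTc ?_
      intro c hc
      have hcard : #(U \ T) + (q + 1) = #U := by
        rw [← hTc]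
        exact Finset.card_sdiff_add_card_eq_card hTU
      apply ih (U \ T) (insert c S) (by omega)
      have hcardR : (#(U \ T) : ℝ) = #U - ((q : ℝ) + 1) := by
        have : ((#(U \ T) + (q + 1) : ℕ) : ℝ) = (#U : ℝ) := by rw [hcard]
        push_cast at this
        linarith
      have hTc' := hT c hc
      push_cast at hTc'
      -- rewrite the sums
      have e1 : ∑ ω, (if Disjoint (F ω) S then
          Real.exp (-((#(F ω ∩ U) : ℝ) / ((q : ℝ) + 1))) else 0) =
          ∑ ω with Disjoint (F ω) S, Real.exp (-((#(F ω ∩ U) : ℝ) / ((q : ℝ) + 1))) :=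
        (Finset.sum_filter _ _).symm
      have e2 : ∑ ω with Disjoint (F ω) (insert c S),
          Real.exp (-((#(F ω ∩ (U \ T)) : ℝ) / ((q : ℝ) + 1))) =
          ∑ ω with c ∉ F ω, (if Disjoint (F ω) S then
            Real.exp (-((#(F ω ∩ U) : ℝ) / ((q : ℝ) + 1))) else 0) *
              Real.exp ((#(F ω ∩ T) : ℝ) / ((q : ℝ) + 1)) := by
        rw [Finset.sum_filter, Finset.sum_filter]
        refine Finset.sum_congr rfl fun ω _ => ?_
        by_cases hcF : c ∈ F ω
        · have : ¬ Disjoint (F ω) (insert c S) := fun h =>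
            (Finset.disjoint_left.1 h hcF) (Finset.mem_insert_self c S)
          simp [this, hcF]
        · have hiff : Disjoint (F ω) (insert c S) ↔ Disjoint (F ω) S := by
            rw [Finset.disjoint_insert_right]
            exact ⟨fun h => h.2, fun h => ⟨hcF, h⟩⟩
          by_cases hd : Disjoint (F ω) S
          · rw [if_pos (hiff.2 hd), if_pos hcF, if_pos hd, ← Real.exp_add]
            congr 1
            have h7 := card_split (F ω) U T hTU
            have h8 : (#(F ω ∩ U) : ℝ) = #(F ω ∩ (U \ T)) + #(F ω ∩ T) := by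
              rw [← h7]; push_cast; ring
            rw [h8]
            ring
          · rw [if_neg (fun h => hd (hiff.1 h)), if_pos hcF, if_neg hd, zero_mul]
      rw [e1] at hTc'
      rw [e2]
      set Ψ := ∑ ω with Disjoint (F ω) S, Real.exp (-((#(F ω ∩ U) : ℝ) / ((q : ℝ) + 1))) with hΨ
      have hΨ0 : 0 ≤ Ψ := Finset.sum_nonneg fun _ _ => (Real.exp_pos _).le
      refine lt_of_le_of_lt ?_ hlt
      have h9 : (1 + δ) * Ψ ≤ Real.exp δ * Ψ :=
        mul_le_mul_of_nonneg_right (by linarith [Real.add_one_le_exp δ]) hΨ0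
      have h10 : Real.exp (δ * (#(U \ T) / ((q : ℝ) + 1)) + Real.exp (4 / δ)) =
          Real.exp (-δ) * Real.exp (δ * (#U / ((q : ℝ) + 1)) + Real.exp (4 / δ)) := by
        rw [← Real.exp_add]
        congr 1
        rw [hcardR]
        field_simp
        ring
      rw [h10]
      calc _ ≤ (Real.exp δ * Ψ) *
            (Real.exp (-δ) * Real.exp (δ * (#U / ((q : ℝ) + 1)) + Real.exp (4 / δ))) :=
            mul_le_mul_of_nonneg_right (hTc'.trans h9) (by positivity)
        _ = (Real.exp δ * Real.exp (-δ)) *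
            (Ψ * Real.exp (δ * (#U / ((q : ℝ) + 1)) + Real.exp (4 / δ))) := by ring
        _ = _ := by rw [← Real.exp_add, add_neg_cancel, Real.exp_zero, one_mul]

theorem wcpot_of (h1 : St_Mono) (h6 : St_Step) : St_WCpot := by
  intro α Ω _ _ _ F q δ U S hδ hδ1 hq h
  exact aux h1 h6 α Ω F q δ hδ hδ1 hq (#U) U S le_rfl h

end Pool.Agent.R982.KS.WCpot
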